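import Pool.Agent.Lib.MP_6bc78b_nt.GP.H6.Defs5
import Pool.Agent.Lib.MP_6bc78b_nt.GP.H4.AVG

/-! Project GP5, module AVGW: a good `δ` for the weight `e^(-H² u² + u) / (1 + lam² u²)`. -/

set_option autoImplicit false

open Complex Filter Topology MeasureTheory ArithmeticFunction Set
open scoped ENNReal

namespace Pool.Agent.Lib.MP_6bc78b_nt.GP

open Pool.Agent.Lib.MP_6bc78b_nt.MS Pool.Agent.Lib.MP_6bc78b_nt.MS.P1

namespace H92

/-- The weight is bounded by a sum of Gaussians. -/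
theorem weight (x : ℝ) (N : ℕ) :
    1 / (1 + x ^ 2) ≤ 11 * ∑ k ∈ Finset.range (N + 1), ((4 : ℝ)⁻¹) ^ k *
      Real.exp (-(x ^ 2 * ((4 : ℝ)⁻¹) ^ k)) + ((4 : ℝ)⁻¹) ^ N := by
  have hx : 0 < 1 + x ^ 2 := by positivity
  have hS : ∀ N : ℕ, 0 ≤ 11 * ∑ k ∈ Finset.range (N + 1), ((4 : ℝ)⁻¹) ^ k *
      Real.exp (-(x ^ 2 * ((4 : ℝ)⁻¹) ^ k)) := fun N =>
    mul_nonneg (by norm_num) (Finset.sum_nonneg fun k _ => by positivity)
  induction N with
  | zero =>
    have h1 : 1 / (1 + x ^ 2) ≤ 1 := by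
      rw [div_le_one hx]
      nlinarith [sq_nonneg x]
    have := hS 0
    simp only [pow_zero] at this ⊢
    linarith
  | succ N ih =>
    have hq : 0 < ((4 : ℝ)⁻¹) ^ (N + 1) := by positivity
    by_cases hc : x ^ 2 * ((4 : ℝ)⁻¹) ^ (N + 1) ≤ 1
    · rw [Finset.sum_range_succ]
      have h1 : Real.exp (-1) ≤ Real.exp (-(x ^ 2 * ((4 : ℝ)⁻¹) ^ (N + 1))) :=
        Real.exp_le_exp.2 (by linarith)
      have h2 : (4 : ℝ) / 11 ≤ Real.exp (-1) := by
        rw [Real.exp_neg, le_inv_comm₀ (by norm_num) (Real.exp_pos _)]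
        have := Real.exp_one_lt_d9
        norm_num at this ⊢
        linarith
      have h3 : ((4 : ℝ)⁻¹) ^ N = 4 * ((4 : ℝ)⁻¹) ^ (N + 1) := by
        rw [pow_succ]
        ring
      have h4 : ((4 : ℝ)⁻¹) ^ (N + 1) * (4 / 11) ≤ ((4 : ℝ)⁻¹) ^ (N + 1) *
          Real.exp (-(x ^ 2 * ((4 : ℝ)⁻¹) ^ (N + 1))) :=
        mul_le_mul_of_nonneg_left (h2.trans h1) hq.le
      rw [h3] at ih
      rw [mul_add]
      nlinarith
    · push Not at hc
      have h1 : 1 / (1 + x ^ 2) ≤ ((4 : ℝ)⁻¹) ^ (N + 1) := by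
        rw [div_le_iff₀ hx]
        nlinarith
      have := hS (N + 1)
      linarith

/-- The sum of the weights. -/
theorem geo (N : ℕ) : ∑ k ∈ Finset.range (N + 1), ((4 : ℝ)⁻¹) ^ k * 2 ^ k ≤ 2 := by
  have h1 : ∀ k : ℕ, ((4 : ℝ)⁻¹) ^ k * 2 ^ k = (1 / 2 : ℝ) ^ k := fun k => by
    rw [← mul_pow]
    norm_num
  simp only [h1]
  have h2 : ∀ n : ℕ, ∑ k ∈ Finset.range n, (1 / 2 : ℝ) ^ k = 2 - 2 * (1 / 2) ^ n := by
    intro n
    induction n with
    | zero => simp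
    | succ n ih =>
      rw [Finset.sum_range_succ, ih, pow_succ]
      ring
  rw [h2]
  have : (0 : ℝ) < (1 / 2) ^ (N + 1) := by positivity
  linarith

/-- The integral over `|u| ≤ 1/2` with a Gaussian. -/
noncomputable def JJ (A B H δ : ℝ) : ℝ≥0∞ :=
  ∫⁻ u in Icc (-(1 / 2) : ℝ) (1 / 2),
    H4.gE A B (zp u δ) * ENNReal.ofReal (Real.exp (-(H ^ 2 * u ^ 2) + u))

theorem meas_zp : Measurable fun p : ℝ × ℝ => zp p.2 p.1 := by
  refine Continuous.measurable ?_
  unfold zp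
  fun_prop

theorem meas_J0 (h4 : DX2Statement) (A B H : ℝ) : Measurable fun p : ℝ × ℝ =>
    H4.gE A B (zp p.2 p.1) * ENNReal.ofReal (Real.exp (-(H ^ 2 * p.2 ^ 2) + p.2)) := by
  refine ((H4.measurable_gE h4 A B).comp meas_zp).mul ?_
  refine Measurable.ennreal_ofReal (Continuous.measurable ?_)
  fun_prop

theorem meas_JJ (h4 : DX2Statement) (A B H : ℝ) : Measurable (JJ A B H) :=
  (meas_J0 h4 A B H).lintegral_prod_right'

theorem meas_Ju (h4 : DX2Statement) (A B H δ : ℝ) : Measurable fun u : ℝ =>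
    H4.gE A B (zp u δ) * ENNReal.ofReal (Real.exp (-(H ^ 2 * u ^ 2) + u)) := by
  have h1 : Measurable fun u : ℝ => zp u δ := by
    refine Continuous.measurable ?_
    unfold zp
    fun_prop
  refine ((H4.measurable_gE h4 A B).comp h1).mul ?_
  refine Measurable.ennreal_ofReal (Continuous.measurable ?_)
  fun_prop

theorem exp_quarter : Real.exp (1 / 4) ≤ 2 := by
  have h1 : Real.exp (1 / 4) ^ 4 = Real.exp 1 := by
    rw [← Real.exp_nat_mul]
    norm_num
  have h2 := Real.exp_one_lt_d9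
  by_contra hc
  push Not at hc
  have h3 : (2 : ℝ) ^ 4 < Real.exp (1 / 4) ^ 4 := pow_lt_pow_left₀ hc (by norm_num) (by norm_num)
  rw [h1] at h3
  norm_num at h3
  linarith

/-- The weight on `|u| ≤ 1/2`. -/
theorem split_le (h4 : DX2Statement) (A B lam δ : ℝ) (N : ℕ) :
    ∫⁻ u in Icc (-(1 / 2) : ℝ) (1 / 2), H4.gE A B (zp u δ) *
      ENNReal.ofReal (Real.exp u / (1 + lam ^ 2 * u ^ 2)) ≤
    ∑ k ∈ Finset.range (N + 1), ENNReal.ofReal (11 * ((4 : ℝ)⁻¹) ^ k) *
      JJ A B (lam * (1 / 2) ^ k) δ + ENNReal.ofReal (2 * ((4 : ℝ)⁻¹) ^ N) * JJ A B 1 δ := by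
  have hpt : ∀ u ∈ Icc (-(1 / 2) : ℝ) (1 / 2), H4.gE A B (zp u δ) *
      ENNReal.ofReal (Real.exp u / (1 + lam ^ 2 * u ^ 2)) ≤
      ∑ k ∈ Finset.range (N + 1), ENNReal.ofReal (11 * ((4 : ℝ)⁻¹) ^ k) *
        (H4.gE A B (zp u δ) *
          ENNReal.ofReal (Real.exp (-((lam * (1 / 2) ^ k) ^ 2 * u ^ 2) + u))) +
        ENNReal.ofReal (2 * ((4 : ℝ)⁻¹) ^ N) *
          (H4.gE A B (zp u δ) * ENNReal.ofReal (Real.exp (-(1 ^ 2 * u ^ 2) + u))) := by
    intro u hu
    have hu2 : u ^ 2 ≤ 1 / 4 := by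
      have := abs_le.2 hu
      rw [← sq_abs]
      nlinarith [abs_nonneg u]
    have hw := weight (lam * u) N
    have e1 : Real.exp u / (1 + lam ^ 2 * u ^ 2) ≤
        ∑ k ∈ Finset.range (N + 1), 11 * ((4 : ℝ)⁻¹) ^ k *
          Real.exp (-((lam * (1 / 2) ^ k) ^ 2 * u ^ 2) + u) +
        2 * ((4 : ℝ)⁻¹) ^ N * Real.exp (-(1 ^ 2 * u ^ 2) + u) := by
      have e2 : ∀ k : ℕ, Real.exp u * (((4 : ℝ)⁻¹) ^ k *
          Real.exp (-((lam * u) ^ 2 * ((4 : ℝ)⁻¹) ^ k))) =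
          ((4 : ℝ)⁻¹) ^ k * Real.exp (-((lam * (1 / 2) ^ k) ^ 2 * u ^ 2) + u) := by
        intro k
        have e3 : ((4 : ℝ)⁻¹) ^ k = ((1 / 2 : ℝ) ^ k) ^ 2 := by
          rw [← pow_mul, mul_comm, pow_mul]
          norm_num
        rw [mul_left_comm, ← Real.exp_add]
        congr 2
        rw [e3]
        ring
      have e4 : Real.exp u ≤ 2 * Real.exp (-(1 ^ 2 * u ^ 2) + u) := by
        have e5 : Real.exp u = Real.exp (u ^ 2) * Real.exp (-(1 ^ 2 * u ^ 2) + u) := by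
          rw [← Real.exp_add]
          congr 1
          ring
        rw [e5]
        exact mul_le_mul_of_nonneg_right ((Real.exp_le_exp.2 hu2).trans exp_quarter)
          (Real.exp_pos _).le
      calc Real.exp u / (1 + lam ^ 2 * u ^ 2)
          = Real.exp u * (1 / (1 + (lam * u) ^ 2)) := by
            rw [mul_pow]
            ring
        _ ≤ Real.exp u * (11 * ∑ k ∈ Finset.range (N + 1), ((4 : ℝ)⁻¹) ^ k *
              Real.exp (-((lam * u) ^ 2 * ((4 : ℝ)⁻¹) ^ k)) + ((4 : ℝ)⁻¹) ^ N) :=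
            mul_le_mul_of_nonneg_left hw (Real.exp_pos _).le
        _ = ∑ k ∈ Finset.range (N + 1), 11 * ((4 : ℝ)⁻¹) ^ k *
              Real.exp (-((lam * (1 / 2) ^ k) ^ 2 * u ^ 2) + u) +
            ((4 : ℝ)⁻¹) ^ N * Real.exp u := by
            rw [mul_add, Finset.mul_sum, Finset.mul_sum]
            congr 1
            · refine Finset.sum_congr rfl fun k _ => ?_
              rw [mul_left_comm, e2 k]
              ring
            · ring
        _ ≤ _ := by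
            have : ((4 : ℝ)⁻¹) ^ N * Real.exp u ≤
                ((4 : ℝ)⁻¹) ^ N * (2 * Real.exp (-(1 ^ 2 * u ^ 2) + u)) :=
              mul_le_mul_of_nonneg_left e4 (by positivity)
            linarith
    have e6 : ENNReal.ofReal (Real.exp u / (1 + lam ^ 2 * u ^ 2)) ≤
        ∑ k ∈ Finset.range (N + 1), ENNReal.ofReal (11 * ((4 : ℝ)⁻¹) ^ k) *
          ENNReal.ofReal (Real.exp (-((lam * (1 / 2) ^ k) ^ 2 * u ^ 2) + u)) +
        ENNReal.ofReal (2 * ((4 : ℝ)⁻¹) ^ N) *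
          ENNReal.ofReal (Real.exp (-(1 ^ 2 * u ^ 2) + u)) := by
      refine (ENNReal.ofReal_le_ofReal e1).trans (le_of_eq ?_)
      rw [ENNReal.ofReal_add (Finset.sum_nonneg fun k _ => by positivity) (by positivity),
        ENNReal.ofReal_sum_of_nonneg fun k _ => by positivity,
        ENNReal.ofReal_mul (by positivity)]
      congr 1
      refine Finset.sum_congr rfl fun k _ => ?_
      rw [ENNReal.ofReal_mul (by positivity)]
    refine (mul_le_mul' (le_refl (H4.gE A B (zp u δ))) e6).trans (le_of_eq ?_)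
    rw [mul_add, Finset.mul_sum]
    congr 1
    · refine Finset.sum_congr rfl fun k _ => ?_
      rw [mul_left_comm]
    · rw [mul_left_comm]
  refine (setLIntegral_mono' measurableSet_Icc hpt).trans (le_of_eq ?_)
  rw [lintegral_add_left (Finset.measurable_sum _ fun k _ => (meas_Ju h4 A B _ δ).const_mul _),
    lintegral_finsetSum _ fun k _ => (meas_Ju h4 A B _ δ).const_mul _,
    lintegral_const_mul _ (meas_Ju h4 A B _ δ)]
  congr 1
  refine Finset.sum_congr rfl fun k _ => ?_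
  rw [lintegral_const_mul _ (meas_Ju h4 A B _ δ)]
  rfl

end H92

open H4 H92 in
/-- A good `δ` for the weight with the kernel of an interval. -/
theorem avgw (h1 : ARE5Statement) (h2 : CHVStatement) (h3 : ETRStatement) (h4 : DX2Statement) :
    AVGWStatement := by
  intro hRH A B D hD
  obtain ⟨a, b, R, κ₀, C₂, ha, hab, hR, hκ, hC₂, hchv⟩ := h2
  obtain ⟨C₁, T₁, hC₁, hT₁, hare⟩ := h1 hRH A B D hD a b R κ₀ ha hab hR hκ
  obtain ⟨-, C₃, hC₃, hetr⟩ := h3 A B
  refine ⟨30 * (C₁ * C₂) + 4 * C₃ ^ 2 + 1, T₁, by positivity, hT₁, ?_⟩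
  intro T H lam hT hH hHl hlT
  have hT10 : 10 < T := lt_of_lt_of_le hT₁ hT
  have hT0 : 0 < T := by linarith
  have hL : 1 ≤ Real.log T := by
    rw [Real.le_log_iff_exp_le hT0]
    have := Real.exp_one_lt_d9
    linarith
  have hH1 : 1 ≤ H := by
    refine le_trans ?_ hH
    have : 1 ≤ Real.sqrt (Real.log T) := Real.one_le_sqrt.2 hL
    linarith
  have hl1 : 1 ≤ lam := hH1.trans hHl
  have hl0 : 0 < lam := by linarith
  obtain ⟨N, hN1, hN2⟩ := exists_nat_pow_near hl1 (by norm_num : (1 : ℝ) < 2)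
  by_contra hcon
  push Not at hcon
  set Q : ℝ := T * Real.log T ^ 5 / lam with hQ
  have hQ1 : 1 ≤ Q := by
    rw [hQ, le_div_iff₀ hl0, one_mul]
    calc lam ≤ T := hlT
      _ ≤ T * Real.log T ^ 5 := le_mul_of_one_le_right hT0.le (one_le_pow₀ hL)
  -- the lower bound for the inner part
  have hin : ∀ δ ∈ Icc (1 / T) (2 / T), ENNReal.ofReal ((30 * (C₁ * C₂) + 1) * Q) ≤
      ∫⁻ u in Icc (-(1 / 2) : ℝ) (1 / 2), gE A B (zp u δ) *
        ENNReal.ofReal (Real.exp u / (1 + lam ^ 2 * u ^ 2)) := by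
    intro δ hδ
    have hδ0 : 0 < δ := lt_of_lt_of_le (by positivity) hδ.1
    have hδh : δ ≤ 1 / 2 := by
      refine hδ.2.trans ?_
      rw [div_le_iff₀ hT0]
      linarith
    have e1 := hcon δ hδ
    have e2 : ∫⁻ u in (Icc (-(1 / 2) : ℝ) (1 / 2))ᶜ,
        ENNReal.ofReal (‖EE A B (zp u δ)‖ ^ 2 * Real.exp (-(H ^ 2 * u ^ 2) + u) /
          (1 + lam ^ 2 * u ^ 2)) ≤ ENNReal.ofReal (4 * C₃ ^ 2) := by
      refine (lintegral_mono fun u => ENNReal.ofReal_le_ofReal ?_).trans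
        (tail A B C₃ hC₃ hetr T H δ hT10 hH hδ.1 hδ.2)
      refine div_le_self (by positivity) ?_
      nlinarith [mul_nonneg (sq_nonneg lam) (sq_nonneg u)]
    rw [← lintegral_add_compl _ (measurableSet_Icc : MeasurableSet (Icc (-(1 / 2) : ℝ) (1 / 2)))]
      at e1
    have e3 : ENNReal.ofReal ((30 * (C₁ * C₂) + 1) * Q) + ENNReal.ofReal (4 * C₃ ^ 2) ≤
        ENNReal.ofReal ((30 * (C₁ * C₂) + 4 * C₃ ^ 2 + 1) * T * Real.log T ^ 5 / lam) := by
      rw [← ENNReal.ofReal_add (by positivity) (by positivity)]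
      apply ENNReal.ofReal_le_ofReal
      have : (30 * (C₁ * C₂) + 4 * C₃ ^ 2 + 1) * T * Real.log T ^ 5 / lam =
          (30 * (C₁ * C₂) + 1) * Q + 4 * C₃ ^ 2 * Q := by
        rw [hQ]
        ring
      rw [this]
      have : 4 * C₃ ^ 2 * 1 ≤ 4 * C₃ ^ 2 * Q := mul_le_mul_of_nonneg_left hQ1 (by positivity)
      linarith
    have e4 : ENNReal.ofReal ((30 * (C₁ * C₂) + 1) * Q) + ENNReal.ofReal (4 * C₃ ^ 2) <
        (∫⁻ u in Icc (-(1 / 2) : ℝ) (1 / 2),
          ENNReal.ofReal (‖EE A B (zp u δ)‖ ^ 2 * Real.exp (-(H ^ 2 * u ^ 2) + u) /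
            (1 + lam ^ 2 * u ^ 2))) + ENNReal.ofReal (4 * C₃ ^ 2) :=
      (e3.trans_lt e1).trans_le (add_le_add le_rfl e2)
    have e5 := (ENNReal.add_lt_add_iff_right ENNReal.ofReal_ne_top).1 e4
    refine e5.le.trans ?_
    refine lintegral_mono fun u => ?_
    have hpos := zp_re_pos (u := u) hδ0 hδh
    unfold gE
    rw [if_pos hpos, ← ENNReal.ofReal_mul (by positivity)]
    refine ENNReal.ofReal_le_ofReal ?_
    rw [mul_div_assoc]
    refine mul_le_mul_of_nonneg_left ?_ (by positivity)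
    refine div_le_div_of_nonneg_right (Real.exp_le_exp.2 ?_) (by positivity)
    nlinarith [mul_nonneg (sq_nonneg H) (sq_nonneg u)]
  have hlow : ENNReal.ofReal ((30 * (C₁ * C₂) + 1) * Q) * ENNReal.ofReal (1 / T) ≤
      ∫⁻ δ in Icc (1 / T) (2 / T), ∫⁻ u in Icc (-(1 / 2) : ℝ) (1 / 2), gE A B (zp u δ) *
        ENNReal.ofReal (Real.exp u / (1 + lam ^ 2 * u ^ 2)) := by
    have e1 : ∫⁻ _ in Icc (1 / T) (2 / T), ENNReal.ofReal ((30 * (C₁ * C₂) + 1) * Q) =
        ENNReal.ofReal ((30 * (C₁ * C₂) + 1) * Q) * ENNReal.ofReal (1 / T) := by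
      rw [setLIntegral_const, Real.volume_Icc]
      congr 2
      ring
    rw [← e1]
    exact setLIntegral_mono' measurableSet_Icc hin
  -- one Gaussian
  have hJ : ∀ H' : ℝ, 1 ≤ H' → H' ≤ T → ∫⁻ δ in Icc (1 / T) (2 / T), JJ A B H' δ ≤
      ENNReal.ofReal (C₂ * (C₁ * Real.log T ^ 5 / H')) := by
    intro H' hH1 hHT
    rw [ENNReal.ofReal_mul hC₂.le]
    refine (hchv (gE A B) (measurable_gE h4 A B) T H' hT10.le hH1 hHT).trans ?_
    refine mul_le_mul' le_rfl ?_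
    refine le_trans (le_of_eq ?_) (hare T H' hT hH1 hHT)
    have hms : MeasurableSet {z : ℂ | a / T ≤ z.re ∧ z.re ≤ b / T ∧ |z.im| ≤ R} := by
      have m1 : MeasurableSet {z : ℂ | a / T ≤ z.re} :=
        measurableSet_le measurable_const Complex.measurable_re
      have m2 : MeasurableSet {z : ℂ | z.re ≤ b / T} :=
        measurableSet_le Complex.measurable_re measurable_const
      have m3 : MeasurableSet {z : ℂ | |z.im| ≤ R} :=
        measurableSet_le (f := fun z : ℂ => |z.im|) (g := fun _ => R)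
          Complex.measurable_im.norm measurable_const
      exact m1.inter (m2.inter m3)
    refine setLIntegral_congr_fun hms fun z hz => ?_
    have hpos : 0 < z.re := lt_of_lt_of_le (by positivity) hz.1
    simp only [gE]
    rw [if_pos hpos, ← ENNReal.ofReal_mul (by positivity)]
  have hHk : ∀ k ∈ Finset.range (N + 1), 1 ≤ lam * (1 / 2) ^ k ∧ lam * (1 / 2) ^ k ≤ T := by
    intro k hk
    have hk' : k ≤ N := Nat.lt_succ_iff.1 (Finset.mem_range.1 hk)
    constructor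
    · rw [one_div, inv_pow, ← div_eq_mul_inv, le_div_iff₀ (by positivity), one_mul]
      exact (pow_le_pow_right₀ (by norm_num) hk').trans hN1
    · refine (mul_le_of_le_one_right hl0.le ?_).trans hlT
      exact pow_le_one₀ (by norm_num) (by norm_num)
  have hup : ∫⁻ δ in Icc (1 / T) (2 / T), ∫⁻ u in Icc (-(1 / 2) : ℝ) (1 / 2), gE A B (zp u δ) *
        ENNReal.ofReal (Real.exp u / (1 + lam ^ 2 * u ^ 2)) ≤
      ENNReal.ofReal (30 * (C₁ * C₂) * (Real.log T ^ 5 / lam)) := by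
    refine (lintegral_mono fun δ => split_le h4 A B lam δ N).trans ?_
    rw [lintegral_add_left (Finset.measurable_sum _ fun k _ => (meas_JJ h4 A B _).const_mul _),
      lintegral_finsetSum _ fun k _ => (meas_JJ h4 A B _).const_mul _,
      lintegral_const_mul _ (meas_JJ h4 A B _)]
    have e1 : ∀ k ∈ Finset.range (N + 1), ∫⁻ δ in Icc (1 / T) (2 / T),
        ENNReal.ofReal (11 * ((4 : ℝ)⁻¹) ^ k) * JJ A B (lam * (1 / 2) ^ k) δ ≤
        ENNReal.ofReal (11 * (C₁ * C₂) * (Real.log T ^ 5 / lam) * (((4 : ℝ)⁻¹) ^ k * 2 ^ k)) := by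
      intro k hk
      rw [lintegral_const_mul _ (meas_JJ h4 A B _)]
      refine (mul_le_mul' le_rfl (hJ _ (hHk k hk).1 (hHk k hk).2)).trans (le_of_eq ?_)
      rw [← ENNReal.ofReal_mul (by positivity)]
      congr 1
      have e0 : (1 / 2 : ℝ) ^ k = (2 ^ k)⁻¹ := by rw [one_div, inv_pow]
      rw [e0]
      field_simp
    have e2 : ENNReal.ofReal (2 * ((4 : ℝ)⁻¹) ^ N) * ∫⁻ δ in Icc (1 / T) (2 / T), JJ A B 1 δ ≤
        ENNReal.ofReal (8 * (C₁ * C₂) * (Real.log T ^ 5 / lam)) := by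
      refine (mul_le_mul' le_rfl (hJ 1 le_rfl (by linarith))).trans ?_
      rw [← ENNReal.ofReal_mul (by positivity)]
      refine ENNReal.ofReal_le_ofReal ?_
      have e3 : ((4 : ℝ)⁻¹) ^ N ≤ 4 / lam := by
        have e4 : lam ^ 2 < 4 * 4 ^ N := by
          have e5 : lam ^ 2 < (2 ^ (N + 1)) ^ 2 := pow_lt_pow_left₀ hN2 hl0.le (by norm_num)
          have e6 : ((2 : ℝ) ^ (N + 1)) ^ 2 = 4 * 4 ^ N := by
            rw [← pow_mul, mul_comm, pow_mul, pow_succ]
            norm_num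
            ring
          rwa [e6] at e5
        rw [inv_pow, inv_eq_one_div, div_le_div_iff₀ (by positivity) hl0]
        nlinarith
      have e7 : 0 ≤ C₁ * C₂ * Real.log T ^ 5 := by positivity
      calc 2 * ((4 : ℝ)⁻¹) ^ N * (C₂ * (C₁ * Real.log T ^ 5 / 1))
          = 2 * (C₁ * C₂ * Real.log T ^ 5) * ((4 : ℝ)⁻¹) ^ N := by ring
        _ ≤ 2 * (C₁ * C₂ * Real.log T ^ 5) * (4 / lam) :=
            mul_le_mul_of_nonneg_left e3 (by positivity)
        _ = _ := by ring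
    refine (add_le_add (Finset.sum_le_sum e1) e2).trans ?_
    rw [← ENNReal.ofReal_sum_of_nonneg fun k _ => by positivity, ← Finset.mul_sum,
      ← ENNReal.ofReal_add (by positivity) (by positivity)]
    refine ENNReal.ofReal_le_ofReal ?_
    have e8 := geo N
    have e9 : 0 ≤ C₁ * C₂ * (Real.log T ^ 5 / lam) := by positivity
    nlinarith
  have hfin := hlow.trans hup
  rw [← ENNReal.ofReal_mul (by positivity),
    ENNReal.ofReal_le_ofReal_iff (by positivity)] at hfin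
  have e6 : (30 * (C₁ * C₂) + 1) * Q * (1 / T) =
      (30 * (C₁ * C₂) + 1) * (Real.log T ^ 5 / lam) := by
    rw [hQ]
    field_simp
  rw [e6] at hfin
  have e8 : 0 < Real.log T ^ 5 / lam := by positivity
  nlinarith

end Pool.Agent.Lib.MP_6bc78b_nt.GP
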