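import Pool.Agent.Lib.MP_6bc78b_nt.GP.H27.Mel8
import Pool.Agent.Lib.MP_6bc78b_nt.GP.H62.Defs9a

/-! Project GP9, module MEL9: assembly on the `t`-side, three scales (after `GP/H27/Mel8.lean`). -/

set_option autoImplicit false

open Complex Filter Topology MeasureTheory ArithmeticFunction Set
open scoped ENNReal

namespace Pool.Agent.Lib.MP_6bc78b_nt.GP.H92M

open Pool.Agent.Lib.MP_6bc78b_nt.MS Pool.Agent.Lib.MP_6bc78b_nt.MS.P1
  Pool.Agent.Lib.MP_6bc78b_nt.GP.G7 Pool.Agent.Lib.MP_6bc78b_nt.GP.G8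
  Pool.Agent.Lib.MP_6bc78b_nt.GP.G9 Pool.Agent.Lib.MP_6bc78b_nt.GP.H27M

theorem tendsto_llll :
    Tendsto (fun T : ℝ => Real.log (Real.log (Real.log (Real.log T)))) atTop atTop :=
  Real.tendsto_log_atTop.comp tendsto_lll

/-- Large `T`. -/
theorem ev9 (P0 η : ℝ) (K : ℕ) (hη : 0 < η) : ∃ T1 : ℝ, 10 < T1 ∧ ∀ T : ℝ, T1 ≤ T →
    3 ≤ Real.log (Real.log (Real.log (Real.log T))) ∧ P0 ≤ PC T ∧ P0 ≤ PM T ∧ P0 ≤ PB T ∧
    3 ≤ PC T ∧ 3 ≤ PM T ∧ 3 ≤ PB T ∧ PC T ≤ PB T ∧ PM T ≤ PB T ∧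
    3 * PB T ^ (K + 1) ≤ T ^ (η / 8) := by
  obtain ⟨T0, hT0, E⟩ := ev8 P0 η K hη
  have e1 : ∀ᶠ T : ℝ in atTop, max 3 P0 ≤ Real.log (Real.log (Real.log (Real.log T))) :=
    tendsto_llll.eventually_ge_atTop _
  obtain ⟨T1, h1⟩ := eventually_atTop.1 e1
  refine ⟨max T0 T1, lt_of_lt_of_le hT0 (le_max_left _ _), fun T hT => ?_⟩
  obtain ⟨l3, -, pB, -, pB3, -, pT⟩ := E T ((le_max_left _ _).trans hT)
  have a1 := h1 T ((le_max_right _ _).trans hT)
  have b1 : 3 ≤ Real.log (Real.log (Real.log (Real.log T))) := (le_max_left _ _).trans a1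
  have b1' : P0 ≤ Real.log (Real.log (Real.log (Real.log T))) := (le_max_right _ _).trans a1
  have c1 : Real.log (Real.log (Real.log (Real.log T))) ≤ PC T :=
    le_self_pow₀ (by linarith) (by norm_num)
  have c3 : Real.log (Real.log (Real.log (Real.log T))) ≤ Real.log (Real.log (Real.log T)) :=
    (Real.log_le_sub_one_of_pos (by linarith)).trans (by linarith)
  have c2 : Real.log (Real.log (Real.log T)) ≤ PM T := le_self_pow₀ (by linarith) (by norm_num)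
  have hll : 0 < Real.log (Real.log T) := by
    by_contra h
    rw [not_lt] at h
    rcases eq_or_lt_of_le h with h0 | h0
    · rw [h0, Real.log_zero] at l3
      linarith
    · -- `log (log T) < 0` is impossible for large `T`
      have hT10 : 10 < T := lt_of_lt_of_le hT0 ((le_max_left _ _).trans hT)
      have hL1 : 1 ≤ Real.log T := by
        rw [Real.le_log_iff_exp_le (by linarith)]
        have := Real.exp_one_lt_d9
        linarith
      have := Real.log_nonneg hL1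
      linarith
  have c4 : Real.log (Real.log (Real.log T)) ≤ Real.log (Real.log T) :=
    (Real.log_le_sub_one_of_pos hll).trans (by linarith)
  have dM : PM T ≤ PB T := pow_le_pow_left₀ (by linarith) c4 16
  have dC : PC T ≤ PM T := by
    have d1 : PC T ≤ Real.log (Real.log (Real.log T)) ^ 3 := pow_le_pow_left₀ (by linarith) c3 3
    have d2 : Real.log (Real.log (Real.log T)) ^ 3 ≤ PM T :=
      pow_le_pow_right₀ (by linarith) (by norm_num)
    exact d1.trans d2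
  exact ⟨b1, b1'.trans c1, (b1'.trans c3).trans c2, pB, b1.trans c1, l3.trans c2, pB3,
    dC.trans dM, dM, pT⟩

/-- **MEL9.** -/
theorem mel9 (hD : DEC8Statement) (hS : SML8Statement) (hG : GOODXStatement)
    (hH : HIGH8Statement) (hL : MED9LStatement) (hM : MED9HStatement) (hMer : MERXStatement) :
    MEL9Statement := by
  intro hRH a b ε η δ ha hab hε hε1 hη hη1 hδ
  obtain ⟨C1, hC1, HD⟩ := hD a ε ha hε hε1
  obtain ⟨C2, hC2, HG⟩ := hG a ε ha hε hε1
  -- the parameters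
  obtain ⟨κ, hκ0, hκ1, hκ2⟩ : ∃ κ : ℝ, 0 < κ ∧ κ ≤ 1 / 2 ∧ 2 * C1 * κ ≤ δ / 40 := by
    refine ⟨min (1 / 2) (δ / (80 * C1)), lt_min (by norm_num) (by positivity), min_le_left _ _, ?_⟩
    have h1 : min (1 / 2) (δ / (80 * C1)) ≤ δ / (80 * C1) := min_le_right _ _
    have h2 : 2 * C1 * min (1 / 2) (δ / (80 * C1)) ≤ 2 * C1 * (δ / (80 * C1)) :=
      mul_le_mul_of_nonneg_left h1 (by positivity)
    have h3 : 2 * C1 * (δ / (80 * C1)) = δ / 40 := by
      field_simp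
      norm_num
    linarith
  obtain ⟨c, hc0, hc1, hc2⟩ : ∃ c : ℝ, 0 < c ∧ c < 1 ∧ 2 * C2 * c ≤ δ / 40 := by
    refine ⟨min (1 / 2) (δ / (80 * C2)), lt_min (by norm_num) (by positivity),
      lt_of_le_of_lt (min_le_left _ _) (by norm_num), ?_⟩
    have h1 : min (1 / 2) (δ / (80 * C2)) ≤ δ / (80 * C2) := min_le_right _ _
    have h2 : 2 * C2 * min (1 / 2) (δ / (80 * C2)) ≤ 2 * C2 * (δ / (80 * C2)) :=
      mul_le_mul_of_nonneg_left h1 (by positivity)
    have h3 : 2 * C2 * (δ / (80 * C2)) = δ / 40 := by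
      field_simp
      norm_num
    linarith
  obtain ⟨w, hw1, hw2⟩ : ∃ w : ℝ, 1 ≤ w ∧ 2 * C1 * (1 / w) ≤ δ / 40 := by
    refine ⟨max 1 (80 * C1 / δ), le_max_left _ _, ?_⟩
    have h1 : 80 * C1 / δ ≤ max 1 (80 * C1 / δ) := le_max_right _ _
    have h0 : 0 < max 1 (80 * C1 / δ) := lt_of_lt_of_le one_pos (le_max_left _ _)
    rw [div_le_iff₀ hδ] at h1
    rw [mul_one_div, div_le_div_iff₀ h0 (by norm_num)]
    linarith
  obtain ⟨K, hK, P0, hP0, HW⟩ := hMer w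
  obtain ⟨T1, hT1, E⟩ := ev9 P0 η K hη
  have hK1 : 1 ≤ K := by omega
  obtain ⟨T2, hT2, HD⟩ := HD η κ K hη hη1 hκ0 hκ1 hK1
  obtain ⟨T3, hT3, HG⟩ := HG η κ c K hη hη1 hκ0 hκ1 hc0 hc1 hK1
  obtain ⟨T4, hT4, HS⟩ := hS a b ε η (δ / 5) ha hab hε hε1 hη hη1 (by positivity)
  obtain ⟨T5, hT5, HH⟩ := hH hRH a b ε η κ (δ / 5) K ha hab hε hε1 hη hη1 hκ0 hκ1
    (by positivity) hK1
  obtain ⟨T6, hT6, HL⟩ := hL a ε η κ c (δ / 40) K ha hε hε1 hη hη1 hκ0 hκ1 hc0 hc1
    (by positivity) hK1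
  obtain ⟨T7, hT7, HM⟩ := hM a ε η κ (δ / 40) K ha hε hε1 hη hη1 hκ0 hκ1
    (by positivity) hK1
  refine ⟨3 * K + 4, max T1 (max T2 (max T3 (max T4 (max T5 (max T6 T7))))),
    lt_of_lt_of_le hT1 (le_max_left _ _), fun T h hT hh1 hh2 => ?_⟩
  simp only [max_le_iff] at hT
  obtain ⟨t1, t2, t3, t4, t5, t6, t7⟩ := hT
  obtain ⟨l4, pC, pM, pB, pC3, pM3, pB3, pCB, pMB, pT⟩ := E T t1
  have hT0 : 1 ≤ T := by linarith
  have hh0 : 1 ≤ h := (one_le_pow₀ (by linarith)).trans hh1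
  have wC : w ≤ Wb (PC T) κ K := Wb_ge (by linarith) hκ0 (HW _ pC)
  have wM : w ≤ Wb (PM T) κ K := Wb_ge (by linarith) hκ0 (HW _ pM)
  have wB : w ≤ Wb (PB T) κ K := Wb_ge (by linarith) hκ0 (HW _ pB)
  have qB : QE (PB T) κ K ≤ T ^ (η / 8) := (QE_le (by linarith) hκ0 (by linarith)).trans pT
  have qC : QE (PC T) κ K ≤ T ^ (η / 8) := by
    refine (QE_le (by linarith) hκ0 (by linarith)).trans (le_trans ?_ pT)
    exact mul_le_mul_of_nonneg_left (pow_le_pow_left₀ (by linarith) pCB _) (by norm_num)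
  have qM : QE (PM T) κ K ≤ T ^ (η / 8) := by
    refine (QE_le (by linarith) hκ0 (by linarith)).trans (le_trans ?_ pT)
    exact mul_le_mul_of_nonneg_left (pow_le_pow_left₀ (by linarith) pMB _) (by norm_num)
  have qh : QE (PC T) κ K ≤ h := by
    refine (QE_le (by linarith) hκ0 (by linarith)).trans (le_trans ?_ hh1)
    have h1 : PC T ^ (K + 1) =
        Real.log (Real.log (Real.log (Real.log T))) ^ (3 * K + 3) := by
      unfold PC
      rw [← pow_mul]
      congr 1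
    rw [h1, pow_succ _ (3 * K + 3), mul_comm]
    exact mul_le_mul_of_nonneg_left l4 (by positivity)
  have hL4 : 0 ≤ Real.log T ^ 4 := by positivity
  -- the value of DEC8
  have dec : ∀ P : ℝ, w ≤ Wb P κ K → C1 * (1 / Wb P κ K + κ) * Real.log T ^ 4 ≤
      δ / 40 * Real.log T ^ 4 := by
    intro P hP
    apply mul_le_mul_of_nonneg_right _ hL4
    have h1 : 1 / Wb P κ K ≤ 1 / w := one_div_le_one_div_of_le (by linarith) hP
    have h2 : C1 * (1 / Wb P κ K + κ) ≤ C1 * (1 / w + κ) :=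
      mul_le_mul_of_nonneg_left (by linarith) hC1.le
    linarith
  have DC := (HD T h (PC T) t2 hh0 hh2 (by linarith) qC (by linarith)).trans
    (ENNReal.ofReal_le_ofReal (dec _ wC))
  have DM := (HD T h (PM T) t2 hh0 hh2 (by linarith) qM (by linarith)).trans
    (ENNReal.ofReal_le_ofReal (dec _ wM))
  have DB := (HD T h (PB T) t2 hh0 hh2 (by linarith) qB (by linarith)).trans
    (ENNReal.ofReal_le_ofReal (dec _ wB))
  have GC := (HG T h (PC T) t3 (by linarith) qh hh2 (by linarith)).trans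
    (ENNReal.ofReal_le_ofReal (show C2 * c * Real.log T ^ 4 ≤ δ / 40 * Real.log T ^ 4 from
      mul_le_mul_of_nonneg_right (by linarith [mul_pos hC2 hc0]) hL4))
  have ML := HL T h t6 hh0 hh2 (by linarith)
  have MH := HM T h t7 hh0 hh2 (by linarith)
  have SA := HS T h t4 hh0 hh2
  have HA := HH T h t5 hh0 hh2
  have hx : 0 ≤ δ / 40 * Real.log T ^ 4 := by positivity
  have G2 := part (a := a) (b := b) _ hx hx DC GC
  have L2 := part (a := a) (b := b) _ hx hx DM ML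
  have M2 := part (a := a) (b := b) _ hx hx DB MH
  have hcov : (Set.univ : Set ℝ) ⊆
      ({t : ℝ | |t| ≤ T / Real.log T ^ 6} ∪
        {t : ℝ | T / Real.log T ^ 6 < |t| ∧
          ∃ v < nb (PB T) κ K, VB κ T v < ‖Qb (PB T) κ v t‖ ^ 2}) ∪
      (({t : ℝ | ∀ v < nb (PC T) κ K, ‖Qb (PC T) κ v t‖ ^ 2 ≤ VC c κ K (PC T)} ∪
        {t : ℝ | (∃ v < nb (PC T) κ K, VC c κ K (PC T) < ‖Qb (PC T) κ v t‖ ^ 2) ∧
          ∀ v < nb (PM T) κ K, ‖Qb (PM T) κ v t‖ ^ 2 ≤ VM κ T v}) ∪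
        {t : ℝ | (∃ v < nb (PM T) κ K, VM κ T v < ‖Qb (PM T) κ v t‖ ^ 2) ∧
          ∀ v < nb (PB T) κ K, ‖Qb (PB T) κ v t‖ ^ 2 ≤ VB κ T v}) := by
    intro t _
    by_cases h1 : |t| ≤ T / Real.log T ^ 6
    · exact Or.inl (Or.inl h1)
    · by_cases h2 : ∃ v < nb (PB T) κ K, VB κ T v < ‖Qb (PB T) κ v t‖ ^ 2
      · exact Or.inl (Or.inr ⟨not_le.1 h1, h2⟩)
      · push Not at h2
        by_cases h4 : ∃ v < nb (PM T) κ K, VM κ T v < ‖Qb (PM T) κ v t‖ ^ 2
        · exact Or.inr (Or.inr ⟨h4, h2⟩)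
        · push Not at h4
          by_cases h3 : ∀ v < nb (PC T) κ K, ‖Qb (PC T) κ v t‖ ^ 2 ≤ VC c κ K (PC T)
          · exact Or.inr (Or.inl (Or.inl h3))
          · push Not at h3
            exact Or.inr (Or.inl (Or.inr ⟨h3, h4⟩))
  rw [← setLIntegral_univ]
  refine (lintegral_mono_set hcov).trans ?_
  refine (lintegral_union_le _ _ _).trans ?_
  refine (add_le_add ((lintegral_union_le _ _ _).trans (add_le_add SA HA))
    ((lintegral_union_le _ _ _).trans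
      (add_le_add ((lintegral_union_le _ _ _).trans (add_le_add G2 L2)) M2))).trans ?_
  have y1 : 0 ≤ δ / 5 * Real.log T ^ 4 := by positivity
  rw [← ENNReal.ofReal_add y1 y1, ← ENNReal.ofReal_add (by positivity) (by positivity),
    ← ENNReal.ofReal_add (by positivity) (by positivity),
    ← ENNReal.ofReal_add (by positivity) (by positivity)]
  apply ENNReal.ofReal_le_ofReal
  nlinarith

end Pool.Agent.Lib.MP_6bc78b_nt.GP.H92M
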