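import Pool.Agent.Lib.MP_6bc78b_nt.GP.H92.Chb10q
import Pool.Agent.Lib.MP_6bc78b_nt.GP.H43.Defs10t

/-! Project GP10, row CHB10T: `B` of length `T^η`. -/

set_option autoImplicit false

open Complex Filter Topology MeasureTheory ArithmeticFunction Set
open scoped ENNReal

namespace Pool.Agent.Lib.MP_6bc78b_nt.GP.H92C

open Pool.Agent.Lib.MP_6bc78b_nt Pool.Agent.Lib.MP_6bc78b_nt.MS Pool.Agent.Lib.MP_6bc78b_nt.MS.P1
open Pool.Agent.Lib.MP_6bc78b_nt.GP.G7 Pool.Agent.Lib.MP_6bc78b_nt.GP.G10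

lemma mol_monoN {S : Finset ℕ} {β : ℕ → ℝ} {N N' ν : ℝ} (h : Mol S β N ν) (hN : N ≤ N') :
    Mol S β N' ν :=
  ⟨h.one_le, fun m hm => (h.le m hm).trans hN, h.nonneg, h.sum_one, h.sum_lcm⟩

/-- `√(l log l)` for `l = log log T`. -/
noncomputable def sx (T : ℝ) : ℝ :=
  Real.sqrt (Real.log (Real.log T) * Real.log (Real.log (Real.log T)))

lemma sx_tendsto : Tendsto sx atTop atTop := by
  have hlog : Tendsto Real.log atTop atTop := Real.tendsto_log_atTop
  exact Real.tendsto_sqrt_atTop.comp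
    ((hlog.comp hlog).atTop_mul_atTop₀ (hlog.comp (hlog.comp hlog)))

lemma sx_small (κ : ℝ) (hκ : 0 < κ) :
    ∀ᶠ T : ℝ in atTop, Real.exp (2 * sx T) ^ 2 ≤ κ * Real.log T := by
  have hlog : Tendsto Real.log atTop atTop := Real.tendsto_log_atTop
  have h1 : ∀ᶠ x : ℝ in atTop, ‖Real.log x‖ ≤ 1 / 64 * ‖id x‖ :=
    Real.isLittleO_log_id_atTop.bound (by norm_num)
  filter_upwards [(hlog.comp hlog).eventually h1, hlog.eventually_gt_atTop 0,
    (hlog.comp hlog).eventually_ge_atTop (max 1 (-2 * Real.log κ)),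
    (hlog.comp (hlog.comp hlog)).eventually_ge_atTop 0] with T k1 k2 k3 k4
  simp only [Function.comp_apply, id] at k1 k2 k3 k4
  have k5 : 1 ≤ Real.log (Real.log T) := (le_max_left _ _).trans k3
  have k6 : -2 * Real.log κ ≤ Real.log (Real.log T) := (le_max_right _ _).trans k3
  rw [Real.norm_of_nonneg k4, Real.norm_of_nonneg (by linarith)] at k1
  set l := Real.log (Real.log T) with hl
  have k7 : sx T ≤ l / 8 := by
    unfold sx
    rw [← hl, Real.sqrt_le_left (by linarith)]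
    have : l * Real.log l ≤ l * (1 / 64 * l) := mul_le_mul_of_nonneg_left k1 (by linarith)
    linarith
  calc Real.exp (2 * sx T) ^ 2 = Real.exp (4 * sx T) := by
        rw [← Real.exp_nat_mul]
        congr 1
        push_cast
        ring
    _ ≤ Real.exp (Real.log κ + l) := Real.exp_le_exp.2 (by linarith)
    _ = κ * Real.log T := by rw [Real.exp_add, Real.exp_log hκ, hl, Real.exp_log k2]

/-- CHB10T. -/
theorem chb10t (hdx : DX1Statement) (hscl : SCLTStatement) (herb : ERTStatement)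
    (hcon : CONTStatement) (hav : AVBStatement) (hmain : MAINTStatement) (hfar : FARTStatement)
    (hz : ZDTStatement) (hgam : GAMCStatement) : CHB10TStatement := by
  intro hRH ε hε
  obtain ⟨A, B, D, hD⟩ := hdx hRH
  obtain ⟨c, hc, hm0⟩ := hmain A B
  obtain ⟨lamM, hlamM, hm1⟩ := hm0 (ε / 4) (by positivity)
  obtain ⟨νE, η, hνE0, hνE1, hη0, hη1, he0⟩ := herb hRH A B D hD (ε * c / 16) (by positivity)
  obtain ⟨CF, TF, hCF, hTF, hcard⟩ := zt_card
  obtain ⟨CZ, TZ, hCZ, hTZ, hzd⟩ := hz hRH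
  obtain ⟨w, hw2, Ts, hTs, hs0⟩ := hscl νE η hνE0 hη0
  obtain ⟨lamE, hlamE, he1⟩ := he0 w hw2
  set lam : ℝ := max lamE lamM with hlamdef
  have hlam1 : 1 ≤ lam := hlamE.trans (le_max_left _ _)
  have hlam0 : 0 < lam := by linarith
  obtain ⟨TM, hTM, hm2⟩ := hm1 lam (le_max_right _ _)
  obtain ⟨TE, hTE, he2⟩ := he1 lam (le_max_left _ _)
  obtain ⟨Tc, hc0⟩ := eventually_atTop.1 (hcon hRH A B)
  obtain ⟨Tr, hTr, hf0⟩ := hfar hRH lam hlam1
  set Q : ℝ := CF * CZ * (48 / (ε * c)) ^ 2 with hQ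
  have hQ0 : 0 < Q := by positivity
  obtain ⟨Tg, hTg⟩ := eventually_atTop.1
    (sx_tendsto.eventually_ge_atTop (-Real.log (1 / (2 * Q)) / 2))
  have hlog : Tendsto Real.log atTop atTop := Real.tendsto_log_atTop
  obtain ⟨T5, h5⟩ := eventually_atTop.1 (hlog.eventually_ge_atTop
    (Real.exp 1 + lam + 10 * (16 / ε) / c + 10 * 8 / c))
  obtain ⟨T8, h8⟩ := eventually_atTop.1 (sx_small (1 / (2 * Q)) (by positivity))
  refine ⟨lam, max TF (max TZ (max Ts (max TM (max TE (max Tc (max Tr (max T5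
    (max Tg (max T8 (4 * lam)))))))))), hlam0, lt_max_of_lt_left hTF, fun T hT => ?_⟩
  have hTTF : TF ≤ T := (le_max_left _ _).trans hT
  have r1 := (le_max_right _ _).trans hT
  have hTTZ : TZ ≤ T := (le_max_left _ _).trans r1
  have r2 := (le_max_right _ _).trans r1
  have hTTs : Ts ≤ T := (le_max_left _ _).trans r2
  have r3 := (le_max_right _ _).trans r2
  have hTTM : TM ≤ T := (le_max_left _ _).trans r3
  have r4 := (le_max_right _ _).trans r3
  have hTTE : TE ≤ T := (le_max_left _ _).trans r4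
  have r5 := (le_max_right _ _).trans r4
  have hTTc : Tc ≤ T := (le_max_left _ _).trans r5
  have r6 := (le_max_right _ _).trans r5
  have hTTr : Tr ≤ T := (le_max_left _ _).trans r6
  have r7 := (le_max_right _ _).trans r6
  have hTT5 : T5 ≤ T := (le_max_left _ _).trans r7
  have r8 := (le_max_right _ _).trans r7
  have hTTg : Tg ≤ T := (le_max_left _ _).trans r8
  have r9 := (le_max_right _ _).trans r8
  have hTT8 : T8 ≤ T := (le_max_left _ _).trans r9
  have hTlam : 4 * lam ≤ T := (le_max_right _ _).trans r9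
  have hT10 : 10 < T := lt_of_lt_of_le hTF hTTF
  have hT0 : 0 < T := by linarith
  have hL5 := h5 T hTT5
  have hM : 0 < Real.exp (2 * sx T) := Real.exp_pos _
  have hQL := h8 T hTT8
  have p1 : 0 < 10 * (16 / ε) / c := by positivity
  have p2 : 0 < 10 * 8 / c := by positivity
  have p3 : 0 < Real.exp 1 := Real.exp_pos 1
  have hLe : Real.exp 1 ≤ Real.log T := by linarith
  have hLlam : lam ≤ Real.log T := by linarith
  have hL1 : 10 * (16 / ε) / c ≤ Real.log T := by linarith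
  have hL2 : 10 * 8 / c ≤ Real.log T := by linarith
  have hL0 : 0 < Real.log T := by linarith
  obtain ⟨K, S, β, S', β', hK1, hK2, hS, hsq0⟩ := hs0 T hTTs
  have hMol1 : Mol S β (T ^ (1 / 100 : ℝ)) 1 := mol_monoN (mol_mono hS.mol hνE1)
    (Real.rpow_le_rpow_of_exponent_le (by linarith) hη1)
  have hsq : Real.exp (2 * sx T) ^ 2 * ∑ m ∈ S, β m ^ 2 / m ≤ 1 / (2 * Q) := by
    have k1 := hTg T hTTg
    calc Real.exp (2 * sx T) ^ 2 * ∑ m ∈ S, β m ^ 2 / m ≤
          Real.exp (2 * sx T) ^ 2 * Real.exp (-(6 * sx T)) :=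
            mul_le_mul_of_nonneg_left hsq0 (by positivity)
      _ = Real.exp (-(2 * sx T)) := by
          rw [← Real.exp_nat_mul, ← Real.exp_add]
          congr 1
          push_cast
          ring
      _ ≤ Real.exp (Real.log (1 / (2 * Q))) := Real.exp_le_exp.2 (by linarith)
      _ = 1 / (2 * Q) := Real.exp_log (by positivity)
  obtain ⟨δ, ⟨hδ1, hδ2⟩, hδ⟩ := he2 T K S β S' β' hTTE hK1 hK2 hS
  have hM4 := hm2 T δ S β hTTM hδ1 hδ2 hMol1
  have hF4 := hf0 T S β hTTr hMol1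
  have hZ4 := hzd T S β hTTZ hMol1
  have hFm : ∀ γ ∈ (zt_fin hT0).toFinset, γ ∈ ZT T := fun γ hγ => by
    rwa [Set.Finite.mem_toFinset] at hγ
  have hcF := hcard T hTTF _ hFm
  set s : ℝ := ∑ m ∈ S, β m ^ 2 / m with hsd
  have hsumsq : ∑ γ ∈ (zt_fin hT0).toFinset, ‖pB S β (1 / 2 + γ * I)‖ ^ 2 ≤
      CZ * T * (Real.log T * s + 1) := by
    obtain ⟨-, -, hmz1, -, -, -, -⟩ := MS.P4.H30.zfac
    have e : ∑ᶠ γ ∈ {γ : ℝ | T / 2 < γ ∧ γ < 4 * T ∧ riemannZeta (1 / 2 + γ * I) = 0},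
        (mz γ : ℝ) * ‖pB S β (1 / 2 + γ * I)‖ ^ 2 =
        ∑ γ ∈ (zt_fin hT0).toFinset, (mz γ : ℝ) * ‖pB S β (1 / 2 + γ * I)‖ ^ 2 :=
      finsum_mem_eq_finite_toFinset_sum _ (zt_fin hT0)
    rw [e] at hZ4
    refine le_trans (Finset.sum_le_sum fun γ hγ => ?_) (hZ4.trans ?_)
    · have h1 : (1 : ℝ) ≤ (mz γ : ℝ) := by exact_mod_cast hmz1 γ (hFm γ hγ).2.2
      exact le_mul_of_one_le_left (by positivity) h1
    · refine mul_le_mul_of_nonneg_left ?_ (by positivity)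
      exact le_rfl
  have hPsq : (∑ γ ∈ (zt_fin hT0).toFinset, ‖pB S β (1 / 2 + γ * I)‖) ^ 2 ≤
      (CF * T * Real.log T) * (CZ * T * (Real.log T * s + 1)) := by
    have h1 : (∑ γ ∈ (zt_fin hT0).toFinset, ‖pB S β (1 / 2 + γ * I)‖) ^ 2 ≤
        (zt_fin hT0).toFinset.card *
          ∑ γ ∈ (zt_fin hT0).toFinset, ‖pB S β (1 / 2 + γ * I)‖ ^ 2 :=
      sq_sum_le_card_mul_sum_sq
    exact h1.trans (mul_le_mul hcF hsumsq (Finset.sum_nonneg fun γ _ => by positivity)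
      (by positivity))
  have hQM : CF * CZ * (48 * Real.exp (2 * sx T) / (ε * c)) ^ 2 = Q * Real.exp (2 * sx T) ^ 2 := by
    rw [hQ, div_pow, div_pow, mul_pow]
    ring
  have hPle : ∑ γ ∈ (zt_fin hT0).toFinset, ‖pB S β (1 / 2 + γ * I)‖ ≤
      T * Real.log T * (ε * c / (48 * Real.exp (2 * sx T))) := by
    have hg2 : 0 < Real.exp (2 * sx T) ^ 2 := by positivity
    refine num_p (Finset.sum_nonneg fun γ _ => norm_nonneg _) hT0 hL0 hCF hCZ hε hc hM hPsq
      ?_ ?_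
    · rw [hQM, le_div_iff₀ (by positivity)]
      have e1 : 2 * Q * (Real.exp (2 * sx T) ^ 2 * s) ≤ 2 * Q * (1 / (2 * Q)) :=
        mul_le_mul_of_nonneg_left hsq (by positivity)
      have e2 : 2 * Q * (1 / (2 * Q)) = 1 := by field_simp
      linarith
    · rw [hQM]
      have e1 : 2 * Q * Real.exp (2 * sx T) ^ 2 ≤ 2 * Q * (1 / (2 * Q) * Real.log T) :=
        mul_le_mul_of_nonneg_left hQL (by positivity)
      have e2 : 2 * Q * (1 / (2 * Q) * Real.log T) = Real.log T := by field_simp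
      linarith
  have h := core10 hgam hav hT10 hT0 hlam1 hTlam hLlam hLe hε hc hM hL1 hL2 S β hS.mol.one_le
    hδ1 hδ2 hδ (fun x hx1 hx2 =>
      hc0 T hTTc x δ lam S β hx1 hx2 hδ1 hδ2 hlam1 hLlam hMol1) hM4 hF4 hPle
  rw [mul_comm (Real.exp (2 * sx T)) (Real.log T)] at h
  exact h

end Pool.Agent.Lib.MP_6bc78b_nt.GP.H92C
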