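import Pool.Agent.Lib.MP_6bc78b_nt.GP.H92.Chb11
import Pool.Agent.Lib.MP_6bc78b_nt.GP.H43.Defs11t

/-! Project GP11, row CHB11T (from NEART, TSD, TSDL and FAM). -/

set_option autoImplicit false

open Complex Filter Topology MeasureTheory ArithmeticFunction Set
open scoped ENNReal

namespace Pool.Agent.Lib.MP_6bc78b_nt.GP.H92C

open Pool.Agent.Lib.MP_6bc78b_nt Pool.Agent.Lib.MP_6bc78b_nt.MS Pool.Agent.Lib.MP_6bc78b_nt.MS.P1
open Pool.Agent.Lib.MP_6bc78b_nt.GP.G7 Pool.Agent.Lib.MP_6bc78b_nt.GP.G10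
open Pool.Agent.Lib.MP_6bc78b_nt.GP.G11

/-- The sums over the zeros of one `T`. -/
theorem sums11t (htsd : TSDStatement) (hl : TSDLStatement) (hRH : RiemannHypothesis) : ∃ C : ℝ, 0 < C ∧
    ∀ (δ : ℝ) (n : ℕ) (Sf : Fin n → Finset ℕ) (af : Fin n → ℕ → ℂ), 0 < δ →
    (∀ i, ∀ m ∈ Sf i, 1 ≤ m) → ∑ i, Qf (Sf i) (af i) ≤ δ → ∃ T0 : ℝ, 10 < T0 ∧
    ∀ (T : ℝ) (S : Finset ℕ) (β : ℕ → ℝ) (S2 : Finset ℕ) (β2 : ℕ → ℂ) (F : Finset ℝ),
      T0 ≤ T → (∀ m ∈ S2, 1 ≤ m ∧ (m : ℝ) ≤ Real.exp (Real.log T ^ (2 / 5 : ℝ))) →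
      (∀ s : ℂ, cA S2 β2 s = pB S β s ^ 2) → Rf S2 β2 ≤ 2 →
      (∀ γ ∈ F, T / 2 < γ ∧ γ < 4 * T ∧ riemannZeta (1 / 2 + γ * I) = 0) →
      ∑ γ ∈ F, (‖deriv riemannZeta (1 / 2 + γ * I)‖ * ‖pB S β (1 / 2 + γ * I)‖) ^ 2 *
        Real.sqrt (∑ i, ‖cA (Sf i) (af i) (1 / 2 + γ * I)‖ ^ 2) ≤
        C * Real.sqrt δ * T * Real.log T ^ 4 := by
  obtain ⟨C, T1, hC, hT1, h⟩ := htsd hRH
  obtain ⟨C', T5, hC', hT5, h'⟩ := hl hRH
  refine ⟨4 * (C + C'), by positivity, fun δ n Sf af hδ hSf hQ => ?_⟩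
  set R : ℝ := ∑ i, Rf (Sf i) (af i) with hR
  have hR0 : 0 ≤ R := Finset.sum_nonneg fun i _ => rf_nonneg _ _
  -- the fixed polynomials are short
  have hlog : Tendsto Real.log atTop atTop := Real.tendsto_log_atTop
  have hlen : ∀ᶠ T : ℝ in atTop, ∀ i, ∀ m ∈ Sf i, (m : ℝ) ≤
      Real.exp (Real.log (Real.log T) ^ 6) := by
    have h1 : Tendsto (fun T : ℝ => Real.exp (Real.log (Real.log T) ^ 6)) atTop atTop :=
      Real.tendsto_exp_atTop.comp ((tendsto_pow_atTop (by norm_num)).comp (hlog.comp hlog))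
    rw [eventually_all]
    intro i
    rw [Finset.eventually_all]
    intro m _
    exact h1.eventually_ge_atTop _
  obtain ⟨T2, h2⟩ := eventually_atTop.1 hlen
  obtain ⟨T3, h3⟩ := eventually_atTop.1 (ll10 (δ / (R + 1)) (by positivity))
  obtain ⟨T4, h4⟩ := eventually_atTop.1 (ll10 1 one_pos)
  refine ⟨max T1 (max T2 (max T3 (max T4 T5))), lt_max_of_lt_left hT1,
    fun T S β S2 β2 F hT hS2 hsq hRf hF => ?_⟩
  have hTT1 : T1 ≤ T := (le_max_left _ _).trans hT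
  have r1 := (le_max_right _ _).trans hT
  have hTT2 : T2 ≤ T := (le_max_left _ _).trans r1
  have r2 := (le_max_right _ _).trans r1
  have hTT3 : T3 ≤ T := (le_max_left _ _).trans r2
  have r3 := (le_max_right _ _).trans r2
  have hTT4 : T4 ≤ T := (le_max_left _ _).trans r3
  have hTT5 : T5 ≤ T := (le_max_right _ _).trans r3
  have hT10 : 10 < T := by linarith
  have hT0 : 0 < T := by linarith
  set L := Real.log T with hL
  have hL0 : 0 < L := Real.log_pos (by linarith)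
  have hl3 := h3 T hTT3
  have hl4 := h4 T hTT4
  rw [one_mul] at hl4
  -- the first sum
  have s1 : ∑ γ ∈ F, ‖deriv riemannZeta (1 / 2 + γ * I)‖ ^ 2 *
      (‖pB S β (1 / 2 + γ * I)‖ ^ 2) ^ 2 ≤ 2 * C' * T * L ^ 4 := by
    have k1 := h' T S2 β2 hTT5 hS2 F hF
    have k2 : ∀ γ : ℝ, ‖cA S2 β2 (1 / 2 + γ * I)‖ ^ 2 = (‖pB S β (1 / 2 + γ * I)‖ ^ 2) ^ 2 :=
      fun γ => by rw [hsq, norm_pow]
    simp only [k2] at k1
    refine k1.trans ?_
    calc C' * T * (L ^ 4 * Rf S2 β2) ≤ C' * T * (L ^ 4 * 2) :=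
          mul_le_mul_of_nonneg_left (mul_le_mul_of_nonneg_left hRf (by positivity)) (by positivity)
      _ = 2 * C' * T * L ^ 4 := by ring
  -- the second sum
  have s2 : ∑ γ ∈ F, ‖deriv riemannZeta (1 / 2 + γ * I)‖ ^ 2 *
      ∑ i, ‖cA (Sf i) (af i) (1 / 2 + γ * I)‖ ^ 2 ≤ 2 * C * δ * T * L ^ 4 := by
    have k0 : ∑ γ ∈ F, ‖deriv riemannZeta (1 / 2 + γ * I)‖ ^ 2 *
        ∑ i, ‖cA (Sf i) (af i) (1 / 2 + γ * I)‖ ^ 2 = ∑ i, ∑ γ ∈ F,
          ‖deriv riemannZeta (1 / 2 + γ * I)‖ ^ 2 * ‖cA (Sf i) (af i) (1 / 2 + γ * I)‖ ^ 2 := by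
      rw [Finset.sum_comm]
      exact Finset.sum_congr rfl fun γ _ => Finset.mul_sum _ _ _
    rw [k0]
    have k1 : ∀ i, ∑ γ ∈ F, ‖deriv riemannZeta (1 / 2 + γ * I)‖ ^ 2 *
        ‖cA (Sf i) (af i) (1 / 2 + γ * I)‖ ^ 2 ≤
        C * T * (L ^ 4 * Qf (Sf i) (af i) + L ^ 3 * Real.log L ^ 10 * Rf (Sf i) (af i)) :=
      fun i => h T (Sf i) (af i) hTT1 (fun m hm => ⟨hSf i m hm, h2 T hTT2 i m hm⟩) F hF
    refine (Finset.sum_le_sum fun i _ => k1 i).trans ?_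
    rw [← Finset.mul_sum, Finset.sum_add_distrib, ← Finset.mul_sum, ← Finset.mul_sum]
    have k3 : L ^ 4 * ∑ i, Qf (Sf i) (af i) ≤ L ^ 4 * δ :=
      mul_le_mul_of_nonneg_left hQ (by positivity)
    have k4 : L ^ 3 * Real.log L ^ 10 * R ≤ L ^ 3 * (L * δ) := by
      rw [mul_assoc]
      refine mul_le_mul_of_nonneg_left ?_ (by positivity)
      calc Real.log L ^ 10 * R ≤ (δ / (R + 1) * L) * (R + 1) :=
            mul_le_mul hl3 (by linarith) hR0 (by positivity)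
        _ = L * δ := by field_simp
    calc C * T * (L ^ 4 * ∑ i, Qf (Sf i) (af i) + L ^ 3 * Real.log L ^ 10 * R) ≤
          C * T * (L ^ 4 * δ + L ^ 3 * (L * δ)) :=
            mul_le_mul_of_nonneg_left (add_le_add k3 k4) (by positivity)
      _ = 2 * C * δ * T * L ^ 4 := by ring
  have s3 := hold11 F (fun γ => ‖deriv riemannZeta (1 / 2 + γ * I)‖)
    (fun γ => ‖pB S β (1 / 2 + γ * I)‖)
    (fun γ => ∑ i, ‖cA (Sf i) (af i) (1 / 2 + γ * I)‖ ^ 2)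
    (fun γ => Finset.sum_nonneg fun i _ => by positivity) s1 s2
  refine s3.trans ?_
  rw [Real.sqrt_le_left (by positivity)]
  have k5 : Real.sqrt δ ^ 2 = δ := Real.sq_sqrt hδ.le
  have k6 : (4 * (C + C') * Real.sqrt δ * T * L ^ 4) ^ 2 =
      16 * (C + C') ^ 2 * (Real.sqrt δ ^ 2) * T ^ 2 * L ^ 8 := by
    ring
  rw [k6, k5]
  have k7 : 2 * C' * T * L ^ 4 * (2 * C * δ * T * L ^ 4) = 4 * (C * C') * (δ * T ^ 2 * L ^ 8) := by
    ring
  have k8 : 16 * (C + C') ^ 2 * δ * T ^ 2 * L ^ 8 = 16 * (C + C') ^ 2 * (δ * T ^ 2 * L ^ 8) := by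
    ring
  rw [k7, k8]
  refine mul_le_mul_of_nonneg_right ?_ (by positivity)
  nlinarith [mul_pos hC hC', sq_nonneg (C - C')]

/-- CHB11T. -/
theorem chb11t (hnear : NEARTStatement) (htsd : TSDStatement) (hl : TSDLStatement)
    (hfam : FAMStatement) : CHB11TStatement := by
  intro hRH ε hε
  obtain ⟨c, hc, hn⟩ := hnear hRH
  obtain ⟨C, hC, hsum⟩ := sums11t htsd hl hRH
  obtain ⟨lam, hlam, Tn, hTn, hn2⟩ := hn (ε / 3) (by positivity)
  refine ⟨lam, hlam, fun A hA => ?_⟩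
  have hlam0 : 0 < lam := by linarith
  set δ : ℝ := (ε * c ^ 2 / (6 * C * A)) ^ 2 with hδ
  have hδ0 : 0 < δ := by positivity
  obtain ⟨n, Sf, af, hS1, hS2, Tf, hTf, hf⟩ := hfam δ lam (ε / 3) hδ0 hlam (by positivity)
  obtain ⟨Ts, hTs, hs⟩ := hsum δ n Sf af hδ0 hS1 hS2
  refine ⟨max Tn (max Tf (max Ts (4 * lam))), lt_max_of_lt_left hTn, fun T hT => ?_⟩
  have hTTn : Tn ≤ T := (le_max_left _ _).trans hT
  have r1 := (le_max_right _ _).trans hT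
  have hTTf : Tf ≤ T := (le_max_left _ _).trans r1
  have r2 := (le_max_right _ _).trans r1
  have hTTs : Ts ≤ T := (le_max_left _ _).trans r2
  have hTlam : 4 * lam ≤ T := (le_max_right _ _).trans r2
  have hT0 : 0 < T := by linarith
  have hL0 : 0 < Real.log T := Real.log_pos (by linarith)
  obtain ⟨S, β, S2, β2, q1, q2, q3, q4⟩ := hn2 T hTTn
  have hX := hs T S β S2 β2 (zt_fin hT0).toFinset hTTs q1 q2 q3 fun γ hγ => by
    rw [Set.Finite.mem_toFinset] at hγ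
    exact hγ
  have hkey := key11 (m := thT T) (A := A) hT0 hlam hTlam hc hA hL0
    (by positivity : (0 : ℝ) < ε / 3) S β
    (fun u => ∑ i, ‖cA (Sf i) (af i) (1 / 2 + u * I)‖ ^ 2) q4 (hf T hTTf) hX ?_
  · refine hkey.trans (le_of_eq ?_)
    congr 1
    ring
  · rw [div_le_iff₀ (by positivity)]
    have e1 : Real.sqrt δ = ε * c ^ 2 / (6 * C * A) := by
      rw [hδ, Real.sqrt_sq (by positivity)]
    rw [e1]
    have e2 : 2 * lam * (C * (ε * c ^ 2 / (6 * C * A)) * T * Real.log T ^ 4) =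
        ε / 3 * T * (c ^ 2 * lam * Real.log T ^ 4 / A) := by
      field_simp
      norm_num
    have e3 : (c * lam * Real.log T ^ 2) ^ 2 / A = c ^ 2 * lam * Real.log T ^ 4 / A * lam := by
      ring
    rw [e2, e3]
    refine mul_le_mul_of_nonneg_left ?_ (by positivity)
    exact le_mul_of_one_le_right (by positivity) hlam

end Pool.Agent.Lib.MP_6bc78b_nt.GP.H92C
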