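import Pool.Agent.Lib.MP_6bc78b_nt.GP.H62.Defs7

/-! Project GP7, module HIGHX, part A: the primes and the cofactors are separated by hats. -/

set_option autoImplicit false

open Complex Filter Topology MeasureTheory Set

namespace Pool.Agent.Lib.MP_6bc78b_nt.GP.H92D

open Pool.Agent.Lib.MP_6bc78b_nt.MS Pool.Agent.Lib.MP_6bc78b_nt.MS.P1
  Pool.Agent.Lib.MP_6bc78b_nt.GP.G7

/-- The cofactors `A1 < x_j l ≤ A2`. -/
noncomputable def Ls (A1 A2 T : ℝ) (j : ℕ) : Finset ℕ :=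
  Finset.Ioc ⌊A1 / Real.exp (j / Real.log T)⌋₊ ⌊A2 / Real.exp (j / Real.log T)⌋₊

/-- The factor `Z_j`. -/
noncomputable def Zj (A1 A2 T : ℝ) (j : ℕ) (t : ℝ) : ℂ :=
  ∑ l ∈ Ls A1 A2 T j, (l : ℂ) ^ (-(1 + t * I : ℂ))

/-- The sum of the products. -/
noncomputable def Mj (η A1 A2 T t : ℝ) : ℂ := ∑ j ∈ js η T, Rj T j t * Zj A1 A2 T j t

theorem prod_eq (Ps Lf : Finset ℕ) (w : ℕ → ℝ) (N : ℕ) (s : ℂ) (hP : ∀ p ∈ Ps, p.Prime)
    (hL : ∀ l ∈ Lf, 0 < l) (hN : ∀ p ∈ Ps, w p ≠ 0 → ∀ l ∈ Lf, p * l ≤ N) :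
    (∑ p ∈ Ps, ((w p : ℝ) : ℂ) * (p : ℂ) ^ (-s)) * (∑ l ∈ Lf, (l : ℂ) ^ (-s)) =
      ∑ n ∈ Finset.Icc 1 N, ((∑ p ∈ n.primeFactors,
        (if p ∈ Ps ∧ n / p ∈ Lf then w p else 0) : ℝ) : ℂ) * (n : ℂ) ^ (-s) := by
  classical
  have h1 : ∑ p ∈ Ps, ((w p : ℝ) : ℂ) * (p : ℂ) ^ (-s) =
      ∑ p ∈ Ps.filter (fun p => w p ≠ 0), ((w p : ℝ) : ℂ) * (p : ℂ) ^ (-s) := by
    rw [Finset.sum_filter]
    refine Finset.sum_congr rfl fun p _ => ?_
    by_cases h : w p = 0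
    · simp [h]
    · simp [h]
  rw [h1, Finset.sum_mul_sum, ← Finset.sum_product']
  have h2 : ∀ n ∈ Finset.Icc 1 N, ((∑ p ∈ n.primeFactors,
      (if p ∈ Ps ∧ n / p ∈ Lf then w p else 0) : ℝ) : ℂ) * (n : ℂ) ^ (-s) =
      ∑ p ∈ n.primeFactors.filter (fun p => p ∈ Ps.filter (fun p => w p ≠ 0) ∧ n / p ∈ Lf),
        ((w p : ℝ) : ℂ) * (n : ℂ) ^ (-s) := by
    intro n _
    rw [Finset.sum_filter, Complex.ofReal_sum, Finset.sum_mul]
    refine Finset.sum_congr rfl fun p _ => ?_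
    by_cases h : w p = 0
    · simp [h]
    · by_cases h' : p ∈ Ps ∧ n / p ∈ Lf
      · have : p ∈ Ps.filter (fun p => w p ≠ 0) ∧ n / p ∈ Lf :=
          ⟨Finset.mem_filter.2 ⟨h'.1, h⟩, h'.2⟩
        rw [if_pos h', if_pos this]
      · have : ¬ (p ∈ Ps.filter (fun p => w p ≠ 0) ∧ n / p ∈ Lf) := by
          rintro ⟨h3, h4⟩
          exact h' ⟨(Finset.mem_filter.1 h3).1, h4⟩
        rw [if_neg h', if_neg this]
        simp
  rw [Finset.sum_congr rfl h2, Finset.sum_sigma']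
  refine Finset.sum_nbij' (fun x => ⟨x.1 * x.2, x.1⟩) (fun y => (y.2, y.1 / y.2)) ?_ ?_ ?_ ?_ ?_
  · rintro ⟨p, l⟩ hx
    rw [Finset.mem_product, Finset.mem_filter] at hx
    obtain ⟨⟨hp, hw⟩, hl⟩ := hx
    have hpp := hP p hp
    have hl0 := hL l hl
    rw [Finset.mem_sigma, Finset.mem_filter, Finset.mem_Icc, Nat.mem_primeFactors,
      Finset.mem_filter]
    simp only
    refine ⟨⟨Nat.mul_pos hpp.pos hl0, hN p hp hw l hl⟩, ⟨hpp, dvd_mul_right _ _,
      (Nat.mul_pos hpp.pos hl0).ne'⟩, ⟨hp, hw⟩, ?_⟩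
    rw [Nat.mul_div_cancel_left _ hpp.pos]
    exact hl
  · rintro ⟨n, p⟩ hy
    rw [Finset.mem_sigma, Finset.mem_filter] at hy
    rw [Finset.mem_product]
    exact ⟨hy.2.2.1, hy.2.2.2⟩
  · rintro ⟨p, l⟩ hx
    rw [Finset.mem_product, Finset.mem_filter] at hx
    have hpp := hP p hx.1.1
    simp only
    rw [Nat.mul_div_cancel_left _ hpp.pos]
  · rintro ⟨n, p⟩ hy
    rw [Finset.mem_sigma, Finset.mem_filter, Nat.mem_primeFactors] at hy
    simp only
    rw [Nat.mul_div_cancel' hy.2.1.2.1]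
  · rintro ⟨p, l⟩ hx
    simp only
    rw [mul_assoc, Nat.cast_mul, ← Complex.natCast_mul_natCast_cpow]

/-- A hat is zero off its support. -/
theorem hatw_support {θ v : ℝ} (hθ : 0 < θ) {j : ℕ} (h : hatw θ j v ≠ 0) :
    Real.exp (θ * (j - 1)) < v ∧ v < Real.exp (θ * (j + 1)) := by
  have hpos : 0 < hatw θ j v := lt_of_le_of_ne (le_max_left _ _) (Ne.symm h)
  rw [hatw, lt_max_iff] at hpos
  rcases hpos with hpos | hpos
  · exact absurd hpos (lt_irrefl _)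
  rw [lt_min_iff] at hpos
  have d1 : 0 < Real.exp (θ * j) - Real.exp (θ * (j - 1)) := by
    have : Real.exp (θ * (j - 1)) < Real.exp (θ * j) := Real.exp_lt_exp.2 (by nlinarith)
    linarith
  have d2 : 0 < Real.exp (θ * (j + 1)) - Real.exp (θ * j) := by
    have : Real.exp (θ * j) < Real.exp (θ * (j + 1)) := Real.exp_lt_exp.2 (by nlinarith)
    linarith
  constructor
  · have := (div_pos_iff_of_pos_right d1).1 hpos.1
    linarith
  · have := (div_pos_iff_of_pos_right d2).1 hpos.2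
    linarith

theorem hatw_nonneg (θ v : ℝ) (j : ℕ) : 0 ≤ hatw θ j v := le_max_left _ _

/-- `R_j Z_j` as a Dirichlet polynomial. -/
theorem RZ_eq {A1 A2 T : ℝ} (hT : 1 ≤ Real.log T) (hA2 : 0 ≤ A2) (j : ℕ)
    (N : ℕ) (hN : A2 * Real.exp (1 / Real.log T) ≤ N) (t : ℝ) :
    Rj T j t * Zj A1 A2 T j t = ∑ n ∈ Finset.Icc 1 N, ((∑ p ∈ n.primeFactors,
      (if n / p ∈ Ls A1 A2 T j then hatw (1 / Real.log T) j p * Real.log p ^ 2 else 0) : ℝ) : ℂ) *
        (n : ℂ) ^ (-(1 + t * I : ℂ)) := by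
  classical
  have hθ : 0 < 1 / Real.log T := by positivity
  unfold Rj Zj
  rw [prod_eq _ _ (fun p => hatw (1 / Real.log T) j p * Real.log p ^ 2) N (1 + t * I)
    (fun p hp => (Finset.mem_filter.1 hp).2)]
  · refine Finset.sum_congr rfl fun n _ => ?_
    congr 2
    refine Finset.sum_congr rfl fun p hp => ?_
    by_cases h : hatw (1 / Real.log T) j p = 0
    · simp only [h, zero_mul, ite_self]
    · have h1 := hatw_support hθ h
      have h2 : p ∈ (Finset.range (⌊Real.exp ((j + 1) / Real.log T)⌋₊ + 1)).filter Nat.Prime := by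
        rw [Finset.mem_filter, Finset.mem_range, Nat.lt_succ_iff]
        refine ⟨Nat.le_floor ?_, Nat.prime_of_mem_primeFactors hp⟩
        refine h1.2.le.trans (le_of_eq ?_)
        congr 1
        ring
      simp [h2]
  · intro l hl
    unfold Ls at hl
    rw [Finset.mem_Ioc] at hl
    omega
  · intro p hp hw l hl
    have hw' : hatw (1 / Real.log T) j p ≠ 0 := by
      intro h0
      exact hw (by rw [h0, zero_mul])
    have h1 := (hatw_support hθ hw').2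
    unfold Ls at hl
    rw [Finset.mem_Ioc] at hl
    have hx : 0 < Real.exp (j / Real.log T) := Real.exp_pos _
    have h2 : (l : ℝ) ≤ A2 / Real.exp (j / Real.log T) :=
      (Nat.le_floor_iff (by positivity)).1 hl.2
    have h3 : (l : ℝ) * Real.exp (j / Real.log T) ≤ A2 := by
      rwa [le_div_iff₀ hx] at h2
    have h4 : (p : ℝ) * l ≤ N := by
      calc (p : ℝ) * l ≤ Real.exp (1 / Real.log T * (j + 1)) * l := by gcongr
        _ = (l * Real.exp (j / Real.log T)) * Real.exp (1 / Real.log T) := by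
            rw [mul_assoc, ← Real.exp_add, mul_comm]
            congr 2
            ring
        _ ≤ A2 * Real.exp (1 / Real.log T) := by gcongr
        _ ≤ N := hN
    exact_mod_cast h4

/-- The coefficient of the difference. -/
noncomputable def dif (η A1 A2 T : ℝ) (n : ℕ) : ℝ :=
  ∑ j ∈ js η T, ∑ p ∈ n.primeFactors, hatw (1 / Real.log T) j p * Real.log p ^ 2 *
    ((if n ∈ Finset.Ioc ⌊A1⌋₊ ⌊A2⌋₊ then 1 else 0) - (if n / p ∈ Ls A1 A2 T j then 1 else 0))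

/-- The difference is a Dirichlet polynomial. -/
theorem dif_eq {η A1 A2 T : ℝ} (hT : 1 ≤ Real.log T) (hA2 : 0 ≤ A2)
    (N : ℕ) (hN : A2 * Real.exp (1 / Real.log T) ≤ N) (t : ℝ) :
    (∑ n ∈ Finset.Ioc ⌊A1⌋₊ ⌊A2⌋₊, (ff η T n : ℂ) * (n : ℂ) ^ (-(1 + t * I : ℂ))) -
      Mj η A1 A2 T t = DP (fun n => (dif η A1 A2 T n : ℂ)) N t := by
  classical
  have h1 : Finset.Ioc ⌊A1⌋₊ ⌊A2⌋₊ ⊆ Finset.Icc 1 N := by
    intro n hn
    rw [Finset.mem_Ioc] at hn
    rw [Finset.mem_Icc]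
    refine ⟨by omega, ?_⟩
    have h2 : (n : ℝ) ≤ A2 := (Nat.le_floor_iff hA2).1 hn.2
    have h3 : (n : ℝ) ≤ N := by
      refine h2.trans (le_trans ?_ hN)
      have : 1 ≤ Real.exp (1 / Real.log T) := Real.one_le_exp (by positivity)
      nlinarith
    exact_mod_cast h3
  have h2 : (∑ n ∈ Finset.Ioc ⌊A1⌋₊ ⌊A2⌋₊, (ff η T n : ℂ) * (n : ℂ) ^ (-(1 + t * I : ℂ))) =
      ∑ n ∈ Finset.Icc 1 N, (((∑ j ∈ js η T, ∑ p ∈ n.primeFactors,
        hatw (1 / Real.log T) j p * Real.log p ^ 2 *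
          (if n ∈ Finset.Ioc ⌊A1⌋₊ ⌊A2⌋₊ then 1 else 0)) : ℝ) : ℂ) *
            (n : ℂ) ^ (-(1 + t * I : ℂ)) := by
    rw [← Finset.sum_subset h1]
    · refine Finset.sum_congr rfl fun n hn => ?_
      simp only [hn, if_true, mul_one]
      rfl
    · intro n _ hn
      simp only [hn, if_false, mul_zero, Finset.sum_const_zero, Complex.ofReal_zero, zero_mul]
  have h3 : Mj η A1 A2 T t = ∑ n ∈ Finset.Icc 1 N, (((∑ j ∈ js η T, ∑ p ∈ n.primeFactors,
        hatw (1 / Real.log T) j p * Real.log p ^ 2 *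
          (if n / p ∈ Ls A1 A2 T j then 1 else 0)) : ℝ) : ℂ) *
            (n : ℂ) ^ (-(1 + t * I : ℂ)) := by
    unfold Mj
    rw [Finset.sum_congr rfl fun j _ => RZ_eq hT hA2 j N hN t, Finset.sum_comm]
    refine Finset.sum_congr rfl fun n _ => ?_
    rw [Complex.ofReal_sum, Finset.sum_mul]
    refine Finset.sum_congr rfl fun j _ => ?_
    congr 2
    refine Finset.sum_congr rfl fun p _ => ?_
    rw [mul_ite, mul_one, mul_zero]
  rw [h2, h3, ← Finset.sum_sub_distrib]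
  unfold DP dif
  refine Finset.sum_congr rfl fun n _ => ?_
  rw [← sub_mul, ← Complex.ofReal_sub, ← Finset.sum_sub_distrib]
  congr 2
  refine Finset.sum_congr rfl fun j _ => ?_
  rw [← Finset.sum_sub_distrib]
  refine Finset.sum_congr rfl fun p _ => ?_
  rw [mul_sub]

/-- The size of the coefficient. -/
theorem dif_le (η A1 A2 T : ℝ) (n : ℕ) : |dif η A1 A2 T n| ≤ ff η T n := by
  unfold dif ff fj
  refine (Finset.abs_sum_le_sum_abs _ _).trans (Finset.sum_le_sum fun j _ => ?_)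
  refine (Finset.abs_sum_le_sum_abs _ _).trans (Finset.sum_le_sum fun p _ => ?_)
  rw [abs_mul, abs_of_nonneg (mul_nonneg (hatw_nonneg _ _ _) (sq_nonneg _))]
  have h0 : 0 ≤ hatw (1 / Real.log T) j p * Real.log p ^ 2 :=
    mul_nonneg (hatw_nonneg _ _ _) (sq_nonneg _)
  have : |(if n ∈ Finset.Ioc ⌊A1⌋₊ ⌊A2⌋₊ then (1 : ℝ) else 0) -
      (if n / p ∈ Ls A1 A2 T j then 1 else 0)| ≤ 1 := by
    split_ifs <;> simp
  nlinarith

/-- The coefficient vanishes away from the ends. -/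
theorem dif_zero {η A1 A2 T : ℝ} (hT : 1 ≤ Real.log T) (hA1 : 0 ≤ A1) (hA2 : 0 ≤ A2) {n : ℕ}
    (h1 : (n : ℝ) < A1 * Real.exp (-(1 / Real.log T)) ∨ A1 * Real.exp (1 / Real.log T) < n)
    (h2 : (n : ℝ) < A2 * Real.exp (-(1 / Real.log T)) ∨ A2 * Real.exp (1 / Real.log T) < n) :
    dif η A1 A2 T n = 0 := by
  have hθ : 0 < 1 / Real.log T := by positivity
  unfold dif
  refine Finset.sum_eq_zero fun j _ => Finset.sum_eq_zero fun p hp => ?_
  by_cases hw : hatw (1 / Real.log T) j p = 0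
  · rw [hw, zero_mul, zero_mul]
  have hs := hatw_support hθ hw
  have hpp := Nat.prime_of_mem_primeFactors hp
  have hdvd := Nat.dvd_of_mem_primeFactors hp
  obtain ⟨l, rfl⟩ := hdvd
  have hn0 : p * l ≠ 0 := (Nat.mem_primeFactors.1 hp).2.2
  have hl0 : 0 < l := Nat.pos_of_ne_zero fun h => hn0 (by rw [h, mul_zero])
  have hlR : (0 : ℝ) < l := by exact_mod_cast hl0
  rw [Nat.mul_div_cancel_left _ hpp.pos]
  set x := Real.exp (j / Real.log T) with hx
  have hx0 : 0 < x := Real.exp_pos _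
  have e1 : Real.exp (1 / Real.log T * (j - 1)) = x * Real.exp (-(1 / Real.log T)) := by
    rw [hx, ← Real.exp_add]
    congr 1
    ring
  have e2 : Real.exp (1 / Real.log T * (j + 1)) = x * Real.exp (1 / Real.log T) := by
    rw [hx, ← Real.exp_add]
    congr 1
    ring
  rw [e1, e2] at hs
  have hE : Real.exp (-(1 / Real.log T)) * Real.exp (1 / Real.log T) = 1 := by
    rw [← Real.exp_add, neg_add_cancel, Real.exp_zero]
  have hE1 := Real.exp_pos (-(1 / Real.log T))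
  have hE2 := Real.exp_pos (1 / Real.log T)
  have hE3 : 1 ≤ Real.exp (1 / Real.log T) := Real.one_le_exp hθ.le
  have hE4 : Real.exp (-(1 / Real.log T)) ≤ 1 := Real.exp_le_one_iff.2 (by linarith)
  push_cast at h1 h2
  -- comparison of `p l` and `x l`
  have c1 : x * l * Real.exp (-(1 / Real.log T)) < p * l := by nlinarith
  have c2 : (p : ℝ) * l < x * l * Real.exp (1 / Real.log T) := by nlinarith
  have c3 : (p : ℝ) * l * Real.exp (-(1 / Real.log T)) < x * l := by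
    calc (p : ℝ) * l * Real.exp (-(1 / Real.log T)) <
        x * l * Real.exp (1 / Real.log T) * Real.exp (-(1 / Real.log T)) := by gcongr
      _ = x * l * (Real.exp (-(1 / Real.log T)) * Real.exp (1 / Real.log T)) := by ring
      _ = x * l := by rw [hE, mul_one]
  have c4 : x * l < (p : ℝ) * l * Real.exp (1 / Real.log T) := by
    calc x * l = x * l * (Real.exp (-(1 / Real.log T)) * Real.exp (1 / Real.log T)) := by
          rw [hE, mul_one]
      _ = x * l * Real.exp (-(1 / Real.log T)) * Real.exp (1 / Real.log T) := by ring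
      _ < (p : ℝ) * l * Real.exp (1 / Real.log T) := by gcongr
  -- the two thresholds
  have key : ∀ A : ℝ, 0 ≤ A →
      ((p : ℝ) * l < A * Real.exp (-(1 / Real.log T)) ∨ A * Real.exp (1 / Real.log T) < p * l) →
      (A < (p : ℝ) * l ↔ A < x * l) := by
    intro A hA h
    rcases h with h | h
    · have k1 : (p : ℝ) * l < A := by nlinarith
      have k2 : x * l < A := by
        calc x * l < (p : ℝ) * l * Real.exp (1 / Real.log T) := c4
          _ < A * Real.exp (-(1 / Real.log T)) * Real.exp (1 / Real.log T) := by gcongr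
          _ = A * (Real.exp (-(1 / Real.log T)) * Real.exp (1 / Real.log T)) := by ring
          _ = A := by rw [hE, mul_one]
      constructor <;> intro h' <;> linarith
    · have k1 : A < (p : ℝ) * l := by nlinarith
      have k2 : A < x * l := by
        calc A = A * (Real.exp (-(1 / Real.log T)) * Real.exp (1 / Real.log T)) := by
              rw [hE, mul_one]
          _ = A * Real.exp (1 / Real.log T) * Real.exp (-(1 / Real.log T)) := by ring
          _ < (p : ℝ) * l * Real.exp (-(1 / Real.log T)) := by gcongr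
          _ < x * l := c3
      constructor <;> intro _ <;> assumption
  have k1 := key A1 hA1 h1
  have k2 := key A2 hA2 h2
  have m1 : p * l ∈ Finset.Ioc ⌊A1⌋₊ ⌊A2⌋₊ ↔ (A1 < (p : ℝ) * l ∧ ¬ A2 < (p : ℝ) * l) := by
    rw [Finset.mem_Ioc, Nat.floor_lt hA1, Nat.le_floor_iff hA2]
    push_cast
    rw [not_lt]
  have m2 : l ∈ Ls A1 A2 T j ↔ (A1 < x * l ∧ ¬ A2 < x * l) := by
    unfold Ls
    rw [Finset.mem_Ioc, Nat.floor_lt (by positivity), Nat.le_floor_iff (by positivity), ← hx,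
      div_lt_iff₀ hx0, le_div_iff₀ hx0, not_lt, mul_comm x]
  have m3 : p * l ∈ Finset.Ioc ⌊A1⌋₊ ⌊A2⌋₊ ↔ l ∈ Ls A1 A2 T j := by
    rw [m1, m2, k1, k2]
  by_cases hm : l ∈ Ls A1 A2 T j
  · rw [if_pos (m3.2 hm), if_pos hm, sub_self, mul_zero]
  · rw [if_neg (fun h => hm (m3.1 h)), if_neg hm, sub_self, mul_zero]

/-- The sum over the integers near an end. -/
theorem near_sum {A L b D : ℝ} (hL : 1 ≤ L) (hA : L ≤ A) (_hb : 0 < b) (hD : 0 ≤ D)
    (hbA : 1 / b ≤ D * A) :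
    ∑ n ∈ Finset.Icc ⌈A * Real.exp (-(1 / L))⌉₊ ⌊A * Real.exp (1 / L)⌋₊, (1 / b + n) / (n : ℝ) ^ 2 ≤
      36 * (D + 3) / L := by
  have hL0 : 0 < L := by linarith
  have hA0 : 0 < A := by linarith
  have hθ0 : 0 < 1 / L := by positivity
  have hθ1 : 1 / L ≤ 1 := by rw [div_le_one hL0]; exact hL
  have u1 : Real.exp (1 / L) ≤ 1 + 2 * (1 / L) := by
    have := Real.abs_exp_sub_one_le (x := 1 / L) (by rw [abs_of_pos hθ0]; exact hθ1)
    rw [abs_of_pos hθ0] at this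
    linarith [(abs_le.1 this).2]
  have u2 : 1 - 1 / L ≤ Real.exp (-(1 / L)) := by
    have := Real.add_one_le_exp (-(1 / L))
    linarith
  have u3 : Real.exp (1 / L) ≤ 3 := by linarith
  have u4 : 1 / 3 ≤ Real.exp (-(1 / L)) := by
    rw [Real.exp_neg, one_div]
    exact inv_anti₀ (Real.exp_pos _) u3
  have hterm : ∀ n ∈ Finset.Icc ⌈A * Real.exp (-(1 / L))⌉₊ ⌊A * Real.exp (1 / L)⌋₊,
      (1 / b + n) / (n : ℝ) ^ 2 ≤ 9 * (D + 3) / A := by
    intro n hn
    rw [Finset.mem_Icc] at hn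
    have h1 : A * Real.exp (-(1 / L)) ≤ n := Nat.ceil_le.1 hn.1
    have h2 : (n : ℝ) ≤ A * Real.exp (1 / L) := (Nat.le_floor_iff (by positivity)).1 hn.2
    have h3 : A / 3 ≤ n := by nlinarith
    have h4 : (n : ℝ) ≤ 3 * A := by nlinarith
    have hn0 : (0 : ℝ) < n := by linarith
    rw [div_le_div_iff₀ (by positivity) hA0]
    have h5 : 1 / b + n ≤ (D + 3) * A := by nlinarith
    have h6 : A ^ 2 ≤ 9 * (n : ℝ) ^ 2 := by nlinarith
    calc (1 / b + n) * A ≤ (D + 3) * A * A := by gcongr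
      _ = (D + 3) * A ^ 2 := by ring
      _ ≤ (D + 3) * (9 * (n : ℝ) ^ 2) := by gcongr
      _ = 9 * (D + 3) * (n : ℝ) ^ 2 := by ring
  have hcard : (((Finset.Icc ⌈A * Real.exp (-(1 / L))⌉₊ ⌊A * Real.exp (1 / L)⌋₊).card : ℕ) : ℝ) ≤
      4 * A / L := by
    rw [Nat.card_Icc]
    rcases le_or_gt ⌈A * Real.exp (-(1 / L))⌉₊ (⌊A * Real.exp (1 / L)⌋₊ + 1) with h | h
    · rw [Nat.cast_sub h]
      push_cast
      have h1 : (⌊A * Real.exp (1 / L)⌋₊ : ℝ) ≤ A * Real.exp (1 / L) :=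
        Nat.floor_le (by positivity)
      have h2 : A * Real.exp (-(1 / L)) ≤ ⌈A * Real.exp (-(1 / L))⌉₊ := Nat.le_ceil _
      have h3 : A * Real.exp (1 / L) ≤ A * (1 + 2 * (1 / L)) := by gcongr
      have h4 : A * (1 - 1 / L) ≤ A * Real.exp (-(1 / L)) := by gcongr
      have h5 : 1 ≤ A / L := by rw [le_div_iff₀ hL0]; linarith
      have h6 : A * (1 + 2 * (1 / L)) - A * (1 - 1 / L) = 3 * (A / L) := by
        field_simp
        ring
      have h7 : 4 * A / L = 4 * (A / L) := by ring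
      rw [h7]
      linarith
    · rw [Nat.sub_eq_zero_of_le h.le]
      simp only [Nat.cast_zero]
      positivity
  calc ∑ n ∈ Finset.Icc ⌈A * Real.exp (-(1 / L))⌉₊ ⌊A * Real.exp (1 / L)⌋₊,
        (1 / b + n) / (n : ℝ) ^ 2 ≤
      ∑ _n ∈ Finset.Icc ⌈A * Real.exp (-(1 / L))⌉₊ ⌊A * Real.exp (1 / L)⌋₊, 9 * (D + 3) / A :=
        Finset.sum_le_sum hterm
    _ = (((Finset.Icc ⌈A * Real.exp (-(1 / L))⌉₊ ⌊A * Real.exp (1 / L)⌋₊).card : ℕ) : ℝ) *
          (9 * (D + 3) / A) := by rw [Finset.sum_const, nsmul_eq_mul]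
    _ ≤ 4 * A / L * (9 * (D + 3) / A) := by gcongr
    _ = 36 * (D + 3) / L := by
        field_simp
        ring

/-- The decoupling error. -/
theorem dec_bound (hM : MVTXStatement) (hB : BASXStatement) : ∃ C : ℝ, 0 < C ∧
    ∀ η T A1 A2 b D : ℝ, 3 ≤ T → 1 ≤ Real.log T → 0 < η → Real.log T ≤ A1 → A1 ≤ A2 →
      3 * A2 + 1 ≤ T ^ 2 → 0 < b → b ≤ 1 → 0 ≤ D → 1 / b ≤ D * A1 →
      ∫⁻ t : ℝ, ENNReal.ofReal (‖(∑ n ∈ Finset.Ioc ⌊A1⌋₊ ⌊A2⌋₊,
        (ff η T n : ℂ) * (n : ℂ) ^ (-(1 + t * I : ℂ))) - Mj η A1 A2 T t‖ ^ 2 *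
          Real.exp (-(b * |t|))) ≤ ENNReal.ofReal (C * (1 + D) * Real.log T ^ 3) := by
  classical
  obtain ⟨C0, hC0, hM⟩ := hM
  refine ⟨C0 * 3456, by positivity, fun η T A1 A2 b D hT hL hη hA1 hA12 hA2 hb hb1 hD hbD => ?_⟩
  set L := Real.log T with hLd
  have hL0 : 0 < L := by linarith
  have hA10 : 0 < A1 := by linarith
  have hA20 : 0 < A2 := by linarith
  have hθ0 : 0 < 1 / L := by positivity
  have hθ1 : 1 / L ≤ 1 := by rw [div_le_one hL0]; exact hL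
  have u1 : Real.exp (1 / L) ≤ 3 := by
    have := Real.abs_exp_sub_one_le (x := 1 / L) (by rw [abs_of_pos hθ0]; exact hθ1)
    rw [abs_of_pos hθ0] at this
    linarith [(abs_le.1 this).2]
  set N := ⌈A2 * Real.exp (1 / L)⌉₊ with hN
  have hN1 : A2 * Real.exp (1 / L) ≤ N := Nat.le_ceil _
  have hN2 : (N : ℝ) ≤ T ^ 2 := by
    have h1 : (N : ℝ) < A2 * Real.exp (1 / L) + 1 := Nat.ceil_lt_add_one (by positivity)
    have h2 : A2 * Real.exp (1 / L) ≤ A2 * 3 := by gcongr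
    linarith
  have h1 : ∀ t : ℝ, (∑ n ∈ Finset.Ioc ⌊A1⌋₊ ⌊A2⌋₊,
        (ff η T n : ℂ) * (n : ℂ) ^ (-(1 + t * I : ℂ))) - Mj η A1 A2 T t =
      DP (fun n => (dif η A1 A2 T n : ℂ)) N t := fun t => dif_eq hL hA20.le N hN1 t
  simp_rw [h1]
  refine (hM N _ b hb hb1).trans (ENNReal.ofReal_le_ofReal ?_)
  set S1 := Finset.Icc ⌈A1 * Real.exp (-(1 / L))⌉₊ ⌊A1 * Real.exp (1 / L)⌋₊ with hS1
  set S2 := Finset.Icc ⌈A2 * Real.exp (-(1 / L))⌉₊ ⌊A2 * Real.exp (1 / L)⌋₊ with hS2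
  -- each term
  have hterm : ∀ n ∈ Finset.Icc 1 N, (1 / b + n) * ‖((dif η A1 A2 T n : ℝ) : ℂ)‖ ^ 2 /
      (n : ℝ) ^ 2 ≤ 16 * L ^ 4 * ((if n ∈ S1 then (1 / b + n) / (n : ℝ) ^ 2 else 0) +
        (if n ∈ S2 then (1 / b + n) / (n : ℝ) ^ 2 else 0)) := by
    intro n hn
    rw [Finset.mem_Icc] at hn
    have hn1 : (1 : ℝ) ≤ n := by exact_mod_cast hn.1
    have hnN : (n : ℝ) ≤ N := by exact_mod_cast hn.2
    have q0 : 0 ≤ (1 / b + n) / (n : ℝ) ^ 2 := by positivity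
    have hi1 : 0 ≤ (if n ∈ S1 then (1 / b + n) / (n : ℝ) ^ 2 else 0) := by
      split_ifs
      · exact q0
      · exact le_refl _
    have hi2 : 0 ≤ (if n ∈ S2 then (1 / b + n) / (n : ℝ) ^ 2 else 0) := by
      split_ifs
      · exact q0
      · exact le_refl _
    by_cases hz : dif η A1 A2 T n = 0
    · rw [hz]
      simp only [Complex.ofReal_zero, norm_zero, ne_eq, OfNat.ofNat_ne_zero, not_false_eq_true,
        zero_pow, mul_zero, zero_div]
      positivity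
    · have hlog0 : 0 ≤ Real.log n := Real.log_nonneg hn1
      have hlog : Real.log n ≤ 2 * L := by
        calc Real.log n ≤ Real.log (T ^ 2) := Real.log_le_log (by linarith) (by linarith)
          _ = 2 * L := by rw [Real.log_pow]; push_cast; rfl
      have h2 : |dif η A1 A2 T n| ≤ 4 * L ^ 2 := by
        have k1 := dif_le η A1 A2 T n
        have k2 := (hB.2.2.1 η T n hT hη).2
        have k3 := (hB.2.1 n).2
        have k4 : Real.log n ^ 2 ≤ (2 * L) ^ 2 := by gcongr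
        nlinarith
      have h3 : ‖((dif η A1 A2 T n : ℝ) : ℂ)‖ ^ 2 ≤ 16 * L ^ 4 := by
        rw [Complex.norm_real, Real.norm_eq_abs]
        calc |dif η A1 A2 T n| ^ 2 ≤ (4 * L ^ 2) ^ 2 := by gcongr
          _ = 16 * L ^ 4 := by ring
      have h4 : n ∈ S1 ∨ n ∈ S2 := by
        by_contra hc
        rw [not_or] at hc
        apply hz
        have conv : ∀ A : ℝ, 0 < A → n ∉ Finset.Icc ⌈A * Real.exp (-(1 / L))⌉₊
            ⌊A * Real.exp (1 / L)⌋₊ → ((n : ℝ) < A * Real.exp (-(1 / L)) ∨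
              A * Real.exp (1 / L) < n) := by
          intro A hA h
          rw [Finset.mem_Icc, not_and_or, not_le, not_le] at h
          rcases h with h | h
          · exact Or.inl (Nat.lt_ceil.1 h)
          · exact Or.inr ((Nat.floor_lt (by positivity)).1 h)
        exact dif_zero hL hA10.le hA20.le (conv A1 hA10 hc.1) (conv A2 hA20 hc.2)
      have h5 : (1 / b + n) / (n : ℝ) ^ 2 ≤ (if n ∈ S1 then (1 / b + n) / (n : ℝ) ^ 2 else 0) +
          (if n ∈ S2 then (1 / b + n) / (n : ℝ) ^ 2 else 0) := by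
        rcases h4 with h4 | h4
        · rw [if_pos h4]
          linarith
        · rw [if_pos h4]
          linarith
      calc (1 / b + n) * ‖((dif η A1 A2 T n : ℝ) : ℂ)‖ ^ 2 / (n : ℝ) ^ 2 =
          ‖((dif η A1 A2 T n : ℝ) : ℂ)‖ ^ 2 * ((1 / b + n) / (n : ℝ) ^ 2) := by ring
        _ ≤ 16 * L ^ 4 * ((1 / b + n) / (n : ℝ) ^ 2) := by gcongr
        _ ≤ _ := by gcongr
  have hA2L : L ≤ A2 := hA1.trans hA12
  have hb2 : 1 / b ≤ D * A2 := hbD.trans (by gcongr)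
  have n1 := near_sum (A := A1) (L := L) (b := b) (D := D) hL hA1 hb hD hbD
  have n2 := near_sum (A := A2) (L := L) (b := b) (D := D) hL hA2L hb hD hb2
  have hsum : ∀ S : Finset ℕ, ∑ n ∈ Finset.Icc 1 N,
      (if n ∈ S then (1 / b + n) / (n : ℝ) ^ 2 else 0) ≤ ∑ n ∈ S, (1 / b + n) / (n : ℝ) ^ 2 := by
    intro S
    rw [← Finset.sum_filter]
    refine Finset.sum_le_sum_of_subset_of_nonneg ?_ fun n _ _ => by positivity
    intro n hn
    exact (Finset.mem_filter.1 hn).2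
  calc C0 * ∑ n ∈ Finset.Icc 1 N, (1 / b + n) * ‖((dif η A1 A2 T n : ℝ) : ℂ)‖ ^ 2 / (n : ℝ) ^ 2 ≤
      C0 * ∑ n ∈ Finset.Icc 1 N, 16 * L ^ 4 *
        ((if n ∈ S1 then (1 / b + n) / (n : ℝ) ^ 2 else 0) +
          (if n ∈ S2 then (1 / b + n) / (n : ℝ) ^ 2 else 0)) := by
        gcongr with n hn
        exact hterm n hn
    _ = C0 * (16 * L ^ 4 * (∑ n ∈ Finset.Icc 1 N,
          (if n ∈ S1 then (1 / b + n) / (n : ℝ) ^ 2 else 0) + ∑ n ∈ Finset.Icc 1 N,
            (if n ∈ S2 then (1 / b + n) / (n : ℝ) ^ 2 else 0))) := by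
        rw [← Finset.mul_sum, Finset.sum_add_distrib]
    _ ≤ C0 * (16 * L ^ 4 * (36 * (D + 3) / L + 36 * (D + 3) / L)) := by
        have a1 := (hsum S1).trans n1
        have a2 := (hsum S2).trans n2
        gcongr
    _ = C0 * 1152 * (D + 3) * L ^ 3 := by
        field_simp
        ring
    _ ≤ C0 * 3456 * (1 + D) * L ^ 3 := by
        have h3 : C0 * 1152 * (D + 3) ≤ C0 * 3456 * (1 + D) := by nlinarith
        gcongr

end Pool.Agent.Lib.MP_6bc78b_nt.GP.H92D
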