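import Pool.Agent.Lib.MP_6bc78b_nt.GP.H43.Defs10b
import Pool.Agent.Lib.MP_6bc78b_nt.GP.H91.Chb6a
import Pool.Agent.Lib.MP_6bc78b_nt.GP.H47.ConAux

/-! Project GP10, row CHB10: facts about iterated averages. -/

set_option autoImplicit false

open Complex Filter Topology MeasureTheory ArithmeticFunction Set
open scoped ENNReal

namespace Pool.Agent.Lib.MP_6bc78b_nt.GP.H92C

open Pool.Agent.Lib.MP_6bc78b_nt Pool.Agent.Lib.MP_6bc78b_nt.MS Pool.Agent.Lib.MP_6bc78b_nt.MS.P1
open Pool.Agent.Lib.MP_6bc78b_nt.GP.G7 Pool.Agent.Lib.MP_6bc78b_nt.GP.G10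

/-- The real average. -/
noncomputable def AR (w : ℝ) (f : ℝ → ℝ) (t : ℝ) : ℝ := (1 / (2 * w)) * ∫ x in (t - w)..(t + w), f x

lemma av_cont {w : ℝ} {f : ℝ → ℂ} (hf : Continuous f) : Continuous (Av w f) := by
  unfold Av
  have := H91K.win_cont hf (-w) w
  simp only [← sub_eq_add_neg] at this
  exact continuous_const.mul this

lemma ar_cont {w : ℝ} {f : ℝ → ℝ} (hf : Continuous f) : Continuous (AR w f) := by
  unfold AR
  have := H91K.win_cont hf (-w) w
  simp only [← sub_eq_add_neg] at this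
  exact continuous_const.mul this

lemma avn_cont {w : ℝ} (n : ℕ) {f : ℝ → ℂ} (hf : Continuous f) : Continuous ((Av w)^[n] f) := by
  induction n generalizing f with
  | zero => exact hf
  | succ n ih =>
    rw [Function.iterate_succ_apply]
    exact ih (av_cont hf)

lemma arn_cont {w : ℝ} (n : ℕ) {f : ℝ → ℝ} (hf : Continuous f) : Continuous ((AR w)^[n] f) := by
  induction n generalizing f with
  | zero => exact hf
  | succ n ih =>
    rw [Function.iterate_succ_apply]
    exact ih (ar_cont hf)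

lemma av_sub {w : ℝ} {f g : ℝ → ℂ} (hf : Continuous f) (hg : Continuous g) :
    Av w (fun x => f x - g x) = fun x => Av w f x - Av w g x := by
  funext t
  unfold Av
  rw [intervalIntegral.integral_sub (hf.intervalIntegrable _ _) (hg.intervalIntegrable _ _)]
  ring

lemma avn_sub {w : ℝ} (n : ℕ) {f g : ℝ → ℂ} (hf : Continuous f) (hg : Continuous g) (t : ℝ) :
    (Av w)^[n] (fun x => f x - g x) t = (Av w)^[n] f t - (Av w)^[n] g t := by
  induction n generalizing f g with
  | zero => rfl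
  | succ n ih =>
    rw [Function.iterate_succ_apply, Function.iterate_succ_apply, Function.iterate_succ_apply,
      av_sub hf hg, ih (av_cont hf) (av_cont hg)]

lemma av_sum {w : ℝ} {ι : Type*} (F : Finset ι) {f : ι → ℝ → ℂ} (hf : ∀ i, Continuous (f i)) :
    Av w (fun x => ∑ i ∈ F, f i x) = fun x => ∑ i ∈ F, Av w (f i) x := by
  funext t
  unfold Av
  rw [intervalIntegral.integral_finset_sum fun i _ => (hf i).intervalIntegrable _ _,
    Finset.mul_sum]

lemma avn_sum {w : ℝ} (n : ℕ) {ι : Type*} (F : Finset ι) {f : ι → ℝ → ℂ}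
    (hf : ∀ i, Continuous (f i)) (t : ℝ) :
    (Av w)^[n] (fun x => ∑ i ∈ F, f i x) t = ∑ i ∈ F, (Av w)^[n] (f i) t := by
  induction n generalizing f with
  | zero => rfl
  | succ n ih =>
    rw [Function.iterate_succ_apply, av_sum F hf, ih fun i => av_cont (hf i)]
    rfl

/-- Local bound. -/
lemma avn_le {w C : ℝ} (hw : 0 < w) (n : ℕ) {f : ℝ → ℂ} (hf : Continuous f) (t : ℝ)
    (h : ∀ x : ℝ, |x - t| ≤ n * w → ‖f x‖ ≤ C) : ‖(Av w)^[n] f t‖ ≤ C := by
  induction n generalizing f with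
  | zero => exact h t (by simp)
  | succ n ih =>
    rw [Function.iterate_succ_apply]
    refine ih (av_cont hf) fun x hx => ?_
    unfold Av
    have h1 : ‖∫ y in (x - w)..(x + w), f y‖ ≤ C * |x + w - (x - w)| := by
      refine intervalIntegral.norm_integral_le_of_norm_le_const fun y hy => h y ?_
      rw [uIoc_of_le (by linarith)] at hy
      have h2 := abs_le.1 hx
      push_cast
      rw [abs_le]
      constructor <;> nlinarith [hy.1, hy.2]
    have h3 : |x + w - (x - w)| = 2 * w := by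
      rw [show x + w - (x - w) = 2 * w by ring, abs_of_pos (by linarith)]
    rw [h3] at h1
    rw [norm_mul]
    have h4 : ‖(1 / (2 * (w : ℂ)))‖ = 1 / (2 * w) := by
      rw [show (1 / (2 * (w : ℂ))) = ((1 / (2 * w) : ℝ) : ℂ) by push_cast; ring,
        Complex.norm_real, Real.norm_of_nonneg (by positivity)]
    rw [h4]
    calc 1 / (2 * w) * ‖∫ y in (x - w)..(x + w), f y‖ ≤ 1 / (2 * w) * (C * (2 * w)) :=
          mul_le_mul_of_nonneg_left h1 (by positivity)
      _ = C := by field_simp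

lemma ar_nonneg {w : ℝ} (hw : 0 < w) {g : ℝ → ℝ} (hg : ∀ x, 0 ≤ g x) (t : ℝ) : 0 ≤ AR w g t := by
  unfold AR
  exact mul_nonneg (by positivity) (intervalIntegral.integral_nonneg (by linarith) fun x _ => hg x)

lemma arn_nonneg {w : ℝ} (hw : 0 < w) (n : ℕ) {g : ℝ → ℝ} (hg : ∀ x, 0 ≤ g x) (t : ℝ) :
    0 ≤ (AR w)^[n] g t := by
  induction n generalizing g with
  | zero => exact hg t
  | succ n ih =>
    rw [Function.iterate_succ_apply]
    exact ih (ar_nonneg hw hg)

/-- Comparison. -/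
lemma avn_le_arn {w : ℝ} (hw : 0 < w) (n : ℕ) {f : ℝ → ℂ} {g : ℝ → ℝ} (hf : Continuous f)
    (hg : Continuous g) (h : ∀ x, ‖f x‖ ≤ g x) (t : ℝ) : ‖(Av w)^[n] f t‖ ≤ (AR w)^[n] g t := by
  induction n generalizing f g with
  | zero => exact h t
  | succ n ih =>
    rw [Function.iterate_succ_apply, Function.iterate_succ_apply]
    refine ih (av_cont hf) (ar_cont hg) fun x => ?_
    unfold Av AR
    rw [norm_mul]
    have h4 : ‖(1 / (2 * (w : ℂ)))‖ = 1 / (2 * w) := by
      rw [show (1 / (2 * (w : ℂ))) = ((1 / (2 * w) : ℝ) : ℂ) by push_cast; ring,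
        Complex.norm_real, Real.norm_of_nonneg (by positivity)]
    rw [h4]
    refine mul_le_mul_of_nonneg_left ?_ (by positivity)
    exact intervalIntegral.norm_integral_le_of_norm_le (by linarith)
      (Eventually.of_forall fun y _ => h y) (hg.intervalIntegrable _ _)

/-- The averages keep the integral. -/
lemma ar_lint {w : ℝ} (hw : 0 < w) {g : ℝ → ℝ} (hgc : Continuous g) (hg : ∀ x, 0 ≤ g x) :
    ∫⁻ t : ℝ, ENNReal.ofReal (AR w g t) = ∫⁻ x : ℝ, ENNReal.ofReal (g x) := by
  have hms : MeasurableSet {p : ℝ × ℝ | p.1 - w < p.2 ∧ p.2 ≤ p.1 + w} :=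
    (measurableSet_lt (measurable_fst.sub measurable_const) measurable_snd).inter
      (measurableSet_le measurable_snd (measurable_fst.add measurable_const))
  let F : ℝ × ℝ → ℝ≥0∞ := {p : ℝ × ℝ | p.1 - w < p.2 ∧ p.2 ≤ p.1 + w}.indicator
    fun p => ENNReal.ofReal (g p.2)
  have hF : Measurable F := (hgc.measurable.comp measurable_snd).ennreal_ofReal.indicator hms
  have h1 : ∀ t : ℝ, ENNReal.ofReal (AR w g t) =
      ENNReal.ofReal (1 / (2 * w)) * ∫⁻ x : ℝ, F (t, x) := by
    intro t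
    unfold AR
    rw [ENNReal.ofReal_mul (by positivity), intervalIntegral.integral_of_le (by linarith),
      ofReal_integral_eq_lintegral_ofReal (hgc.integrableOn_Icc.mono_set Ioc_subset_Icc_self)
        (Eventually.of_forall hg), ← lintegral_indicator measurableSet_Ioc]
    congr 1
  have h2 : ∀ x : ℝ, ∫⁻ t : ℝ, F (t, x) = ENNReal.ofReal (2 * w) * ENNReal.ofReal (g x) := by
    intro x
    have e : (fun t : ℝ => F (t, x)) = (Ico (x - w) (x + w)).indicator
        fun _ => ENNReal.ofReal (g x) := by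
      funext t
      simp only [F, indicator_apply, mem_setOf_eq, mem_Ico]
      congr 1
      apply propext
      constructor
      · rintro ⟨h, h'⟩
        exact ⟨by linarith, by linarith⟩
      · rintro ⟨h, h'⟩
        exact ⟨by linarith, by linarith⟩
    rw [e, lintegral_indicator measurableSet_Ico, lintegral_const, Measure.restrict_apply_univ,
      Real.volume_Ico, mul_comm]
    congr 2
    ring
  simp only [h1]
  rw [lintegral_const_mul' _ _ ENNReal.ofReal_ne_top,
    lintegral_lintegral_swap (f := fun t x => F (t, x)) hF.aemeasurable]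
  simp only [h2]
  rw [lintegral_const_mul' _ _ ENNReal.ofReal_ne_top, ← mul_assoc,
    ← ENNReal.ofReal_mul (by positivity)]
  rw [show 1 / (2 * w) * (2 * w) = 1 by field_simp, ENNReal.ofReal_one, one_mul]

lemma arn_lint {w : ℝ} (hw : 0 < w) (n : ℕ) {g : ℝ → ℝ} (hgc : Continuous g)
    (hg : ∀ x, 0 ≤ g x) :
    ∫⁻ t : ℝ, ENNReal.ofReal ((AR w)^[n] g t) = ∫⁻ x : ℝ, ENNReal.ofReal (g x) := by
  induction n generalizing g with
  | zero => rfl
  | succ n ih =>
    rw [Function.iterate_succ_apply, ih (ar_cont hgc) (ar_nonneg hw hg), ar_lint hw hgc hg]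

/-- The Gaussian. -/
noncomputable def ga (H γ x : ℝ) : ℝ := Real.exp (-((γ - x) ^ 2 / (2 * H ^ 2)))

lemma ga_cont (H γ : ℝ) : Continuous (ga H γ) := by
  unfold ga
  fun_prop

lemma ga_lint {H : ℝ} (hH : 0 < H) (γ : ℝ) :
    ∫⁻ x : ℝ, ENNReal.ofReal (ga H γ x) = ENNReal.ofReal (H * Real.sqrt (2 * Real.pi)) := by
  have hb : 0 < 1 / (2 * H ^ 2) := by positivity
  have h0 : Integrable fun x : ℝ => Real.exp (-(1 / (2 * H ^ 2)) * x ^ 2) :=
    integrable_exp_neg_mul_sq hb
  have e : (fun x : ℝ => ga H γ x) = fun x : ℝ =>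
      (fun y : ℝ => Real.exp (-(1 / (2 * H ^ 2)) * y ^ 2)) (x - γ) := by
    funext x
    unfold ga
    congr 1
    ring
  rw [show (fun x : ℝ => ENNReal.ofReal (ga H γ x)) = fun x : ℝ => ENNReal.ofReal
      ((fun y : ℝ => Real.exp (-(1 / (2 * H ^ 2)) * y ^ 2)) (x - γ)) by
        funext x; rw [← congrFun e x],
    ← ofReal_integral_eq_lintegral_ofReal (h0.comp_sub_right γ)
      (Eventually.of_forall fun x => (Real.exp_pos _).le),
    integral_sub_right_eq_self (fun y : ℝ => Real.exp (-(1 / (2 * H ^ 2)) * y ^ 2)) γ,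
    integral_gaussian]
  congr 1
  rw [show Real.pi / (1 / (2 * H ^ 2)) = H ^ 2 * (2 * Real.pi) by field_simp,
    Real.sqrt_mul (sq_nonneg H), Real.sqrt_sq hH.le]

lemma norm_GHline (H t γ : ℝ) : ‖GH H t (1 / 2 + γ * I)‖ = ga H γ t := by
  rw [H47.norm_GH]
  unfold ga
  congr 1
  have h1 : ((1 / 2 : ℂ) + γ * I).re = 1 / 2 := by simp
  have h2 : ((1 / 2 : ℂ) + γ * I).im = γ := by simp
  rw [h1, h2]
  ring

end Pool.Agent.Lib.MP_6bc78b_nt.GP.H92C
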