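import Pool.Agent.Lib.MP_6bc78b_nt.GP.H92.Av8
import Pool.Agent.Lib.MP_6bc78b_nt.GP.H30.Tls

/-! Project GP10, row CHB10P: the measure of the centres without a simple zero with a large
derivative within `lam`. -/

set_option autoImplicit false

open Complex Filter Topology MeasureTheory ArithmeticFunction Set
open scoped ENNReal

namespace Pool.Agent.Lib.MP_6bc78b_nt.GP.H92C

open Pool.Agent.Lib.MP_6bc78b_nt Pool.Agent.Lib.MP_6bc78b_nt.MS Pool.Agent.Lib.MP_6bc78b_nt.MS.P1
open Pool.Agent.Lib.MP_6bc78b_nt.GP.G7 Pool.Agent.Lib.MP_6bc78b_nt.GP.G10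

lemma mol_mono {S : Finset ℕ} {β : ℕ → ℝ} {N ν ν' : ℝ} (h : Mol S β N ν) (hν : ν ≤ ν') :
    Mol S β N ν' :=
  ⟨h.one_le, h.le, h.nonneg, h.sum_one, h.sum_lcm.trans (by linarith)⟩

lemma scl_mono {w : ℝ} {K : ℕ} {S : Finset ℕ} {β : ℕ → ℝ} {S' : ℕ → Finset ℕ} {β' : ℕ → ℕ → ℝ}
    {N ν ν' : ℝ} (h : Scl w K S β S' β' N ν) (hν : ν ≤ ν') : Scl w K S β S' β' N ν' :=
  ⟨mol_mono h.mol hν, fun k hk => mol_mono (h.mol' k hk) hν, h.one_le, h.fac, h.sq.trans hν⟩

/-- `S_E` is continuous in the centre (no hypothesis: if the integrand is not integrable then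
`S_E` is zero). -/
lemma sb_cont (A B δ : ℝ) (w : ℝ → ℝ) (S : Finset ℕ) (β : ℕ → ℝ) : Continuous (G10.SB A B δ w S β) := by
  set f : ℝ → ℂ := fun u => ((w u * Real.exp (u / 2) : ℝ) : ℂ) * EM A B S β (zp u δ) with hf
  have hn : ∀ u t : ℝ, ‖Complex.exp (u * t * I)‖ = 1 := fun u t => by
    rw [Complex.norm_exp]
    simp
  have hc : ∀ t : ℝ, Continuous fun u : ℝ => Complex.exp (u * t * I) := fun t => by fun_prop
  by_cases h : Integrable f
  · refine continuous_of_dominated (bound := fun u => ‖f u‖) (fun t => ?_)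
      (fun t => Eventually.of_forall fun u => ?_) h.norm (Eventually.of_forall fun u => ?_)
    · exact h.aestronglyMeasurable.mul (hc t).aestronglyMeasurable
    · rw [norm_mul, hn, mul_one]
    · exact continuous_const.mul (by fun_prop)
  · have h0 : G10.SB A B δ w S β = fun _ => 0 := by
      funext t
      unfold G10.SB
      apply integral_undef
      intro hi
      apply h
      have h1 : Integrable fun u : ℝ => (f u * Complex.exp (u * t * I)) *
          Complex.exp (-(u * t * I)) := by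
        refine hi.mul_bdd (c := 1) (by fun_prop) (Eventually.of_forall fun u => ?_)
        rw [Complex.norm_exp]
        simp
      refine h1.congr (Eventually.of_forall fun u => ?_)
      show f u * Complex.exp (u * t * I) * Complex.exp (-(u * t * I)) = f u
      rw [mul_assoc, ← Complex.exp_add, add_neg_cancel, Complex.exp_zero, mul_one]
    rw [h0]
    exact continuous_const

lemma gh_cont (H : ℝ) (s : ℂ) : Continuous fun x : ℝ => GH H x s := by
  unfold GH
  fun_prop

lemma gh_cont2 (H x : ℝ) : Continuous fun y : ℝ => GH H x (-(1 / 2) + y * I) := by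
  unfold GH
  fun_prop

/-- The left line is continuous in the centre. -/
lemma il_cont (A B T δ H : ℝ) (S : Finset ℕ) (β : ℕ → ℝ) :
    Continuous fun x : ℝ => ILG A B T δ (fun s => pB S β s * GH H x s) := by
  unfold ILG
  refine continuous_const.mul ?_
  set F : ℝ → ℂ := fun y => DF A B (-(1 / 2) + y * I) * om0 δ (-(1 / 2) + y * I) *
    pB S β (-(1 / 2) + y * I) with hF
  have e : ∀ x y : ℝ, DF A B (-(1 / 2) + y * I) * om0 δ (-(1 / 2) + y * I) *
      (pB S β (-(1 / 2) + y * I) * GH H x (-(1 / 2) + y * I)) =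
      F y * GH H x (-(1 / 2) + y * I) := fun x y => by
    rw [hF]
    ring
  simp only [e]
  by_cases h : IntervalIntegrable F volume (T / 2) (4 * T)
  · refine intervalIntegral.continuous_of_dominated_interval
      (bound := fun y => ‖F y‖ * Real.exp (1 / (2 * H ^ 2))) (fun x => ?_)
      (fun x => Eventually.of_forall fun y _ => ?_) (h.norm.mul_const _)
      (Eventually.of_forall fun y _ => continuous_const.mul (gh_cont H _))
    · exact h.def'.aestronglyMeasurable.mul (gh_cont2 H x).aestronglyMeasurable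
    · rw [norm_mul]
      refine mul_le_mul_of_nonneg_left ?_ (norm_nonneg _)
      rw [H47.norm_GH]
      apply Real.exp_le_exp.2
      have h1 : ((-(1 / 2) : ℂ) + y * I).re = -(1 / 2) := by simp
      rw [h1]
      refine div_le_div_of_nonneg_right ?_ (by positivity)
      nlinarith [sq_nonneg (((-(1 / 2) : ℂ) + y * I).im - x)]
  · have h0 : ∀ x : ℝ, ∫ y in (T / 2)..(4 * T), F y * GH H x (-(1 / 2) + y * I) = 0 := by
      intro x
      apply intervalIntegral.integral_undef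
      intro hi
      apply h
      have h1 : IntervalIntegrable (fun y : ℝ => F y * GH H x (-(1 / 2) + y * I) *
          (GH H x (-(1 / 2) + y * I))⁻¹) volume (T / 2) (4 * T) := by
        refine hi.mul_continuousOn (Continuous.continuousOn ?_)
        exact (gh_cont2 H x).inv₀ fun y => Complex.exp_ne_zero _
      refine h1.congr fun y _ => ?_
      have : GH H x (-(1 / 2) + y * I) ≠ 0 := Complex.exp_ne_zero _
      show F y * GH H x (-(1 / 2) + y * I) * (GH H x (-(1 / 2) + y * I))⁻¹ = F y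
      rw [mul_assoc, mul_inv_cancel₀ this, mul_one]
    simp only [h0]
    exact continuous_const

/-- The zeros in `(T/2, 4T)`. -/
def ZT (T : ℝ) : Set ℝ := {γ : ℝ | T / 2 < γ ∧ γ < 4 * T ∧ riemannZeta (1 / 2 + γ * I) = 0}

lemma zt_fin {T : ℝ} (hT : 0 < T) : (ZT T).Finite := by
  obtain ⟨-, -, hmz1, -, hmz2, hfin, -⟩ := MS.P4.H30.zfac
  exact (hfin (4 * T)).subset fun γ hγ => ⟨by linarith [hγ.1], hγ.2.1.le, hγ.2.2⟩

/-- The number of zeros. -/
lemma zt_card : ∃ C T0 : ℝ, 0 < C ∧ 10 < T0 ∧ ∀ T : ℝ, T0 ≤ T → ∀ F : Finset ℝ,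
    (∀ γ ∈ F, γ ∈ ZT T) → (F.card : ℝ) ≤ C * T * Real.log T := by
  obtain ⟨-, -, hmz1, -, hmz2, hfin, -⟩ := MS.P4.H30.zfac
  obtain ⟨T1, hT1, h1⟩ := H30.zeros_count
  refine ⟨10 * Real.cosh (Real.pi / 2), T1, by have := Real.cosh_pos (Real.pi / 2); positivity,
    hT1, fun T hT F hF => ?_⟩
  have hc : 0 < Real.cosh (Real.pi / 2) := Real.cosh_pos _
  have hT10 : 10 < T := by linarith
  have h2 := h1 T hT F fun γ hγ => ⟨(hF γ hγ).1, (hF γ hγ).2.1⟩
  have h3 : (F.card : ℝ) ≤ ∑ γ ∈ F, (zeroMult γ : ℝ) := by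
    rw [Finset.card_eq_sum_ones, Nat.cast_sum]
    refine Finset.sum_le_sum fun γ hγ => ?_
    have := hmz1 γ (hF γ hγ).2.2
    rw [← MS.P4.H30.mz_eq]
    exact_mod_cast this
  have h4 : Real.log (4 * T + 1) ≤ 2 * Real.log T := by
    have e : 2 * Real.log T = Real.log (T ^ 2) := by rw [Real.log_pow]; norm_num
    rw [e]
    exact Real.log_le_log (by linarith) (by nlinarith)
  have h5 : 0 ≤ Real.log T := Real.log_nonneg (by linarith)
  calc (F.card : ℝ) ≤ (4 * T + 2) * (Real.cosh (Real.pi / 2) * Real.log (4 * T + 1)) := h3.trans h2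
    _ ≤ (5 * T) * (Real.cosh (Real.pi / 2) * (2 * Real.log T)) := by
        refine mul_le_mul (by linarith) (mul_le_mul_of_nonneg_left h4 hc.le)
          (mul_nonneg hc.le (Real.log_nonneg (by linarith))) (by linarith)
    _ = _ := by ring

/-- One term of the sum over the zeros. -/
noncomputable def fz (δ H : ℝ) (S : Finset ℕ) (β : ℕ → ℝ) (γ x : ℝ) : ℂ :=
  (mz γ : ℂ) * deriv riemannZeta (1 / 2 + γ * I) * om0 δ (1 / 2 + γ * I) *
    (pB S β (1 / 2 + γ * I) * GH H x (1 / 2 + γ * I))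

lemma fz_cont (δ H : ℝ) (S : Finset ℕ) (β : ℕ → ℝ) (γ : ℝ) : Continuous (fz δ H S β γ) := by
  unfold fz
  exact continuous_const.mul (continuous_const.mul (gh_cont H _))

lemma fz_le (hG : GAMCStatement) {T δ : ℝ} (hT : 0 < T) (hδ : 0 ≤ δ) (H : ℝ) (S : Finset ℕ)
    (β : ℕ → ℝ) {γ : ℝ} (hγ : γ ∈ ZT T) (x : ℝ) : ‖fz δ H S β γ x‖ ≤
      (if mz γ = 1 then ‖deriv riemannZeta (1 / 2 + γ * I)‖ else 0) *
        ‖pB S β (1 / 2 + γ * I)‖ * ga H γ x := by
  obtain ⟨-, -, hmz1, -, hmz2, hfin, -⟩ := MS.P4.H30.zfac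
  obtain ⟨h1, h2, h3⟩ := hγ
  have hga : 0 ≤ ga H γ x := (Real.exp_pos _).le
  unfold fz
  by_cases hm : 2 ≤ mz γ
  · rw [hmz2 γ hm]
    split_ifs
    · simp only [mul_zero, zero_mul, norm_zero]
      positivity
    · simp
  · have hm1 : mz γ = 1 := le_antisymm (by omega) (hmz1 γ h3)
    have hγ0 : 0 ≤ γ := by linarith
    have e1 : ‖om0 δ (1 / 2 + γ * I)‖ ≤ 1 := hG.1 δ γ hδ hγ0
    rw [if_pos hm1, norm_mul, norm_mul, norm_mul, norm_mul, Complex.norm_natCast, hm1,
      Nat.cast_one, one_mul, norm_GHline, ← mul_assoc]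
    refine mul_le_mul_of_nonneg_right ?_ hga
    exact mul_le_mul_of_nonneg_right (mul_le_of_le_one_right (norm_nonneg _) e1) (norm_nonneg _)

lemma ssg_eq {T : ℝ} (hT : 0 < T) (δ H : ℝ) (S : Finset ℕ) (β : ℕ → ℝ) (x : ℝ) :
    SSG T δ (fun s => pB S β s * GH H x s) =
      ∑ γ ∈ (zt_fin hT).toFinset, fz δ H S β γ x := by
  unfold SSG
  exact finsum_mem_eq_finite_toFinset_sum _ (zt_fin hT)

/-- The mass near `t`. -/
noncomputable def NS (F : Finset ℝ) (lam H : ℝ) (S : Finset ℕ) (β : ℕ → ℝ) (t : ℝ) : ℝ :=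
  ∑ γ ∈ F, ‖pB S β (1 / 2 + γ * I)‖ * (AR (lam / 16))^[8] (ga H γ) t

lemma sfb_eq {T : ℝ} (hT : 0 < T) (lam : ℝ) (S : Finset ℕ) (β : ℕ → ℝ) (t : ℝ) :
    SFB T lam S β t = ∑ γ ∈ (zt_fin hT).toFinset, if lam ≤ |γ - t| then
      ‖deriv riemannZeta (1 / 2 + γ * I)‖ * ‖pB S β (1 / 2 + γ * I)‖ *
        Real.exp (-((|γ - t| - lam / 2) ^ 2 / (2 * HH T lam ^ 2))) else 0 := by
  classical
  unfold SFB
  have hfin : {γ : ℝ | (T / 2 < γ ∧ γ < 4 * T ∧ riemannZeta (1 / 2 + γ * I) = 0) ∧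
      lam ≤ |γ - t|}.Finite := (zt_fin hT).subset fun γ hγ => hγ.1
  rw [finsum_mem_eq_finite_toFinset_sum _ hfin, ← Finset.sum_filter]
  refine Finset.sum_congr ?_ fun γ _ => rfl
  ext γ
  simp only [Set.Finite.mem_toFinset, Finset.mem_filter]
  rfl

/-- The averaged sum over the zeros. -/
lemma zeros_le (hG : GAMCStatement) {T δ lam M : ℝ} (hT : 0 < T) (hδ : 0 ≤ δ) (hlam : 0 < lam)
    (hM : 0 ≤ M) (S : Finset ℕ) (β : ℕ → ℝ) {t : ℝ}
    (ht : ∀ γ : ℝ, |γ - t| < lam → mz γ = 1 → ‖deriv riemannZeta (1 / 2 + γ * I)‖ < M) :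
    ‖(Av (lam / 16))^[8] (fun x => SSG T δ (fun s => pB S β s * GH (HH T lam) x s)) t‖ ≤
      SFB T lam S β t + M * NS (zt_fin hT).toFinset lam (HH T lam) S β t := by
  have hw : 0 < lam / 16 := by positivity
  have e : (fun x => SSG T δ (fun s => pB S β s * GH (HH T lam) x s)) =
      fun x => ∑ γ ∈ (zt_fin hT).toFinset, fz δ (HH T lam) S β γ x := by
    funext x
    exact ssg_eq hT δ _ S β x
  rw [e, avn_sum 8 _ fun γ => fz_cont δ _ S β γ, sfb_eq hT, NS, Finset.mul_sum,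
    ← Finset.sum_add_distrib]
  refine (norm_sum_le _ _).trans (Finset.sum_le_sum fun γ hγ => ?_)
  rw [Set.Finite.mem_toFinset] at hγ
  have hd : 0 ≤ ‖deriv riemannZeta (1 / 2 + γ * I)‖ := norm_nonneg _
  have hp : 0 ≤ ‖pB S β (1 / 2 + γ * I)‖ := norm_nonneg _
  have har : 0 ≤ (AR (lam / 16))^[8] (ga (HH T lam) γ) t :=
    arn_nonneg hw 8 (fun x => (Real.exp_pos _).le) t
  have hif : (if mz γ = 1 then ‖deriv riemannZeta (1 / 2 + γ * I)‖ else 0) ≤
      ‖deriv riemannZeta (1 / 2 + γ * I)‖ := by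
    split_ifs
    · exact le_rfl
    · exact hd
  by_cases hl : lam ≤ |γ - t|
  · rw [if_pos hl]
    refine le_trans ?_ (le_add_of_nonneg_right (by positivity))
    refine avn_le hw 8 (fz_cont δ _ S β γ) t fun x hx => ?_
    refine (fz_le hG hT hδ _ S β hγ x).trans ?_
    refine mul_le_mul (mul_le_mul_of_nonneg_right hif hp) ?_ (Real.exp_pos _).le (by positivity)
    unfold ga
    apply Real.exp_le_exp.2
    apply neg_le_neg
    refine div_le_div_of_nonneg_right ?_ (by positivity)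
    have h1 : |γ - t| - lam / 2 ≤ |γ - x| := by
      have h2 : |γ - t| ≤ |γ - x| + |x - t| := by
        have := abs_add_le (γ - x) (x - t)
        simpa using this
      push_cast at hx
      linarith
    rw [← sq_abs (γ - x)]
    exact pow_le_pow_left₀ (by linarith) h1 2
  · rw [if_neg hl, zero_add]
    push Not at hl
    by_cases hm : mz γ = 1
    · have h1 : ∀ x, ‖fz δ (HH T lam) S β γ x‖ ≤
          (M * ‖pB S β (1 / 2 + γ * I)‖) * ga (HH T lam) γ x := by
        intro x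
        refine (fz_le hG hT hδ _ S β hγ x).trans ?_
        rw [if_pos hm]
        exact mul_le_mul_of_nonneg_right (mul_le_mul_of_nonneg_right (ht γ hl hm).le hp)
          (Real.exp_pos _).le
      have h2 := avn_le_arn (g := fun x => (M * ‖pB S β (1 / 2 + γ * I)‖) * ga (HH T lam) γ x)
        hw 8 (fz_cont δ _ S β γ) (continuous_const.mul (ga_cont (HH T lam) γ)) h1 t
      refine h2.trans (le_of_eq ?_)
      have h3 : ∀ (n : ℕ) (c : ℝ) (g : ℝ → ℝ), (AR (lam / 16))^[n] (fun x => c * g x) =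
          fun x => c * (AR (lam / 16))^[n] g x := by
        intro n c
        induction n with
        | zero => intro g; rfl
        | succ n ih =>
          intro g
          rw [Function.iterate_succ_apply, Function.iterate_succ_apply, ← ih]
          congr 1
          funext x
          unfold AR
          rw [intervalIntegral.integral_const_mul]
          ring
      rw [h3]
      ring
    · have h1 : ∀ x, ‖fz δ (HH T lam) S β γ x‖ ≤ 0 := by
        intro x
        refine (fz_le hG hT hδ _ S β hγ x).trans ?_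
        rw [if_neg hm]
        simp
      refine (avn_le hw 8 (fz_cont δ _ S β γ) t fun x _ => h1 x).trans ?_
      positivity

/-- One centre. -/
lemma point10 (hG : GAMCStatement) (hav : AVBStatement) {A B T δ lam M : ℝ} (hT : 0 < T)
    (hδ : 0 < δ) (hδ2 : δ ≤ 1 / 2) (hlam : 0 < lam) (hlT : lam ≤ T / 4) (hH : 0 < HH T lam)
    (hM : 0 ≤ M) (S : Finset ℕ) (β : ℕ → ℝ) (hS : ∀ m ∈ S, 1 ≤ m)
    (hcon : ∀ x : ℝ, 3 / 4 * T ≤ x → x ≤ 3 * T →
      ‖G10.SB A B δ (gd (HH T lam)) S β x -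
        ILG A B T δ (fun s => pB S β s * GH (HH T lam) x s) -
        SSG T δ (fun s => pB S β s * GH (HH T lam) x s)‖ ≤ 1) {t : ℝ} (ht1 : T ≤ t)
    (ht2 : t ≤ 2 * T)
    (ht : ∀ γ : ℝ, |γ - t| < lam → mz γ = 1 → ‖deriv riemannZeta (1 / 2 + γ * I)‖ < M) :
    ‖(Av (lam / 16))^[8] (fun x =>
        ILG A B T δ (fun s => pB S β s * GH (HH T lam) x s)) t‖ ≤
      HH T lam / Real.sqrt (2 * Real.pi) * ‖G10.SB A B δ (wd lam (HH T lam)) S β t‖ +
        (SFB T lam S β t + M * NS (zt_fin hT).toFinset lam (HH T lam) S β t) + 1 := by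
  have hw : 0 < lam / 16 := by positivity
  have c1 := sb_cont A B δ (gd (HH T lam)) S β
  have c2 := il_cont A B T δ (HH T lam) S β
  have c3 : Continuous fun x => SSG T δ (fun s => pB S β s * GH (HH T lam) x s) := by
    simp only [ssg_eq hT]
    exact continuous_finsetSum _ fun γ _ => fz_cont δ _ S β γ
  have e1 := hav A B δ lam (HH T lam) t S β hδ hδ2 hlam hH hS
  have e2 := avn_sub (w := lam / 16) 8 c1 c2 t
  have c12 : Continuous fun x => G10.SB A B δ (gd (HH T lam)) S β x -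
      ILG A B T δ (fun s => pB S β s * GH (HH T lam) x s) := c1.sub c2
  have e3 := avn_sub (w := lam / 16) 8 c12 c3 t
  have e4 : ‖(Av (lam / 16))^[8] (fun x => (G10.SB A B δ (gd (HH T lam)) S β x -
        ILG A B T δ (fun s => pB S β s * GH (HH T lam) x s)) -
        SSG T δ (fun s => pB S β s * GH (HH T lam) x s)) t‖ ≤ 1 := by
    refine avn_le hw 8 (c12.sub c3) t fun x hx => ?_
    have h := abs_le.1 hx
    push_cast at h
    exact hcon x (by linarith) (by linarith)
  have e5 := zeros_le hG hT hδ.le hlam hM S β ht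
  rw [e3, e2, e1] at e4
  set X : ℂ := ((HH T lam / Real.sqrt (2 * Real.pi) : ℝ) : ℂ) *
    G10.SB A B δ (wd lam (HH T lam)) S β t with hX
  set Y : ℂ := (Av (lam / 16))^[8] (fun x =>
        ILG A B T δ (fun s => pB S β s * GH (HH T lam) x s)) t with hY
  set Z : ℂ := (Av (lam / 16))^[8] (fun x =>
        SSG T δ (fun s => pB S β s * GH (HH T lam) x s)) t with hZ
  have e6 : ‖X‖ = HH T lam / Real.sqrt (2 * Real.pi) * ‖G10.SB A B δ (wd lam (HH T lam)) S β t‖ := by
    rw [hX, norm_mul, Complex.norm_real, Real.norm_of_nonneg (by positivity)]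
  have e7 : Y = X - Z - (X - Y - Z) := by ring
  rw [e7, ← e6]
  calc ‖X - Z - (X - Y - Z)‖ ≤ ‖X - Z‖ + ‖X - Y - Z‖ := norm_sub_le _ _
    _ ≤ (‖X‖ + ‖Z‖) + 1 := add_le_add (norm_sub_le _ _) e4
    _ ≤ _ := by linarith

end Pool.Agent.Lib.MP_6bc78b_nt.GP.H92C
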