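import Pool.Agent.Lib.MP_6bc78b_nt.GP.H92.Chb10

/-! Project GP10, row CHB10P: the theorem. -/

set_option autoImplicit false

open Complex Filter Topology MeasureTheory ArithmeticFunction Set
open scoped ENNReal

namespace Pool.Agent.Lib.MP_6bc78b_nt.GP.H92C

open Pool.Agent.Lib.MP_6bc78b_nt Pool.Agent.Lib.MP_6bc78b_nt.MS Pool.Agent.Lib.MP_6bc78b_nt.MS.P1
open Pool.Agent.Lib.MP_6bc78b_nt.GP.G7 Pool.Agent.Lib.MP_6bc78b_nt.GP.G10

/-- Markov's inequality. -/
lemma mark10 {f : ℝ → ℝ} (hf : Measurable f) {a b m J : ℝ} (hm : 0 < m)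
    (hI : ∫⁻ t in Icc a b, ENNReal.ofReal (f t) ≤ ENNReal.ofReal J) :
    volume {t : ℝ | a ≤ t ∧ t ≤ b ∧ m ≤ f t} ≤ ENNReal.ofReal (J / m) := by
  have hms : MeasurableSet {t : ℝ | ENNReal.ofReal m ≤ ENNReal.ofReal (f t)} :=
    measurableSet_le measurable_const hf.ennreal_ofReal
  have h1 : volume {t : ℝ | a ≤ t ∧ t ≤ b ∧ m ≤ f t} ≤
      (volume.restrict (Icc a b)) {t : ℝ | ENNReal.ofReal m ≤ ENNReal.ofReal (f t)} := by
    rw [Measure.restrict_apply hms]
    refine measure_mono ?_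
    rintro t ⟨h1, h2, h3⟩
    exact ⟨ENNReal.ofReal_le_ofReal h3, h1, h2⟩
  have h2 := meas_ge_le_lintegral_div (μ := volume.restrict (Icc a b))
    (f := fun t => ENNReal.ofReal (f t)) hf.ennreal_ofReal.aemeasurable (ε := ENNReal.ofReal m)
    (by simpa using hm) ENNReal.ofReal_ne_top
  refine h1.trans (h2.trans ?_)
  rw [ENNReal.ofReal_div_of_pos hm]
  exact ENNReal.div_le_div_right hI _

lemma sfb_meas {T : ℝ} (hT : 0 < T) (lam : ℝ) (S : Finset ℕ) (β : ℕ → ℝ) :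
    Measurable (SFB T lam S β) := by
  have e : SFB T lam S β = fun t => ∑ γ ∈ (zt_fin hT).toFinset, if lam ≤ |γ - t| then
      ‖deriv riemannZeta (1 / 2 + γ * I)‖ * ‖pB S β (1 / 2 + γ * I)‖ *
        Real.exp (-((|γ - t| - lam / 2) ^ 2 / (2 * HH T lam ^ 2))) else 0 := by
    funext t
    exact sfb_eq hT lam S β t
  rw [e]
  refine Finset.measurable_fun_sum _ fun γ _ => ?_
  have hs : MeasurableSet {t : ℝ | lam ≤ |γ - t|} :=
    measurableSet_le measurable_const (by fun_prop)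
  exact Measurable.ite hs (by fun_prop) measurable_const

lemma ga_nonneg (H γ x : ℝ) : 0 ≤ ga H γ x := (Real.exp_pos _).le

lemma num_hl {lam L q : ℝ} (hlam1 : 1 ≤ lam) (hL0 : 0 < L) (hq0 : 0 < q) (hqL : q ≤ L) :
    L / 10 ≤ lam / (10 * q) * L ^ 2 := by
  rw [div_mul_eq_mul_div, div_le_div_iff₀ (by norm_num) (by positivity)]
  calc L * (10 * q) ≤ L * (10 * L) := mul_le_mul_of_nonneg_left (by linarith) hL0.le
    _ = 1 * L ^ 2 * 10 := by ring
    _ ≤ lam * L ^ 2 * 10 := mul_le_mul_of_nonneg_right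
        (mul_le_mul_of_nonneg_right hlam1 (by positivity)) (by norm_num)

lemma num_a {c L X b : ℝ} (hc : 0 < c) (h : 10 * b / c ≤ L) (hX : L / 10 ≤ X) : b ≤ c * X := by
  have h1 : 10 * b / c * (c / 10) ≤ L * (c / 10) := mul_le_mul_of_nonneg_right h (by positivity)
  have h2 : 10 * b / c * (c / 10) = b := by field_simp
  have h3 : c * (L / 10) ≤ c * X := mul_le_mul_of_nonneg_left hX hc.le
  linarith

/-- The total mass near the centres. -/
lemma num_p {P T L ν CF CZ ε c M : ℝ} (_hP : 0 ≤ P) (hT : 0 < T) (hL : 0 < L) (hCF : 0 < CF)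
    (hCZ : 0 < CZ) (hε : 0 < ε) (hc : 0 < c) (hM : 0 < M)
    (h1 : P ^ 2 ≤ (CF * T * L) * (CZ * T * (L * ν + 1)))
    (h2 : ν ≤ 1 / (2 * (CF * CZ * (48 * M / (ε * c)) ^ 2)))
    (h3 : 2 * (CF * CZ * (48 * M / (ε * c)) ^ 2) ≤ L) : P ≤ T * L * (ε * c / (48 * M)) := by
  set Q := CF * CZ * (48 * M / (ε * c)) ^ 2 with hQ
  have hQ0 : 0 < Q := by positivity
  have h4 : L * ν + 1 ≤ L / Q := by
    have e1 : L * ν ≤ L * (1 / (2 * Q)) := mul_le_mul_of_nonneg_left h2 hL.le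
    have e2 : 1 ≤ L / (2 * Q) := by rwa [le_div_iff₀ (by positivity), one_mul]
    have e3 : L / Q = L * (1 / (2 * Q)) + L / (2 * Q) := by field_simp; norm_num
    linarith
  have h5 : (CF * T * L) * (CZ * T * (L * ν + 1)) ≤ (T * L * (ε * c / (48 * M))) ^ 2 := by
    calc (CF * T * L) * (CZ * T * (L * ν + 1)) ≤ (CF * T * L) * (CZ * T * (L / Q)) :=
          mul_le_mul_of_nonneg_left (mul_le_mul_of_nonneg_left h4 (by positivity)) (by positivity)
      _ = (T * L * (ε * c / (48 * M))) ^ 2 := by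
          rw [hQ]
          field_simp
  exact le_of_sq_le_sq (h1.trans h5) (by positivity)

lemma ns_cont (F : Finset ℝ) (lam H : ℝ) (S : Finset ℕ) (β : ℕ → ℝ) :
    Continuous (NS F lam H S β) := by
  unfold NS
  exact continuous_finsetSum _ fun γ _ => continuous_const.mul (arn_cont 8 (ga_cont H γ))

lemma ns_lint (F : Finset ℝ) {lam H : ℝ} (hlam : 0 < lam) (hH : 0 < H) (S : Finset ℕ)
    (β : ℕ → ℝ) : ∫⁻ t : ℝ, ENNReal.ofReal (NS F lam H S β t) =
      ENNReal.ofReal (H * Real.sqrt (2 * Real.pi) * ∑ γ ∈ F, ‖pB S β (1 / 2 + γ * I)‖) := by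
  have hw : 0 < lam / 16 := by positivity
  have h1 : ∀ t : ℝ, ENNReal.ofReal (NS F lam H S β t) = ∑ γ ∈ F,
      ENNReal.ofReal ‖pB S β (1 / 2 + γ * I)‖ *
        ENNReal.ofReal ((AR (lam / 16))^[8] (ga H γ) t) := by
    intro t
    unfold NS
    rw [ENNReal.ofReal_sum_of_nonneg fun γ _ => mul_nonneg (norm_nonneg _)
      (arn_nonneg hw 8 (ga_nonneg H γ) t)]
    exact Finset.sum_congr rfl fun γ _ => ENNReal.ofReal_mul (norm_nonneg _)
  simp only [h1]
  rw [lintegral_finsetSum _ fun γ _ =>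
    ((arn_cont 8 (ga_cont H γ)).measurable.ennreal_ofReal.const_mul _)]
  have h2 : ∀ γ ∈ F, ∫⁻ t : ℝ, ENNReal.ofReal ‖pB S β (1 / 2 + γ * I)‖ *
      ENNReal.ofReal ((AR (lam / 16))^[8] (ga H γ) t) =
      ENNReal.ofReal (H * Real.sqrt (2 * Real.pi) * ‖pB S β (1 / 2 + γ * I)‖) := by
    intro γ _
    rw [lintegral_const_mul' _ _ ENNReal.ofReal_ne_top,
      arn_lint hw 8 (ga_cont H γ) (ga_nonneg H γ), ga_lint hH,
      ← ENNReal.ofReal_mul (norm_nonneg _)]
    congr 1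
    ring
  rw [Finset.sum_congr rfl h2, ← ENNReal.ofReal_sum_of_nonneg fun γ _ => by positivity,
    Finset.mul_sum]

/-- CHB10P. -/
theorem chb10p (hdx : DX1Statement) (hscl : SCLBStatement) (herb : ERBStatement)
    (hcon : CONBStatement) (hav : AVBStatement) (hmain : MAINBStatement) (hfar : FARBStatement)
    (hz : ZDBStatement) (hgam : GAMCStatement) : CHB10PStatement := by
  intro hRH ε M hε hM
  obtain ⟨A, B, D, hD⟩ := hdx hRH
  obtain ⟨c, hc, hm0⟩ := hmain A B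
  obtain ⟨lamM, hlamM, hm1⟩ := hm0 (ε / 4) (by positivity)
  obtain ⟨νE, hνE0, hνE1, he0⟩ := herb hRH A B D hD (ε * c / 16) (by positivity)
  obtain ⟨CF, TF, hCF, hTF, hcard⟩ := zt_card
  obtain ⟨CZ, TZ, hCZ, hTZ, hzd⟩ := hz hRH
  set Q : ℝ := CF * CZ * (48 * M / (ε * c)) ^ 2 with hQ
  have hQ0 : 0 < Q := by positivity
  set ν : ℝ := min νE (1 / (2 * Q)) with hν
  have hν0 : 0 < ν := lt_min hνE0 (by positivity)
  have hνE : ν ≤ νE := min_le_left _ _
  have hνQ : ν ≤ 1 / (2 * Q) := min_le_right _ _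
  have hν1 : ν ≤ 1 := hνE.trans hνE1
  obtain ⟨w, hw2, Ts, hTs, hs0⟩ := hscl ν hν0
  obtain ⟨lamE, hlamE, he1⟩ := he0 w hw2
  set lam : ℝ := max lamE lamM with hlamdef
  have hlam1 : 1 ≤ lam := hlamE.trans (le_max_left _ _)
  have hlam0 : 0 < lam := by linarith
  obtain ⟨TM, hTM, hm2⟩ := hm1 lam (le_max_right _ _)
  obtain ⟨TE, hTE, he2⟩ := he1 lam (le_max_left _ _)
  obtain ⟨Tc, hc0⟩ := eventually_atTop.1 (hcon hRH A B)
  obtain ⟨Tr, hTr, hf0⟩ := hfar hRH lam hlam1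
  have hlog : Tendsto Real.log atTop atTop := Real.tendsto_log_atTop
  obtain ⟨T5, h5⟩ := eventually_atTop.1 (hlog.eventually_ge_atTop
    (Real.exp 1 + lam + 10 * (16 / ε) / c + 10 * 8 / c + 2 * Q))
  refine ⟨lam, max TF (max TZ (max Ts (max TM (max TE (max Tc (max Tr (max T5 (4 * lam)))))))),
    hlam0, lt_max_of_lt_left hTF, fun T hT => ?_⟩
  have hTTF : TF ≤ T := (le_max_left _ _).trans hT
  have r1 := (le_max_right _ _).trans hT
  have hTTZ : TZ ≤ T := (le_max_left _ _).trans r1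
  have r2 := (le_max_right _ _).trans r1
  have hTTs : Ts ≤ T := (le_max_left _ _).trans r2
  have r3 := (le_max_right _ _).trans r2
  have hTTM : TM ≤ T := (le_max_left _ _).trans r3
  have r4 := (le_max_right _ _).trans r3
  have hTTE : TE ≤ T := (le_max_left _ _).trans r4
  have r5 := (le_max_right _ _).trans r4
  have hTTc : Tc ≤ T := (le_max_left _ _).trans r5
  have r6 := (le_max_right _ _).trans r5
  have hTTr : Tr ≤ T := (le_max_left _ _).trans r6
  have r7 := (le_max_right _ _).trans r6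
  have hTT5 : T5 ≤ T := (le_max_left _ _).trans r7
  have hTlam : 4 * lam ≤ T := (le_max_right _ _).trans r7
  have hT10 : 10 < T := lt_of_lt_of_le hTF hTTF
  have hT0 : 0 < T := by linarith
  set L := Real.log T with hL
  have hL5 : Real.exp 1 + lam + 10 * (16 / ε) / c + 10 * 8 / c + 2 * Q ≤ L := h5 T hTT5
  have p1 : 0 < 10 * (16 / ε) / c := by positivity
  have p2 : 0 < 10 * 8 / c := by positivity
  have p3 : 0 < Real.exp 1 := Real.exp_pos 1
  have p4 : 1 < Real.exp 1 := by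
    have := Real.add_one_lt_exp (x := 1) (by norm_num)
    linarith
  have hLe : Real.exp 1 ≤ L := by linarith
  have hLlam : lam ≤ L := by linarith
  have hL1 : 10 * (16 / ε) / c ≤ L := by linarith
  have hL2 : 10 * 8 / c ≤ L := by linarith
  have hL3 : 2 * Q ≤ L := by linarith
  have hL0 : 0 < L := by linarith
  set l := Real.log L with hl
  have hl1 : 1 ≤ l := by
    rw [hl, Real.le_log_iff_exp_le hL0]
    exact hLe
  have hlL : l ≤ L := (Real.log_le_sub_one_of_pos hL0).trans (by linarith)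
  have hsq1 : 1 ≤ Real.sqrt l := Real.one_le_sqrt.2 hl1
  have hsql : Real.sqrt l ≤ l := by
    rw [Real.sqrt_le_left (by linarith)]
    nlinarith
  have hsq0 : 0 < Real.sqrt l := by linarith
  set H := HH T lam with hH
  have hHe : H = lam / (10 * Real.sqrt l) := rfl
  have hH0 : 0 < H := by
    rw [hHe]
    positivity
  have hHL : L / 10 ≤ H * L ^ 2 := by
    rw [hHe]
    exact num_hl hlam1 hL0 hsq0 (hsql.trans hlL)
  have hcHL1 : 16 / ε ≤ c * (H * L ^ 2) := num_a hc hL1 hHL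
  have hcHL2 : 8 ≤ c * (H * L ^ 2) := num_a hc hL2 hHL
  have hsp : 1 ≤ Real.sqrt (2 * Real.pi) := by
    rw [Real.one_le_sqrt]
    have := Real.pi_gt_three
    linarith
  have hsp3 : Real.sqrt (2 * Real.pi) ≤ 3 := by
    rw [Real.sqrt_le_left (by norm_num)]
    have := Real.pi_lt_four
    linarith
  have hsp0 : 0 < Real.sqrt (2 * Real.pi) := by linarith
  -- the polynomial and the scales
  obtain ⟨K, S, β, S', β', hK1, hK2, hS⟩ := hs0 T hTTs
  have hSE := scl_mono hS hνE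
  have hMol1 : Mol S β (Real.exp (Real.log (Real.log T) ^ 5)) 1 := mol_mono hS.mol hν1
  obtain ⟨δ, ⟨hδ1, hδ2⟩, hδ⟩ := he2 T K S β S' β' hTTE hK1 hK2 hSE
  have hδ0 : 0 < δ := lt_of_lt_of_le (by positivity) hδ1
  have hδh : δ ≤ 1 / 2 := by
    refine hδ2.trans ?_
    rw [div_le_div_iff₀ hT0 (by norm_num)]
    linarith
  have hM4 := hm2 T δ S β hTTM hδ1 hδ2 hMol1
  have hF4 := hf0 T S β hTTr hMol1
  have hZ4 := hzd T S β hTTZ hMol1
  set F : Finset ℝ := (zt_fin hT0).toFinset with hF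
  have hFm : ∀ γ ∈ F, γ ∈ ZT T := fun γ hγ => by
    rwa [hF, Set.Finite.mem_toFinset] at hγ
  have hcF := hcard T hTTF F hFm
  -- the sum of |B| over the zeros
  have hsumsq : ∑ γ ∈ F, ‖pB S β (1 / 2 + γ * I)‖ ^ 2 ≤ CZ * T * (L * ν + 1) := by
    obtain ⟨-, -, hmz1, -, -, -, -⟩ := MS.P4.H30.zfac
    have e : ∑ᶠ γ ∈ {γ : ℝ | T / 2 < γ ∧ γ < 4 * T ∧ riemannZeta (1 / 2 + γ * I) = 0},
        (mz γ : ℝ) * ‖pB S β (1 / 2 + γ * I)‖ ^ 2 =
        ∑ γ ∈ F, (mz γ : ℝ) * ‖pB S β (1 / 2 + γ * I)‖ ^ 2 :=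
      finsum_mem_eq_finite_toFinset_sum _ (zt_fin hT0)
    rw [e] at hZ4
    refine le_trans (Finset.sum_le_sum fun γ hγ => ?_) (hZ4.trans ?_)
    · have h1 : (1 : ℝ) ≤ (mz γ : ℝ) := by exact_mod_cast hmz1 γ (hFm γ hγ).2.2
      exact le_mul_of_one_le_left (by positivity) h1
    · refine mul_le_mul_of_nonneg_left ?_ (by positivity)
      have := mul_le_mul_of_nonneg_left hS.sq hL0.le
      linarith
  set P : ℝ := ∑ γ ∈ F, ‖pB S β (1 / 2 + γ * I)‖ with hP
  have hP0 : 0 ≤ P := Finset.sum_nonneg fun γ _ => norm_nonneg _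
  have hPsq : P ^ 2 ≤ (CF * T * L) * (CZ * T * (L * ν + 1)) := by
    have h1 : P ^ 2 ≤ F.card * ∑ γ ∈ F, ‖pB S β (1 / 2 + γ * I)‖ ^ 2 :=
      sq_sum_le_card_mul_sum_sq
    refine h1.trans (mul_le_mul hcF hsumsq (Finset.sum_nonneg fun γ _ => by positivity)
      (by positivity))
  have hPle : P ≤ T * L * (ε * c / (48 * M)) :=
    num_p hP0 hT0 hL0 hCF hCZ hε hc hM hPsq hνQ hL3
  -- the exceptional sets
  have m1 := mark10 (f := fun t => ‖G10.SB A B δ (wd lam H) S β t‖)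
    (sb_cont A B δ (wd lam H) S β).norm.measurable (m := c * L ^ 2 * Real.sqrt (2 * Real.pi) / 4)
    (by positivity) hδ
  have m2 := mark10 (sfb_meas hT0 lam S β) (a := T) (b := 2 * T) (m := c * (H * L ^ 2) / 4)
    (by positivity) hF4
  have m3 := mark10 (ns_cont F lam H S β).measurable (a := T) (b := 2 * T)
    (m := c * H * L / (4 * M)) (by positivity)
    ((setLIntegral_le_lintegral _ _).trans (ns_lint F hlam0 hH0 S β).le)
  have hsub : {t : ℝ | T ≤ t ∧ t ≤ 2 * T ∧ ∀ γ : ℝ, |γ - t| < lam → mz γ = 1 →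
      ‖deriv riemannZeta (1 / 2 + γ * I)‖ < M * Real.log T} ⊆
      ({t : ℝ | T ≤ t ∧ t ≤ 2 * T ∧
        ‖(Av (lam / 16))^[8] (fun x =>
          ILG A B T δ (fun s => pB S β s * GH (HH T lam) x s)) t‖ ≤
            c * HH T lam * Real.log T ^ 2} ∪
      {t : ℝ | T ≤ t ∧ t ≤ 2 * T ∧ c * L ^ 2 * Real.sqrt (2 * Real.pi) / 4 ≤
        ‖G10.SB A B δ (wd lam H) S β t‖}) ∪
      ({t : ℝ | T ≤ t ∧ t ≤ 2 * T ∧ c * (H * L ^ 2) / 4 ≤ SFB T lam S β t} ∪
      {t : ℝ | T ≤ t ∧ t ≤ 2 * T ∧ c * H * L / (4 * M) ≤ NS F lam H S β t}) := by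
    rintro t ⟨ht1, ht2, ht3⟩
    by_contra hno
    simp only [Set.mem_union, not_or] at hno
    obtain ⟨⟨n1, n2⟩, n3, n4⟩ := hno
    have n1' : c * H * L ^ 2 < ‖(Av (lam / 16))^[8] (fun x =>
          ILG A B T δ (fun s => pB S β s * GH (HH T lam) x s)) t‖ := by
      by_contra h
      exact n1 ⟨ht1, ht2, not_lt.1 h⟩
    have n2' : ‖G10.SB A B δ (wd lam H) S β t‖ < c * L ^ 2 * Real.sqrt (2 * Real.pi) / 4 := by
      by_contra h
      exact n2 ⟨ht1, ht2, not_lt.1 h⟩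
    have n3' : SFB T lam S β t < c * (H * L ^ 2) / 4 := by
      by_contra h
      exact n3 ⟨ht1, ht2, not_lt.1 h⟩
    have n4' : NS F lam H S β t < c * H * L / (4 * M) := by
      by_contra h
      exact n4 ⟨ht1, ht2, not_lt.1 h⟩
    have hp := point10 hgam hav hT0 hδ0 hδh hlam0 (by linarith) hH0 (M := M * L) (by positivity)
      S β hS.mol.one_le (fun x hx1 hx2 =>
        hc0 T hTTc x δ lam S β hx1 hx2 hδ1 hδ2 hlam1 hLlam hMol1) ht1 ht2 ht3
    have e1 : H / Real.sqrt (2 * Real.pi) * ‖G10.SB A B δ (wd lam H) S β t‖ ≤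
        c * (H * L ^ 2) / 4 := by
      calc H / Real.sqrt (2 * Real.pi) * ‖G10.SB A B δ (wd lam H) S β t‖ ≤
          H / Real.sqrt (2 * Real.pi) * (c * L ^ 2 * Real.sqrt (2 * Real.pi) / 4) :=
            mul_le_mul_of_nonneg_left n2'.le (by positivity)
        _ = _ := by field_simp
    have e2 : M * L * NS F lam H S β t ≤ c * (H * L ^ 2) / 4 := by
      calc M * L * NS F lam H S β t ≤ M * L * (c * H * L / (4 * M)) :=
            mul_le_mul_of_nonneg_left n4'.le (by positivity)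
        _ = _ := by field_simp
    have e3 : (1 : ℝ) ≤ c * (H * L ^ 2) / 4 := by linarith
    have e4 : c * H * L ^ 2 = c * (H * L ^ 2) := by ring
    have hp' : c * H * L ^ 2 < H / Real.sqrt (2 * Real.pi) *
        ‖G10.SB A B δ (wd lam H) S β t‖ + (SFB T lam S β t + M * L * NS F lam H S β t) + 1 :=
      lt_of_lt_of_le n1' hp
    linarith
  refine (measure_mono hsub).trans ((measure_union_le _ _).trans
    ((add_le_add (measure_union_le _ _) (measure_union_le _ _)).trans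
      ((add_le_add (add_le_add hM4 m1) (add_le_add m2 m3)).trans ?_)))
  have hJ3 : 0 ≤ H * Real.sqrt (2 * Real.pi) * P / (c * H * L / (4 * M)) := by positivity
  rw [← ENNReal.ofReal_add (by positivity) (by positivity),
    ← ENNReal.ofReal_add (by positivity) hJ3,
    ← ENNReal.ofReal_add (by positivity) (by positivity)]
  refine ENNReal.ofReal_le_ofReal ?_
  have f1 : ε * c / 16 * T * L ^ 2 / (c * L ^ 2 * Real.sqrt (2 * Real.pi) / 4) ≤ ε / 4 * T := by
    rw [div_le_iff₀ (by positivity)]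
    have : ε / 4 * T * (c * L ^ 2 * 1 / 4) ≤
        ε / 4 * T * (c * L ^ 2 * Real.sqrt (2 * Real.pi) / 4) := by gcongr
    refine le_trans (le_of_eq ?_) this
    ring
  have f2 : T / (c * (H * L ^ 2) / 4) ≤ ε / 4 * T := by
    rw [div_le_iff₀ (by positivity)]
    have h1 : ε * (16 / ε) ≤ ε * (c * (H * L ^ 2)) := mul_le_mul_of_nonneg_left hcHL1 hε.le
    rw [mul_div_cancel₀ _ hε.ne'] at h1
    have h2 : T * 16 ≤ T * (ε * (c * (H * L ^ 2))) := mul_le_mul_of_nonneg_left h1 hT0.le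
    linarith
  have f3 : H * Real.sqrt (2 * Real.pi) * P / (c * H * L / (4 * M)) ≤ ε / 4 * T := by
    rw [div_le_iff₀ (by positivity)]
    calc H * Real.sqrt (2 * Real.pi) * P ≤ H * 3 * (T * L * (ε * c / (48 * M))) := by gcongr
      _ = ε / 4 * T * (c * H * L / (4 * M)) := by
          field_simp
          norm_num
  linarith

/-- CHB10. -/
theorem chb10 (h : CHB10PStatement) : CHB10Statement := by
  intro hRH ε hε
  obtain ⟨lam, T0, h1, h2, h3⟩ := h hRH ε 1 hε one_pos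
  refine ⟨lam, T0, h1, h2, fun T hT => (measure_mono ?_).trans (h3 T hT)⟩
  rintro t ⟨ht1, ht2, ht3⟩
  exact ⟨ht1, ht2, fun γ h4 h5 => absurd h5 (ht3 γ h4)⟩

end Pool.Agent.Lib.MP_6bc78b_nt.GP.H92C
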