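import Pool.Agent.Lib.MP_6bc78b_nt.GP.H92.Chb10p
import Pool.Agent.Lib.MP_6bc78b_nt.GP.H43.Defs10q

/-! Project GP10, row CHB10Q: the length of the windows depends on `ε` only. -/

set_option autoImplicit false

open Complex Filter Topology MeasureTheory ArithmeticFunction Set
open scoped ENNReal

namespace Pool.Agent.Lib.MP_6bc78b_nt.GP.H92C

open Pool.Agent.Lib.MP_6bc78b_nt Pool.Agent.Lib.MP_6bc78b_nt.MS Pool.Agent.Lib.MP_6bc78b_nt.MS.P1
open Pool.Agent.Lib.MP_6bc78b_nt.GP.G7 Pool.Agent.Lib.MP_6bc78b_nt.GP.G10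

/-- The estimate for one `T`. -/
theorem core10 (hgam : GAMCStatement) (hav : AVBStatement) {A B T δ lam M ε c : ℝ}
    (hT10 : 10 < T) (hT0 : 0 < T) (hlam1 : 1 ≤ lam) (hTlam : 4 * lam ≤ T)
    (hLlam : lam ≤ Real.log T) (hLe : Real.exp 1 ≤ Real.log T) (hε : 0 < ε) (hc : 0 < c)
    (hM : 0 < M) (hL1 : 10 * (16 / ε) / c ≤ Real.log T) (hL2 : 10 * 8 / c ≤ Real.log T)
    (S : Finset ℕ) (β : ℕ → ℝ) (hS : ∀ m ∈ S, 1 ≤ m) (hδ1 : 1 / T ≤ δ) (hδ2 : δ ≤ 2 / T)
    (hδ : ∫⁻ t in Icc T (2 * T), ENNReal.ofReal ‖G10.SB A B δ (wd lam (HH T lam)) S β t‖ ≤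
        ENNReal.ofReal (ε * c / 16 * T * Real.log T ^ 2))
    (hcon : ∀ x : ℝ, 3 / 4 * T ≤ x → x ≤ 3 * T →
      ‖G10.SB A B δ (gd (HH T lam)) S β x -
        ILG A B T δ (fun s => pB S β s * GH (HH T lam) x s) -
        SSG T δ (fun s => pB S β s * GH (HH T lam) x s)‖ ≤ 1)
    (hM4 : volume {t : ℝ | T ≤ t ∧ t ≤ 2 * T ∧
      ‖(Av (lam / 16))^[8] (fun x =>
        ILG A B T δ (fun s => pB S β s * GH (HH T lam) x s)) t‖ ≤
          c * HH T lam * Real.log T ^ 2} ≤ ENNReal.ofReal (ε / 4 * T))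
    (hF4 : ∫⁻ t in Icc T (2 * T), ENNReal.ofReal (SFB T lam S β t) ≤ ENNReal.ofReal T)
    (hPle : ∑ γ ∈ (zt_fin hT0).toFinset, ‖pB S β (1 / 2 + γ * I)‖ ≤
      T * Real.log T * (ε * c / (48 * M))) :
    volume {t : ℝ | T ≤ t ∧ t ≤ 2 * T ∧ ∀ γ : ℝ, |γ - t| < lam → mz γ = 1 →
      ‖deriv riemannZeta (1 / 2 + γ * I)‖ < M * Real.log T} ≤ ENNReal.ofReal (ε * T) := by
  have hlam0 : 0 < lam := by linarith
  set L := Real.log T with hL
  have p3 : 0 < Real.exp 1 := Real.exp_pos 1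
  have hL0 : 0 < L := by linarith
  have p4 : 1 < Real.exp 1 := by
    have := Real.add_one_lt_exp (x := 1) (by norm_num)
    linarith
  set l := Real.log L with hl
  have hl1 : 1 ≤ l := by
    rw [hl, Real.le_log_iff_exp_le hL0]
    exact hLe
  have hlL : l ≤ L := (Real.log_le_sub_one_of_pos hL0).trans (by linarith)
  have hsq1 : 1 ≤ Real.sqrt l := Real.one_le_sqrt.2 hl1
  have hsql : Real.sqrt l ≤ l := by
    rw [Real.sqrt_le_left (by linarith)]
    nlinarith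
  have hsq0 : 0 < Real.sqrt l := by linarith
  set H := HH T lam with hH
  have hHe : H = lam / (10 * Real.sqrt l) := rfl
  have hH0 : 0 < H := by
    rw [hHe]
    positivity
  have hHL : L / 10 ≤ H * L ^ 2 := by
    rw [hHe]
    exact num_hl hlam1 hL0 hsq0 (hsql.trans hlL)
  have hcHL1 : 16 / ε ≤ c * (H * L ^ 2) := num_a hc hL1 hHL
  have hcHL2 : 8 ≤ c * (H * L ^ 2) := num_a hc hL2 hHL
  have hsp : 1 ≤ Real.sqrt (2 * Real.pi) := by
    rw [Real.one_le_sqrt]
    have := Real.pi_gt_three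
    linarith
  have hsp3 : Real.sqrt (2 * Real.pi) ≤ 3 := by
    rw [Real.sqrt_le_left (by norm_num)]
    have := Real.pi_lt_four
    linarith
  have hsp0 : 0 < Real.sqrt (2 * Real.pi) := by linarith
  have hδ0 : 0 < δ := lt_of_lt_of_le (by positivity) hδ1
  have hδh : δ ≤ 1 / 2 := by
    refine hδ2.trans ?_
    rw [div_le_div_iff₀ hT0 (by norm_num)]
    linarith
  set F : Finset ℝ := (zt_fin hT0).toFinset with hF
  set P : ℝ := ∑ γ ∈ F, ‖pB S β (1 / 2 + γ * I)‖ with hP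
  have hP0 : 0 ≤ P := Finset.sum_nonneg fun γ _ => norm_nonneg _
  -- the exceptional sets
  have m1 := mark10 (f := fun t => ‖G10.SB A B δ (wd lam H) S β t‖)
    (sb_cont A B δ (wd lam H) S β).norm.measurable (m := c * L ^ 2 * Real.sqrt (2 * Real.pi) / 4)
    (by positivity) hδ
  have m2 := mark10 (sfb_meas hT0 lam S β) (a := T) (b := 2 * T) (m := c * (H * L ^ 2) / 4)
    (by positivity) hF4
  have m3 := mark10 (ns_cont F lam H S β).measurable (a := T) (b := 2 * T)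
    (m := c * H * L / (4 * M)) (by positivity)
    ((setLIntegral_le_lintegral _ _).trans (ns_lint F hlam0 hH0 S β).le)
  have hsub : {t : ℝ | T ≤ t ∧ t ≤ 2 * T ∧ ∀ γ : ℝ, |γ - t| < lam → mz γ = 1 →
      ‖deriv riemannZeta (1 / 2 + γ * I)‖ < M * Real.log T} ⊆
      ({t : ℝ | T ≤ t ∧ t ≤ 2 * T ∧
        ‖(Av (lam / 16))^[8] (fun x =>
          ILG A B T δ (fun s => pB S β s * GH (HH T lam) x s)) t‖ ≤
            c * HH T lam * Real.log T ^ 2} ∪
      {t : ℝ | T ≤ t ∧ t ≤ 2 * T ∧ c * L ^ 2 * Real.sqrt (2 * Real.pi) / 4 ≤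
        ‖G10.SB A B δ (wd lam H) S β t‖}) ∪
      ({t : ℝ | T ≤ t ∧ t ≤ 2 * T ∧ c * (H * L ^ 2) / 4 ≤ SFB T lam S β t} ∪
      {t : ℝ | T ≤ t ∧ t ≤ 2 * T ∧ c * H * L / (4 * M) ≤ NS F lam H S β t}) := by
    rintro t ⟨ht1, ht2, ht3⟩
    by_contra hno
    simp only [Set.mem_union, not_or] at hno
    obtain ⟨⟨n1, n2⟩, n3, n4⟩ := hno
    have n1' : c * H * L ^ 2 < ‖(Av (lam / 16))^[8] (fun x =>
          ILG A B T δ (fun s => pB S β s * GH (HH T lam) x s)) t‖ := by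
      by_contra h
      exact n1 ⟨ht1, ht2, not_lt.1 h⟩
    have n2' : ‖G10.SB A B δ (wd lam H) S β t‖ < c * L ^ 2 * Real.sqrt (2 * Real.pi) / 4 := by
      by_contra h
      exact n2 ⟨ht1, ht2, not_lt.1 h⟩
    have n3' : SFB T lam S β t < c * (H * L ^ 2) / 4 := by
      by_contra h
      exact n3 ⟨ht1, ht2, not_lt.1 h⟩
    have n4' : NS F lam H S β t < c * H * L / (4 * M) := by
      by_contra h
      exact n4 ⟨ht1, ht2, not_lt.1 h⟩
    have hp := point10 hgam hav hT0 hδ0 hδh hlam0 (by linarith) hH0 (M := M * L) (by positivity)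
      S β hS hcon ht1 ht2 ht3
    have e1 : H / Real.sqrt (2 * Real.pi) * ‖G10.SB A B δ (wd lam H) S β t‖ ≤
        c * (H * L ^ 2) / 4 := by
      calc H / Real.sqrt (2 * Real.pi) * ‖G10.SB A B δ (wd lam H) S β t‖ ≤
          H / Real.sqrt (2 * Real.pi) * (c * L ^ 2 * Real.sqrt (2 * Real.pi) / 4) :=
            mul_le_mul_of_nonneg_left n2'.le (by positivity)
        _ = _ := by field_simp
    have e2 : M * L * NS F lam H S β t ≤ c * (H * L ^ 2) / 4 := by
      calc M * L * NS F lam H S β t ≤ M * L * (c * H * L / (4 * M)) :=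
            mul_le_mul_of_nonneg_left n4'.le (by positivity)
        _ = _ := by field_simp
    have e3 : (1 : ℝ) ≤ c * (H * L ^ 2) / 4 := by linarith
    have e4 : c * H * L ^ 2 = c * (H * L ^ 2) := by ring
    have hp' : c * H * L ^ 2 < H / Real.sqrt (2 * Real.pi) *
        ‖G10.SB A B δ (wd lam H) S β t‖ + (SFB T lam S β t + M * L * NS F lam H S β t) + 1 :=
      lt_of_lt_of_le n1' hp
    linarith
  refine (measure_mono hsub).trans ((measure_union_le _ _).trans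
    ((add_le_add (measure_union_le _ _) (measure_union_le _ _)).trans
      ((add_le_add (add_le_add hM4 m1) (add_le_add m2 m3)).trans ?_)))
  have hJ3 : 0 ≤ H * Real.sqrt (2 * Real.pi) * P / (c * H * L / (4 * M)) := by positivity
  rw [← ENNReal.ofReal_add (by positivity) (by positivity),
    ← ENNReal.ofReal_add (by positivity) hJ3,
    ← ENNReal.ofReal_add (by positivity) (by positivity)]
  refine ENNReal.ofReal_le_ofReal ?_
  have f1 : ε * c / 16 * T * L ^ 2 / (c * L ^ 2 * Real.sqrt (2 * Real.pi) / 4) ≤ ε / 4 * T := by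
    rw [div_le_iff₀ (by positivity)]
    have : ε / 4 * T * (c * L ^ 2 * 1 / 4) ≤
        ε / 4 * T * (c * L ^ 2 * Real.sqrt (2 * Real.pi) / 4) := by gcongr
    refine le_trans (le_of_eq ?_) this
    ring
  have f2 : T / (c * (H * L ^ 2) / 4) ≤ ε / 4 * T := by
    rw [div_le_iff₀ (by positivity)]
    have h1 : ε * (16 / ε) ≤ ε * (c * (H * L ^ 2)) := mul_le_mul_of_nonneg_left hcHL1 hε.le
    rw [mul_div_cancel₀ _ hε.ne'] at h1
    have h2 : T * 16 ≤ T * (ε * (c * (H * L ^ 2))) := mul_le_mul_of_nonneg_left h1 hT0.le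
    linarith
  have f3 : H * Real.sqrt (2 * Real.pi) * P / (c * H * L / (4 * M)) ≤ ε / 4 * T := by
    rw [div_le_iff₀ (by positivity)]
    calc H * Real.sqrt (2 * Real.pi) * P ≤ H * 3 * (T * L * (ε * c / (48 * M))) := by gcongr
      _ = ε / 4 * T * (c * H * L / (4 * M)) := by
          field_simp
          norm_num
  linarith

/-- CHB10Q. -/
theorem chb10q (hdx : DX1Statement) (hscl : SCLBQStatement) (herb : ERBStatement)
    (hcon : CONBStatement) (hav : AVBStatement) (hmain : MAINBStatement) (hfar : FARBStatement)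
    (hz : ZDBStatement) (hgam : GAMCStatement) : CHB10QStatement := by
  intro hRH ε hε
  obtain ⟨A, B, D, hD⟩ := hdx hRH
  obtain ⟨c, hc, hm0⟩ := hmain A B
  obtain ⟨lamM, hlamM, hm1⟩ := hm0 (ε / 4) (by positivity)
  obtain ⟨νE, hνE0, hνE1, he0⟩ := herb hRH A B D hD (ε * c / 16) (by positivity)
  obtain ⟨CF, TF, hCF, hTF, hcard⟩ := zt_card
  obtain ⟨CZ, TZ, hCZ, hTZ, hzd⟩ := hz hRH
  obtain ⟨w, hw2, hs⟩ := hscl νE hνE0
  obtain ⟨lamE, hlamE, he1⟩ := he0 w hw2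
  set lam : ℝ := max lamE lamM with hlamdef
  have hlam1 : 1 ≤ lam := hlamE.trans (le_max_left _ _)
  have hlam0 : 0 < lam := by linarith
  obtain ⟨TM, hTM, hm2⟩ := hm1 lam (le_max_right _ _)
  obtain ⟨TE, hTE, he2⟩ := he1 lam (le_max_left _ _)
  obtain ⟨Tc, hc0⟩ := eventually_atTop.1 (hcon hRH A B)
  obtain ⟨Tr, hTr, hf0⟩ := hfar hRH lam hlam1
  refine ⟨lam, hlam0, fun A' => ?_⟩
  obtain ⟨Ts, hTs, hs0⟩ := hs (2 * A' + 2)
  have hlog : Tendsto Real.log atTop atTop := Real.tendsto_log_atTop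
  have hlog3 : Tendsto (fun T => Real.log (Real.log (Real.log T))) atTop atTop :=
    hlog.comp (hlog.comp hlog)
  set Q : ℝ := CF * CZ * (48 / (ε * c)) ^ 2 with hQ
  have hQ0 : 0 < Q := by positivity
  obtain ⟨T5, h5⟩ := eventually_atTop.1 (hlog.eventually_ge_atTop
    (Real.exp 1 + lam + 10 * (16 / ε) / c + 10 * 8 / c))
  obtain ⟨T6, h6⟩ := eventually_atTop.1 (hlog3.eventually_ge_atTop (1 + 2 * Q))
  obtain ⟨T7, h7⟩ := eventually_atTop.1 (hlog.eventually
    ((hlog.comp hlog).eventually (eventually_ge_atTop (0 : ℝ))))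
  have hev : ∀ᶠ T : ℝ in atTop,
      2 * Q * Real.log (Real.log (Real.log T)) ^ (2 * A') ≤ Real.log T := by
    have h1 : ∀ᶠ x : ℝ in atTop, ‖Real.log x ^ (2 * A')‖ ≤ 1 / (2 * Q) * ‖id x‖ :=
      (Real.isLittleO_pow_log_id_atTop (n := 2 * A')).bound (by positivity)
    have h2 : ∀ᶠ x : ℝ in atTop, ‖Real.log x ^ 1‖ ≤ 1 * ‖id x‖ :=
      (Real.isLittleO_pow_log_id_atTop (n := 1)).bound (by norm_num)
    filter_upwards [(hlog.comp hlog).eventually h1, hlog.eventually h2,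
      hlog.eventually_ge_atTop 0, (hlog.comp hlog).eventually_ge_atTop 0] with T k1 k2 k3 k4
    simp only [Function.comp_apply, id, pow_one, one_mul] at k1 k2 k3 k4
    rw [Real.norm_of_nonneg k4] at k1 k2
    rw [Real.norm_of_nonneg k3] at k2
    have k5 : Real.log (Real.log (Real.log T)) ^ (2 * A') ≤ 1 / (2 * Q) * Real.log T := by
      calc Real.log (Real.log (Real.log T)) ^ (2 * A') ≤
            ‖Real.log (Real.log (Real.log T)) ^ (2 * A')‖ := Real.le_norm_self _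
        _ ≤ 1 / (2 * Q) * Real.log (Real.log T) := k1
        _ ≤ 1 / (2 * Q) * Real.log T := mul_le_mul_of_nonneg_left k2 (by positivity)
    calc 2 * Q * Real.log (Real.log (Real.log T)) ^ (2 * A') ≤
          2 * Q * (1 / (2 * Q) * Real.log T) := mul_le_mul_of_nonneg_left k5 (by positivity)
      _ = Real.log T := by field_simp
  obtain ⟨T8, h8⟩ := eventually_atTop.1 hev
  refine ⟨max TF (max TZ (max Ts (max TM (max TE (max Tc (max Tr (max T5
    (max T6 (max T8 (4 * lam)))))))))), lt_max_of_lt_left hTF, fun T hT => ?_⟩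
  have hTTF : TF ≤ T := (le_max_left _ _).trans hT
  have r1 := (le_max_right _ _).trans hT
  have hTTZ : TZ ≤ T := (le_max_left _ _).trans r1
  have r2 := (le_max_right _ _).trans r1
  have hTTs : Ts ≤ T := (le_max_left _ _).trans r2
  have r3 := (le_max_right _ _).trans r2
  have hTTM : TM ≤ T := (le_max_left _ _).trans r3
  have r4 := (le_max_right _ _).trans r3
  have hTTE : TE ≤ T := (le_max_left _ _).trans r4
  have r5 := (le_max_right _ _).trans r4
  have hTTc : Tc ≤ T := (le_max_left _ _).trans r5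
  have r6 := (le_max_right _ _).trans r5
  have hTTr : Tr ≤ T := (le_max_left _ _).trans r6
  have r7 := (le_max_right _ _).trans r6
  have hTT5 : T5 ≤ T := (le_max_left _ _).trans r7
  have r8 := (le_max_right _ _).trans r7
  have hTT6 : T6 ≤ T := (le_max_left _ _).trans r8
  have r9 := (le_max_right _ _).trans r8
  have hTT8 : T8 ≤ T := (le_max_left _ _).trans r9
  have hTlam : 4 * lam ≤ T := (le_max_right _ _).trans r9
  have hT10 : 10 < T := lt_of_lt_of_le hTF hTTF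
  have hT0 : 0 < T := by linarith
  have hL5 := h5 T hTT5
  have hl3 : 1 + 2 * Q ≤ Real.log (Real.log (Real.log T)) := h6 T hTT6
  have hQL := h8 T hTT8
  have p1 : 0 < 10 * (16 / ε) / c := by positivity
  have p2 : 0 < 10 * 8 / c := by positivity
  have p3 : 0 < Real.exp 1 := Real.exp_pos 1
  have hLe : Real.exp 1 ≤ Real.log T := by linarith
  have hLlam : lam ≤ Real.log T := by linarith
  have hL1 : 10 * (16 / ε) / c ≤ Real.log T := by linarith
  have hL2 : 10 * 8 / c ≤ Real.log T := by linarith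
  have hL0 : 0 < Real.log T := by linarith
  set y := Real.log (Real.log (Real.log T)) with hy
  have hy1 : 1 ≤ y := by linarith
  have hy0 : 0 < y := by linarith
  have hM : 0 < y ^ A' := by positivity
  obtain ⟨K, S, β, S', β', hK1, hK2, hS, hsq⟩ := hs0 T hTTs
  have hMol1 : Mol S β (Real.exp (Real.log (Real.log T) ^ 5)) 1 := mol_mono hS.mol hνE1
  obtain ⟨δ, ⟨hδ1, hδ2⟩, hδ⟩ := he2 T K S β S' β' hTTE hK1 hK2 hS
  have hM4 := hm2 T δ S β hTTM hδ1 hδ2 hMol1
  have hF4 := hf0 T S β hTTr hMol1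
  have hZ4 := hzd T S β hTTZ hMol1
  have hFm : ∀ γ ∈ (zt_fin hT0).toFinset, γ ∈ ZT T := fun γ hγ => by
    rwa [Set.Finite.mem_toFinset] at hγ
  have hcF := hcard T hTTF _ hFm
  set s : ℝ := 1 / y ^ (2 * A' + 2) with hsd
  have hsumsq : ∑ γ ∈ (zt_fin hT0).toFinset, ‖pB S β (1 / 2 + γ * I)‖ ^ 2 ≤
      CZ * T * (Real.log T * s + 1) := by
    obtain ⟨-, -, hmz1, -, -, -, -⟩ := MS.P4.H30.zfac
    have e : ∑ᶠ γ ∈ {γ : ℝ | T / 2 < γ ∧ γ < 4 * T ∧ riemannZeta (1 / 2 + γ * I) = 0},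
        (mz γ : ℝ) * ‖pB S β (1 / 2 + γ * I)‖ ^ 2 =
        ∑ γ ∈ (zt_fin hT0).toFinset, (mz γ : ℝ) * ‖pB S β (1 / 2 + γ * I)‖ ^ 2 :=
      finsum_mem_eq_finite_toFinset_sum _ (zt_fin hT0)
    rw [e] at hZ4
    refine le_trans (Finset.sum_le_sum fun γ hγ => ?_) (hZ4.trans ?_)
    · have h1 : (1 : ℝ) ≤ (mz γ : ℝ) := by exact_mod_cast hmz1 γ (hFm γ hγ).2.2
      exact le_mul_of_one_le_left (by positivity) h1
    · refine mul_le_mul_of_nonneg_left ?_ (by positivity)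
      have := mul_le_mul_of_nonneg_left hsq hL0.le
      linarith
  have hPsq : (∑ γ ∈ (zt_fin hT0).toFinset, ‖pB S β (1 / 2 + γ * I)‖) ^ 2 ≤
      (CF * T * Real.log T) * (CZ * T * (Real.log T * s + 1)) := by
    have h1 : (∑ γ ∈ (zt_fin hT0).toFinset, ‖pB S β (1 / 2 + γ * I)‖) ^ 2 ≤
        (zt_fin hT0).toFinset.card *
          ∑ γ ∈ (zt_fin hT0).toFinset, ‖pB S β (1 / 2 + γ * I)‖ ^ 2 :=
      sq_sum_le_card_mul_sum_sq
    exact h1.trans (mul_le_mul hcF hsumsq (Finset.sum_nonneg fun γ _ => by positivity)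
      (by positivity))
  have hQM : CF * CZ * (48 * y ^ A' / (ε * c)) ^ 2 = Q * y ^ (2 * A') := by
    rw [hQ, pow_mul', div_pow, div_pow]
    ring
  have hPle : ∑ γ ∈ (zt_fin hT0).toFinset, ‖pB S β (1 / 2 + γ * I)‖ ≤
      T * Real.log T * (ε * c / (48 * y ^ A')) := by
    refine num_p (Finset.sum_nonneg fun γ _ => norm_nonneg _) hT0 hL0 hCF hCZ hε hc hM hPsq
      ?_ ?_
    · rw [hQM, hsd]
      refine one_div_le_one_div_of_le (by positivity) ?_
      have e1 : 2 * Q ≤ y ^ 2 := by nlinarith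
      calc 2 * (Q * y ^ (2 * A')) = 2 * Q * y ^ (2 * A') := by ring
        _ ≤ y ^ 2 * y ^ (2 * A') := mul_le_mul_of_nonneg_right e1 (by positivity)
        _ = y ^ (2 * A' + 2) := by ring
    · rw [hQM]
      linarith
  have h := core10 hgam hav hT10 hT0 hlam1 hTlam hLlam hLe hε hc hM hL1 hL2 S β hS.mol.one_le
    hδ1 hδ2 hδ (fun x hx1 hx2 =>
      hc0 T hTTc x δ lam S β hx1 hx2 hδ1 hδ2 hlam1 hLlam hMol1) hM4 hF4 hPle
  rw [mul_comm (y ^ A') (Real.log T)] at h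
  exact h

end Pool.Agent.Lib.MP_6bc78b_nt.GP.H92C
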