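import Pool.Agent.Lib.MP_6bc78b_nt.GP.H92.Chb10p
import Pool.Agent.Lib.MP_6bc78b_nt.GP.H11.Defs11

/-! Project GP11, row CHB11 (from NEAR, TSD and FAM). -/

set_option autoImplicit false

open Complex Filter Topology MeasureTheory ArithmeticFunction Set
open scoped ENNReal

namespace Pool.Agent.Lib.MP_6bc78b_nt.GP.H92C

open Pool.Agent.Lib.MP_6bc78b_nt Pool.Agent.Lib.MP_6bc78b_nt.MS Pool.Agent.Lib.MP_6bc78b_nt.MS.P1
open Pool.Agent.Lib.MP_6bc78b_nt.GP.G7 Pool.Agent.Lib.MP_6bc78b_nt.GP.G10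
open Pool.Agent.Lib.MP_6bc78b_nt.GP.G11

/-- The sum of `f` over the elements of `F` near `t`. -/
noncomputable def En (F : Finset ℝ) (lam : ℝ) (f : ℝ → ℝ) (t : ℝ) : ℝ :=
  ∑ γ ∈ F, if |γ - t| < lam then f γ else 0

lemma en_meas (F : Finset ℝ) (lam : ℝ) (f : ℝ → ℝ) : Measurable (En F lam f) := by
  unfold En
  refine Finset.measurable_fun_sum _ fun γ _ => ?_
  have hs : MeasurableSet {t : ℝ | |γ - t| < lam} :=
    measurableSet_lt (by fun_prop) measurable_const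
  exact Measurable.ite hs measurable_const measurable_const

lemma en_lint (F : Finset ℝ) {lam : ℝ} (hlam : 0 < lam) {f : ℝ → ℝ} (hf : ∀ γ, 0 ≤ f γ) :
    ∫⁻ t : ℝ, ENNReal.ofReal (En F lam f t) = ENNReal.ofReal (2 * lam * ∑ γ ∈ F, f γ) := by
  have h1 : ∀ t : ℝ, ENNReal.ofReal (En F lam f t) = ∑ γ ∈ F,
      (Ioo (γ - lam) (γ + lam)).indicator (fun _ => ENNReal.ofReal (f γ)) t := by
    intro t
    unfold En
    rw [ENNReal.ofReal_sum_of_nonneg fun γ _ => by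
      split_ifs
      · exact hf γ
      · exact le_rfl]
    refine Finset.sum_congr rfl fun γ _ => ?_
    simp only [indicator_apply, mem_Ioo]
    by_cases h : |γ - t| < lam
    · have h2 := abs_lt.1 h
      rw [if_pos h, if_pos ⟨by linarith, by linarith⟩]
    · rw [if_neg h, if_neg, ENNReal.ofReal_zero]
      rintro ⟨h2, h3⟩
      exact h (abs_lt.2 ⟨by linarith, by linarith⟩)
  simp only [h1]
  rw [lintegral_finsetSum _ fun γ _ => measurable_const.indicator measurableSet_Ioo]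
  have h2 : ∀ γ ∈ F, ∫⁻ t : ℝ, (Ioo (γ - lam) (γ + lam)).indicator
      (fun _ => ENNReal.ofReal (f γ)) t = ENNReal.ofReal (2 * lam * f γ) := by
    intro γ _
    rw [lintegral_indicator measurableSet_Ioo, lintegral_const, Measure.restrict_apply_univ,
      Real.volume_Ioo, ← ENNReal.ofReal_mul (hf γ)]
    congr 1
    ring
  rw [Finset.sum_congr rfl h2, ← ENNReal.ofReal_sum_of_nonneg fun γ _ =>
    mul_nonneg (by positivity) (hf γ), Finset.mul_sum]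

/-- The zeros near `t` are in `(T/2, 4T)`. -/
lemma zn_zt {T t lam m : ℝ} (hlT : 4 * lam ≤ T) (ht1 : T ≤ t) (ht2 : t ≤ 2 * T)
    (hlam : 0 < lam) {γ : ℝ} (h : γ ∈ zn t lam m) : γ ∈ ZT T := by
  obtain ⟨h1, h2, -⟩ := h
  have h3 := abs_lt.1 h1
  exact ⟨by linarith, by linarith, H91K.zero_of_mz h2⟩

/-- The estimate for one `T`, any threshold `m`. -/
theorem key11 {T lam m c A X ε : ℝ} (hT0 : 0 < T) (hlam : 1 ≤ lam) (hlT : 4 * lam ≤ T)
    (hc : 0 < c) (hA : 0 < A) (hL : 0 < Real.log T) (hε : 0 < ε) (S : Finset ℕ) (β : ℕ → ℝ)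
    (G : ℝ → ℝ)
    (h1 : volume {t : ℝ | T ≤ t ∧ t ≤ 2 * T ∧ ∀ F : Finset ℝ,
        (∀ γ : ℝ, γ ∈ F ↔ γ ∈ zn t lam m) →
        ∑ γ ∈ F, ‖deriv riemannZeta (1 / 2 + γ * I)‖ * ‖pB S β (1 / 2 + γ * I)‖ <
          c * lam * Real.log T ^ 2} ≤ ENNReal.ofReal (ε * T))
    (h2 : volume {t : ℝ | T ≤ t ∧ t ≤ 2 * T ∧ ∃ u : ℝ, |u - t| ≤ lam ∧ G u < 1} ≤
      ENNReal.ofReal (ε * T))
    (h3 : ∑ γ ∈ (zt_fin hT0).toFinset, (‖deriv riemannZeta (1 / 2 + γ * I)‖ *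
      ‖pB S β (1 / 2 + γ * I)‖) ^ 2 * Real.sqrt (G γ) ≤ X)
    (h4 : 2 * lam * X / ((c * lam * Real.log T ^ 2) ^ 2 / A) ≤ ε * T) :
    volume {t : ℝ | T ≤ t ∧ t ≤ 2 * T ∧ ((zn t lam m).ncard : ℝ) ≤ A} ≤
      ENNReal.ofReal (3 * ε * T) := by
  classical
  have hlam0 : 0 < lam := by linarith
  set F₀ := (zt_fin hT0).toFinset with hF₀
  set f : ℝ → ℝ := fun γ => (‖deriv riemannZeta (1 / 2 + γ * I)‖ *
      ‖pB S β (1 / 2 + γ * I)‖) ^ 2 * Real.sqrt (G γ) with hf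
  have hf0 : ∀ γ, 0 ≤ f γ := fun γ => by
    rw [hf]
    positivity
  have hcut : 0 < (c * lam * Real.log T ^ 2) ^ 2 / A := by positivity
  have m3 := mark10 (en_meas F₀ lam f) (a := T) (b := 2 * T) hcut
    ((setLIntegral_le_lintegral _ _).trans ((en_lint F₀ hlam0 hf0).le.trans
      (ENNReal.ofReal_le_ofReal (mul_le_mul_of_nonneg_left h3 (by positivity)))))
  have hsub : {t : ℝ | T ≤ t ∧ t ≤ 2 * T ∧ ((zn t lam m).ncard : ℝ) ≤ A} ⊆
      ({t : ℝ | T ≤ t ∧ t ≤ 2 * T ∧ ∀ F : Finset ℝ,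
        (∀ γ : ℝ, γ ∈ F ↔ γ ∈ zn t lam m) →
        ∑ γ ∈ F, ‖deriv riemannZeta (1 / 2 + γ * I)‖ * ‖pB S β (1 / 2 + γ * I)‖ <
          c * lam * Real.log T ^ 2} ∪
      {t : ℝ | T ≤ t ∧ t ≤ 2 * T ∧ ∃ u : ℝ, |u - t| ≤ lam ∧ G u < 1}) ∪
      {t : ℝ | T ≤ t ∧ t ≤ 2 * T ∧ (c * lam * Real.log T ^ 2) ^ 2 / A ≤ En F₀ lam f t} := by
    rintro t ⟨ht1, ht2, ht3⟩
    by_contra hno
    simp only [Set.mem_union, not_or] at hno
    obtain ⟨⟨n1, n2⟩, n3⟩ := hno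
    have n1' : ∃ F : Finset ℝ, (∀ γ : ℝ, γ ∈ F ↔ γ ∈ zn t lam m) ∧ c * lam * Real.log T ^ 2 ≤
        ∑ γ ∈ F, ‖deriv riemannZeta (1 / 2 + γ * I)‖ * ‖pB S β (1 / 2 + γ * I)‖ := by
      by_contra h
      push Not at h
      exact n1 ⟨ht1, ht2, h⟩
    have n2' : ∀ u : ℝ, |u - t| ≤ lam → 1 ≤ G u := by
      by_contra h
      push Not at h
      exact n2 ⟨ht1, ht2, h⟩
    have n3' : En F₀ lam f t < (c * lam * Real.log T ^ 2) ^ 2 / A := by
      by_contra h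
      exact n3 ⟨ht1, ht2, not_lt.1 h⟩
    obtain ⟨F, hF, hsum⟩ := n1'
    have hcard : (F.card : ℝ) ≤ A := by
      have e : zn t lam m = (F : Set ℝ) := by
        ext γ
        rw [Finset.mem_coe, hF]
      rw [e, Set.ncard_coe_finset] at ht3
      exact ht3
    have hFF : F ⊆ F₀ := by
      intro γ hγ
      rw [hF₀, Set.Finite.mem_toFinset]
      exact zn_zt hlT ht1 ht2 hlam0 ((hF γ).1 hγ)
    have e1 : (∑ γ ∈ F, ‖deriv riemannZeta (1 / 2 + γ * I)‖ * ‖pB S β (1 / 2 + γ * I)‖) ^ 2 ≤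
        F.card * ∑ γ ∈ F, (‖deriv riemannZeta (1 / 2 + γ * I)‖ *
          ‖pB S β (1 / 2 + γ * I)‖) ^ 2 := sq_sum_le_card_mul_sum_sq
    have e2 : ∑ γ ∈ F, (‖deriv riemannZeta (1 / 2 + γ * I)‖ *
          ‖pB S β (1 / 2 + γ * I)‖) ^ 2 ≤ En F₀ lam f t := by
      unfold En
      calc ∑ γ ∈ F, (‖deriv riemannZeta (1 / 2 + γ * I)‖ * ‖pB S β (1 / 2 + γ * I)‖) ^ 2 ≤
            ∑ γ ∈ F, (if |γ - t| < lam then f γ else 0) := by
              refine Finset.sum_le_sum fun γ hγ => ?_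
              have h5 := ((hF γ).1 hγ).1
              rw [if_pos h5, hf]
              refine le_mul_of_one_le_right (by positivity) ?_
              exact Real.one_le_sqrt.2 (n2' γ h5.le)
        _ ≤ ∑ γ ∈ F₀, (if |γ - t| < lam then f γ else 0) := by
              refine Finset.sum_le_sum_of_subset_of_nonneg hFF fun γ _ _ => ?_
              split_ifs
              · exact hf0 γ
              · exact le_rfl
    have e3 : (c * lam * Real.log T ^ 2) ^ 2 ≤ A * En F₀ lam f t := by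
      calc (c * lam * Real.log T ^ 2) ^ 2 ≤ (∑ γ ∈ F, ‖deriv riemannZeta (1 / 2 + γ * I)‖ *
            ‖pB S β (1 / 2 + γ * I)‖) ^ 2 := pow_le_pow_left₀ (by positivity) hsum 2
        _ ≤ F.card * ∑ γ ∈ F, (‖deriv riemannZeta (1 / 2 + γ * I)‖ *
          ‖pB S β (1 / 2 + γ * I)‖) ^ 2 := e1
        _ ≤ A * En F₀ lam f t := mul_le_mul hcard e2
            (Finset.sum_nonneg fun γ _ => by positivity) hA.le
    rw [lt_div_iff₀ hA] at n3'
    linarith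
  refine (measure_mono hsub).trans ((measure_union_le _ _).trans
    ((add_le_add ((measure_union_le _ _).trans (add_le_add h1 h2)) m3).trans ?_))
  refine (add_le_add_right (ENNReal.ofReal_le_ofReal h4) _).trans (le_of_eq ?_)
  rw [← ENNReal.ofReal_add (by positivity) (by positivity),
    ← ENNReal.ofReal_add (by positivity) (by positivity)]
  congr 1
  ring

/-- The form is at most the form with absolute values. -/
lemma qf_le_rf (S : Finset ℕ) (a : ℕ → ℂ) : Qf S a ≤ Rf S a := by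
  unfold Qf Rf
  refine (Complex.re_le_norm _).trans ((norm_sum_le _ _).trans (Finset.sum_le_sum fun m _ =>
    (norm_sum_le _ _).trans (Finset.sum_le_sum fun m' _ => le_of_eq ?_)))
  rw [norm_div, norm_mul, RCLike.norm_conj, Complex.norm_natCast]

lemma rf_nonneg (S : Finset ℕ) (a : ℕ → ℂ) : 0 ≤ Rf S a := by
  unfold Rf
  positivity

/-- Hölder over all zeros. -/
lemma hold11 (F : Finset ℝ) (z b g : ℝ → ℝ) (hg : ∀ γ, 0 ≤ g γ) {X Y : ℝ}
    (h1 : ∑ γ ∈ F, z γ ^ 2 * (b γ ^ 2) ^ 2 ≤ X) (h2 : ∑ γ ∈ F, z γ ^ 2 * g γ ≤ Y) :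
    ∑ γ ∈ F, (z γ * b γ) ^ 2 * Real.sqrt (g γ) ≤ Real.sqrt (X * Y) := by
  apply Real.le_sqrt_of_sq_le
  have h3 := Finset.sum_mul_sq_le_sq_mul_sq F (fun γ => z γ * b γ ^ 2)
    (fun γ => z γ * Real.sqrt (g γ))
  have e1 : ∀ γ, (z γ * b γ ^ 2) * (z γ * Real.sqrt (g γ)) =
      (z γ * b γ) ^ 2 * Real.sqrt (g γ) := fun γ => by ring
  have e2 : ∀ γ, (z γ * b γ ^ 2) ^ 2 = z γ ^ 2 * (b γ ^ 2) ^ 2 := fun γ => by ring
  have e3 : ∀ γ, (z γ * Real.sqrt (g γ)) ^ 2 = z γ ^ 2 * g γ := fun γ => by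
    rw [mul_pow, Real.sq_sqrt (hg γ)]
  simp only [e1, e2, e3] at h3
  refine h3.trans (mul_le_mul h1 h2 (Finset.sum_nonneg fun γ _ => ?_) ?_)
  · exact mul_nonneg (sq_nonneg _) (hg γ)
  · exact (Finset.sum_nonneg fun γ _ => by positivity).trans h1

lemma ll10 (κ : ℝ) (hκ : 0 < κ) :
    ∀ᶠ T : ℝ in atTop, Real.log (Real.log T) ^ 10 ≤ κ * Real.log T := by
  have hlog : Tendsto Real.log atTop atTop := Real.tendsto_log_atTop
  have h1 : ∀ᶠ x : ℝ in atTop, ‖Real.log x ^ 10‖ ≤ κ * ‖id x‖ :=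
    (Real.isLittleO_pow_log_id_atTop (n := 10)).bound hκ
  filter_upwards [hlog.eventually h1, hlog.eventually_ge_atTop 0] with T k1 k2
  simp only [id] at k1
  rw [Real.norm_of_nonneg k2] at k1
  exact (Real.le_norm_self _).trans k1

/-- The sums over the zeros of one `T`. -/
theorem sums11 (htsd : TSDStatement) (hRH : RiemannHypothesis) : ∃ C : ℝ, 0 < C ∧
    ∀ (δ : ℝ) (n : ℕ) (Sf : Fin n → Finset ℕ) (af : Fin n → ℕ → ℂ), 0 < δ →
    (∀ i, ∀ m ∈ Sf i, 1 ≤ m) → ∑ i, Qf (Sf i) (af i) ≤ δ → ∃ T0 : ℝ, 10 < T0 ∧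
    ∀ (T : ℝ) (S : Finset ℕ) (β : ℕ → ℝ) (S2 : Finset ℕ) (β2 : ℕ → ℂ) (F : Finset ℝ),
      T0 ≤ T → (∀ m ∈ S2, 1 ≤ m ∧ (m : ℝ) ≤ Real.exp (Real.log (Real.log T) ^ 6)) →
      (∀ s : ℂ, cA S2 β2 s = pB S β s ^ 2) → Rf S2 β2 ≤ 2 →
      (∀ γ ∈ F, T / 2 < γ ∧ γ < 4 * T ∧ riemannZeta (1 / 2 + γ * I) = 0) →
      ∑ γ ∈ F, (‖deriv riemannZeta (1 / 2 + γ * I)‖ * ‖pB S β (1 / 2 + γ * I)‖) ^ 2 *
        Real.sqrt (∑ i, ‖cA (Sf i) (af i) (1 / 2 + γ * I)‖ ^ 2) ≤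
        C * Real.sqrt δ * T * Real.log T ^ 4 := by
  obtain ⟨C, T1, hC, hT1, h⟩ := htsd hRH
  refine ⟨4 * C, by positivity, fun δ n Sf af hδ hSf hQ => ?_⟩
  set R : ℝ := ∑ i, Rf (Sf i) (af i) with hR
  have hR0 : 0 ≤ R := Finset.sum_nonneg fun i _ => rf_nonneg _ _
  -- the fixed polynomials are short
  have hlog : Tendsto Real.log atTop atTop := Real.tendsto_log_atTop
  have hlen : ∀ᶠ T : ℝ in atTop, ∀ i, ∀ m ∈ Sf i, (m : ℝ) ≤
      Real.exp (Real.log (Real.log T) ^ 6) := by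
    have h1 : Tendsto (fun T : ℝ => Real.exp (Real.log (Real.log T) ^ 6)) atTop atTop :=
      Real.tendsto_exp_atTop.comp ((tendsto_pow_atTop (by norm_num)).comp (hlog.comp hlog))
    rw [eventually_all]
    intro i
    rw [Finset.eventually_all]
    intro m _
    exact h1.eventually_ge_atTop _
  obtain ⟨T2, h2⟩ := eventually_atTop.1 hlen
  obtain ⟨T3, h3⟩ := eventually_atTop.1 (ll10 (δ / (R + 1)) (by positivity))
  obtain ⟨T4, h4⟩ := eventually_atTop.1 (ll10 1 one_pos)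
  refine ⟨max T1 (max T2 (max T3 T4)), lt_max_of_lt_left hT1,
    fun T S β S2 β2 F hT hS2 hsq hRf hF => ?_⟩
  have hTT1 : T1 ≤ T := (le_max_left _ _).trans hT
  have r1 := (le_max_right _ _).trans hT
  have hTT2 : T2 ≤ T := (le_max_left _ _).trans r1
  have r2 := (le_max_right _ _).trans r1
  have hTT3 : T3 ≤ T := (le_max_left _ _).trans r2
  have hTT4 : T4 ≤ T := (le_max_right _ _).trans r2
  have hT10 : 10 < T := by linarith
  have hT0 : 0 < T := by linarith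
  set L := Real.log T with hL
  have hL0 : 0 < L := Real.log_pos (by linarith)
  have hl3 := h3 T hTT3
  have hl4 := h4 T hTT4
  rw [one_mul] at hl4
  -- the first sum
  have s1 : ∑ γ ∈ F, ‖deriv riemannZeta (1 / 2 + γ * I)‖ ^ 2 *
      (‖pB S β (1 / 2 + γ * I)‖ ^ 2) ^ 2 ≤ 4 * C * T * L ^ 4 := by
    have k1 := h T S2 β2 hTT1 hS2 F hF
    have k2 : ∀ γ : ℝ, ‖cA S2 β2 (1 / 2 + γ * I)‖ ^ 2 = (‖pB S β (1 / 2 + γ * I)‖ ^ 2) ^ 2 :=
      fun γ => by rw [hsq, norm_pow]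
    simp only [k2] at k1
    refine k1.trans ?_
    have k3 : L ^ 4 * Qf S2 β2 ≤ L ^ 4 * 2 :=
      mul_le_mul_of_nonneg_left ((qf_le_rf _ _).trans hRf) (by positivity)
    have k4 : L ^ 3 * Real.log L ^ 10 * Rf S2 β2 ≤ L ^ 3 * L * 2 := by
      refine mul_le_mul (mul_le_mul_of_nonneg_left hl4 (by positivity)) hRf (rf_nonneg _ _)
        (by positivity)
    calc C * T * (L ^ 4 * Qf S2 β2 + L ^ 3 * Real.log L ^ 10 * Rf S2 β2) ≤
          C * T * (L ^ 4 * 2 + L ^ 3 * L * 2) :=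
            mul_le_mul_of_nonneg_left (add_le_add k3 k4) (by positivity)
      _ = 4 * C * T * L ^ 4 := by ring
  -- the second sum
  have s2 : ∑ γ ∈ F, ‖deriv riemannZeta (1 / 2 + γ * I)‖ ^ 2 *
      ∑ i, ‖cA (Sf i) (af i) (1 / 2 + γ * I)‖ ^ 2 ≤ 2 * C * δ * T * L ^ 4 := by
    have k0 : ∑ γ ∈ F, ‖deriv riemannZeta (1 / 2 + γ * I)‖ ^ 2 *
        ∑ i, ‖cA (Sf i) (af i) (1 / 2 + γ * I)‖ ^ 2 = ∑ i, ∑ γ ∈ F,
          ‖deriv riemannZeta (1 / 2 + γ * I)‖ ^ 2 * ‖cA (Sf i) (af i) (1 / 2 + γ * I)‖ ^ 2 := by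
      rw [Finset.sum_comm]
      exact Finset.sum_congr rfl fun γ _ => Finset.mul_sum _ _ _
    rw [k0]
    have k1 : ∀ i, ∑ γ ∈ F, ‖deriv riemannZeta (1 / 2 + γ * I)‖ ^ 2 *
        ‖cA (Sf i) (af i) (1 / 2 + γ * I)‖ ^ 2 ≤
        C * T * (L ^ 4 * Qf (Sf i) (af i) + L ^ 3 * Real.log L ^ 10 * Rf (Sf i) (af i)) :=
      fun i => h T (Sf i) (af i) hTT1 (fun m hm => ⟨hSf i m hm, h2 T hTT2 i m hm⟩) F hF
    refine (Finset.sum_le_sum fun i _ => k1 i).trans ?_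
    rw [← Finset.mul_sum, Finset.sum_add_distrib, ← Finset.mul_sum, ← Finset.mul_sum]
    have k3 : L ^ 4 * ∑ i, Qf (Sf i) (af i) ≤ L ^ 4 * δ :=
      mul_le_mul_of_nonneg_left hQ (by positivity)
    have k4 : L ^ 3 * Real.log L ^ 10 * R ≤ L ^ 3 * (L * δ) := by
      rw [mul_assoc]
      refine mul_le_mul_of_nonneg_left ?_ (by positivity)
      calc Real.log L ^ 10 * R ≤ (δ / (R + 1) * L) * (R + 1) :=
            mul_le_mul hl3 (by linarith) hR0 (by positivity)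
        _ = L * δ := by field_simp
    calc C * T * (L ^ 4 * ∑ i, Qf (Sf i) (af i) + L ^ 3 * Real.log L ^ 10 * R) ≤
          C * T * (L ^ 4 * δ + L ^ 3 * (L * δ)) :=
            mul_le_mul_of_nonneg_left (add_le_add k3 k4) (by positivity)
      _ = 2 * C * δ * T * L ^ 4 := by ring
  have s3 := hold11 F (fun γ => ‖deriv riemannZeta (1 / 2 + γ * I)‖)
    (fun γ => ‖pB S β (1 / 2 + γ * I)‖)
    (fun γ => ∑ i, ‖cA (Sf i) (af i) (1 / 2 + γ * I)‖ ^ 2)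
    (fun γ => Finset.sum_nonneg fun i _ => by positivity) s1 s2
  refine s3.trans ?_
  rw [Real.sqrt_le_left (by positivity)]
  have k5 : Real.sqrt δ ^ 2 = δ := Real.sq_sqrt hδ.le
  have k6 : (4 * C * Real.sqrt δ * T * L ^ 4) ^ 2 = 16 * C ^ 2 * (Real.sqrt δ ^ 2) * T ^ 2 * L ^ 8 := by
    ring
  rw [k6, k5]
  have k7 : 0 ≤ C ^ 2 * δ * T ^ 2 * L ^ 8 := by positivity
  nlinarith

/-- CHB11. -/
theorem chb11 (hnear : NEARStatement) (htsd : TSDStatement) (hfam : FAMStatement) :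
    CHB11Statement := by
  intro hRH ε hε
  obtain ⟨c, hc, hn⟩ := hnear hRH
  obtain ⟨C, hC, hsum⟩ := sums11 htsd hRH
  obtain ⟨lam, hlam, hn1⟩ := hn (ε / 3) (by positivity)
  refine ⟨lam, hlam, fun A M hA hM => ?_⟩
  have hlam0 : 0 < lam := by linarith
  obtain ⟨Tn, hTn, hn2⟩ := hn1 M hM
  set δ : ℝ := (ε * c ^ 2 / (6 * C * A)) ^ 2 with hδ
  have hδ0 : 0 < δ := by positivity
  obtain ⟨n, Sf, af, hS1, hS2, Tf, hTf, hf⟩ := hfam δ lam (ε / 3) hδ0 hlam (by positivity)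
  obtain ⟨Ts, hTs, hs⟩ := hsum δ n Sf af hδ0 hS1 hS2
  refine ⟨max Tn (max Tf (max Ts (4 * lam))), lt_max_of_lt_left hTn, fun T hT => ?_⟩
  have hTTn : Tn ≤ T := (le_max_left _ _).trans hT
  have r1 := (le_max_right _ _).trans hT
  have hTTf : Tf ≤ T := (le_max_left _ _).trans r1
  have r2 := (le_max_right _ _).trans r1
  have hTTs : Ts ≤ T := (le_max_left _ _).trans r2
  have hTlam : 4 * lam ≤ T := (le_max_right _ _).trans r2
  have hT0 : 0 < T := by linarith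
  have hL0 : 0 < Real.log T := Real.log_pos (by linarith)
  obtain ⟨S, β, S2, β2, q1, q2, q3, q4⟩ := hn2 T hTTn
  have hX := hs T S β S2 β2 (zt_fin hT0).toFinset hTTs q1 q2 q3 fun γ hγ => by
    rw [Set.Finite.mem_toFinset] at hγ
    exact hγ
  have hkey := key11 (m := M * Real.log T) (A := A) hT0 hlam hTlam hc hA hL0
    (by positivity : (0 : ℝ) < ε / 3) S β
    (fun u => ∑ i, ‖cA (Sf i) (af i) (1 / 2 + u * I)‖ ^ 2) q4 (hf T hTTf) hX ?_
  · refine hkey.trans (le_of_eq ?_)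
    congr 1
    ring
  · rw [div_le_iff₀ (by positivity)]
    have e1 : Real.sqrt δ = ε * c ^ 2 / (6 * C * A) := by
      rw [hδ, Real.sqrt_sq (by positivity)]
    rw [e1]
    have e2 : 2 * lam * (C * (ε * c ^ 2 / (6 * C * A)) * T * Real.log T ^ 4) =
        ε / 3 * T * (c ^ 2 * lam * Real.log T ^ 4 / A) := by
      field_simp
      norm_num
    have e3 : (c * lam * Real.log T ^ 2) ^ 2 / A = c ^ 2 * lam * Real.log T ^ 4 / A * lam := by
      ring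
    rw [e2, e3]
    refine mul_le_mul_of_nonneg_left ?_ (by positivity)
    exact le_mul_of_one_le_right (by positivity) hlam

end Pool.Agent.Lib.MP_6bc78b_nt.GP.H92C
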